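import Pool.Prelude.Def_H_3587d628

/-!
Definitions for the statement: orbit counting and sampling in the Polya setting.
-/

set_option autoImplicit false

namespace Pool.Agent.MP_74c440_lc

open Classical in
/-- The probability of the event `E` for a uniformly random string of `n` bits. -/
noncomputable def prob (n : ℕ) (E : List Bool → Prop) : ℝ :=
  ((Finset.univ.filter fun r : Fin n → Bool => E (List.ofFn r)).card : ℝ) / 2 ^ n

/-- The number of orbits of `G` on the words of length `m` over `k` symbols. -/
noncomputable def orbitCount (k : ℕ) {m : ℕ} (G : Subgroup (Equiv.Perm (Fin m))) : ℕ :=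
  Set.ncard (Set.range fun α : Fin m → Fin k => {β : Fin m → Fin k | ∃ g ∈ G, β = α ∘ g})

/-- The pairs (word, element of `G` fixing the word). -/
def Ups (k : ℕ) {m : ℕ} (G : Subgroup (Equiv.Perm (Fin m))) :
    Set ((Fin m → Fin k) × Equiv.Perm (Fin m)) :=
  {p | p.2 ∈ G ∧ p.1 ∘ p.2 = p.1}

/-- A map between initial segments, written as the list of its values. -/
def valList {m n : ℕ} (f : Fin m → Fin n) : List ℕ := List.ofFn fun i => (f i : ℕ)

/-- The type of inputs: degree in unary, generators, accuracy parameter in unary. -/
abbrev Input : Type := (List Bool × List (List ℕ)) × List Bool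

/-- The input given by a list of generators and an accuracy parameter `e`. -/
def input {m : ℕ} (gens : List (Equiv.Perm (Fin m))) (e : ℕ) : Input :=
  ((List.replicate m true, gens.map fun g : Equiv.Perm (Fin m) => valList g), List.replicate e true)

/-- The group generated by a list of permutations. -/
def gen {m : ℕ} (gens : List (Equiv.Perm (Fin m))) : Subgroup (Equiv.Perm (Fin m)) :=
  Subgroup.closure {g | g ∈ gens}

/-- A fully polynomial randomised approximation scheme for the number of orbits, for the groups
in `S` given by at most `c * m` generators; the accuracy is `1 / e`, the output a fraction. -/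
def HasFPRAS (k c : ℕ) (S : Set (Σ m : ℕ, Subgroup (Equiv.Perm (Fin m)))) : Prop :=
  ∃ (p : Polynomial ℕ) (A : Input × List Bool → ℕ × ℕ), N68a2faeb.IsPolyTime A ∧
    ∀ (m : ℕ) (gens : List (Equiv.Perm (Fin m))), gens.length ≤ c * m → ⟨m, gen gens⟩ ∈ S →
      ∀ e : ℕ, 2 ≤ e →
        3 / 4 ≤ prob (p.eval (N487b59b3.bitEncode (input gens e)).length) fun r =>
          Real.exp (-(1 / (e : ℝ))) * orbitCount k (gen gens) ≤
              ((A (input gens e, r)).1 : ℝ) / (A (input gens e, r)).2 ∧
            ((A (input gens e, r)).1 : ℝ) / (A (input gens e, r)).2 ≤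
              Real.exp (1 / (e : ℝ)) * orbitCount k (gen gens)

/-- A fully polynomial almost uniform sampler of the pairs (word, element fixing it), for the
groups in `S` given by at most `c * m` generators; total variation distance at most `1 / 2 ^ e`. -/
def HasSampler (k c : ℕ) (S : Set (Σ m : ℕ, Subgroup (Equiv.Perm (Fin m)))) : Prop :=
  ∃ (p : Polynomial ℕ) (A : Input × List Bool → List ℕ × List ℕ), N68a2faeb.IsPolyTime A ∧
    ∀ (m : ℕ) (gens : List (Equiv.Perm (Fin m))), gens.length ≤ c * m → ⟨m, gen gens⟩ ∈ S →
      ∀ (e : ℕ) (E : Set (List ℕ × List ℕ)),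
        |prob (p.eval (N487b59b3.bitEncode (input gens e)).length)
            (fun r => A (input gens e, r) ∈ E) -
          (Set.ncard {x ∈ Ups k (gen gens) | (valList x.1, valList x.2) ∈ E} : ℝ) /
            Set.ncard (Ups k (gen gens))| ≤ 1 / 2 ^ e

end Pool.Agent.MP_74c440_lc
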