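import Pool.Agent.Lib.helper82.CookLevin
import Pool.Agent.MP_74c440_lc.Defs

-- ======== part 0: formerly Pool.Agent.MP_74c440_lc.PolyX
section MrgPart0

/-!
More polynomial-time closure lemmas: small numbers, powers, products, total decoders.
-/

set_option autoImplicit false

namespace Pool.Agent.MP_74c440_lc

open Pool.Agent.PolyT Pool.Agent.H82 N487b59b3

/-- Numbers that are computable in polynomial time and polynomially bounded. -/
@[fun_prop] def Un {α : Type} [N487b59b3 α] (f : α → ℕ) : Prop :=
  PolyT.Poly f ∧ Bd bitEncode f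

section closure

variable {α β γ : Type} [N487b59b3 α] [N487b59b3 β] [N487b59b3 γ]

@[fun_prop] theorem Un.poly {f : α → ℕ} (h : Un f) : PolyT.Poly f := h.1

@[fun_prop] theorem u_const (n : ℕ) : Un (fun _ : α => n) := ⟨PolyT.Poly.const n, Bd.const n⟩

@[fun_prop] theorem u_comp {g : β → ℕ} {f : α → β} (hg : Un g) (hf : PolyT.Poly f) :
    Un (fun a => g (f a)) :=
  ⟨hg.1.comp hf, Bd.trans hf.bd (hg.2.reindex f)⟩

@[fun_prop] theorem u_add {f g : α → ℕ} (hf : Un f) (hg : Un g) : Un (fun a => f a + g a) :=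
  ⟨hf.1.add hg.1, hf.2.add hg.2⟩

@[fun_prop] theorem u_mul {f g : α → ℕ} (hf : Un f) (hg : Un g) : Un (fun a => f a * g a) :=
  ⟨hf.1.mul hg.1, hf.2.mul hg.2⟩

@[fun_prop] theorem u_sub {f g : α → ℕ} (hf : Un f) (hg : PolyT.Poly g) :
    Un (fun a => f a - g a) :=
  ⟨hf.1.sub hg, hf.2.of_le (fun _ => Nat.sub_le _ _)⟩

@[fun_prop] theorem u_length {l : α → List β} (hl : PolyT.Poly l) : Un (fun a => (l a).length) :=
  ⟨hl.length, hl.bd.of_le (fun _ => length_le_enc _)⟩

@[fun_prop] theorem p_min {f g : α → ℕ} (hf : PolyT.Poly f) (hg : PolyT.Poly g) :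
    PolyT.Poly (fun a => min (f a) (g a)) :=
  PolyT.Poly.congr (f := fun a => cond (ltB (f a) (g a)) (f a) (g a)) (by fun_prop) (fun a => by
    unfold ltB
    by_cases h : f a < g a <;> simp [h] <;> omega)

/-- The second argument is the small one. -/
@[fun_prop] theorem u_min {f g : α → ℕ} (hf : PolyT.Poly f) (hg : Un g) :
    Un (fun a => min (f a) (g a)) :=
  ⟨p_min hf hg.1, hg.2.of_le (fun _ => min_le_right _ _)⟩

theorem exists_unary {f : α → ℕ} (hf : Bd bitEncode f) :
    ∃ F : α → List ℕ, PolyT.Poly F ∧ ∀ a, f a ≤ (F a).length := by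
  obtain ⟨p, hp⟩ := hf
  obtain ⟨F, hF, h⟩ := exists_list_eval (α := α) (l := fun a => bitEncode a)
    (PolyT.Poly.bitsOf (PT.refl _)) p
  exact ⟨F, hF, fun a => by rw [h]; exact hp a⟩

@[fun_prop] theorem p_range {f : α → ℕ} (hf : Un f) : PolyT.Poly (fun a => List.range (f a)) := by
  obtain ⟨F, hF, h⟩ := exists_unary hf.2
  exact PolyT.Poly.range hf.1 hF (fun a => (h a).trans (length_le_enc _))

theorem prod_lt (r : List ℕ) : r.prod < 2 ^ ((bitEncode r).length + 1) := by
  have key : ∀ r : List ℕ, r.prod ≤ 2 ^ (bitEncode r).length := by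
    intro r
    induction r with
    | nil => simp
    | cons x r ih =>
      rw [List.prod_cons, length_enc_cons]
      have b1 := (lt_two_pow_enc x).le
      calc x * r.prod ≤ 2 ^ (bitEncode x).length * 2 ^ (bitEncode r).length :=
            Nat.mul_le_mul b1 ih
        _ ≤ _ := by
            rw [← pow_add]; exact Nat.pow_le_pow_right (by norm_num) (by omega)
  exact (key r).trans_lt (Nat.pow_lt_pow_right (by norm_num) (by omega))

@[fun_prop] theorem p_prod {l : α → List ℕ} (hl : PolyT.Poly l) :
    PolyT.Poly (fun a => (l a).prod) :=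
  PolyT.Poly.foldr (f := fun _ (x n : ℕ) => x * n)
    (PolyT.Poly.id.snd.fst.mul PolyT.Poly.id.snd.snd) hl (PolyT.Poly.const 1)
    (hl.bd.add (Bd.const 1))
    (fun _ _ => (length_enc_nat_le (prod_lt _)).trans
      (Nat.add_le_add_right (enc_sublist_le (List.drop_sublist _ _)) 1))

@[fun_prop] theorem p_sum {l : α → List ℕ} (hl : PolyT.Poly l) :
    PolyT.Poly (fun a => (l a).sum) := hl.sum

@[fun_prop] theorem p_pow {f g : α → ℕ} (hf : PolyT.Poly f) (hg : Un g) :
    PolyT.Poly (fun a => f a ^ g a) :=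
  PolyT.Poly.congr (f := fun a => ((List.range (g a)).map (fun _ => f a)).prod) (by fun_prop)
    (fun a => by simp)

@[fun_prop] theorem p_replicate {f : α → ℕ} {b : α → β} (hf : Un f) (hb : PolyT.Poly b) :
    PolyT.Poly (fun a => List.replicate (f a) (b a)) :=
  PolyT.Poly.congr (f := fun a => (List.range (f a)).map (fun _ => b a)) (by fun_prop)
    (fun a => by simp)

@[fun_prop] theorem p_bits {f : α → ℕ} (hf : PolyT.Poly f) : PolyT.Poly (fun a => (f a).bits) :=
  hf.bits

@[fun_prop] theorem p_bodd {f : α → ℕ} (hf : PolyT.Poly f) : PolyT.Poly (fun a => (f a).bodd) :=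
  hf.bodd

@[fun_prop] theorem p_ofBits {l : α → List Bool} (hl : PolyT.Poly l) :
    PolyT.Poly (fun a => ofBits (l a)) := hl.ofBits

@[fun_prop] theorem p_xor {c d : α → Bool} (hc : PolyT.Poly c) (hd : PolyT.Poly d) :
    PolyT.Poly (fun a => xor (c a) (d a)) := hc.xor hd

@[fun_prop] theorem p_headD {l : α → List β} {d : α → β} (hl : PolyT.Poly l) (hd : PolyT.Poly d) :
    PolyT.Poly (fun a => (l a).headD (d a)) := hl.headD hd

@[fun_prop] theorem p_toNat {c : α → Bool} (hc : PolyT.Poly c) :
    PolyT.Poly (fun a => (c a).toNat) :=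
  PolyT.Poly.congr (f := fun a => cond (c a) 1 0) (by fun_prop) (fun a => by cases c a <;> rfl)

@[fun_prop] theorem u_size {f : α → ℕ} (hf : PolyT.Poly f) : Un (fun a => (f a).size) := by
  have : Un (fun a => (f a).bits.length) := by fun_prop
  simpa only [Nat.size_eq_bits_len] using this

@[fun_prop] theorem p_size {f : α → ℕ} (hf : PolyT.Poly f) :
    PolyT.Poly (fun a => (f a).size) := (u_size hf).1

@[fun_prop] theorem p_testBit {f g : α → ℕ} (hf : PolyT.Poly f) (hg : PolyT.Poly g) :
    PolyT.Poly (fun a => (f a).testBit (g a)) :=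
  PolyT.Poly.congr (f := fun a => (f a).bits.getD (g a) false) (by fun_prop) (fun a => by
    rw [Nat.testBit_eq_inth]; rfl)

@[fun_prop] theorem p_enc {f : α → β} (hf : PolyT.Poly f) :
    PolyT.Poly (fun a => bitEncode (f a)) := PolyT.Poly.bitsOf hf

@[fun_prop] theorem p_delimit {f : α → List Bool} (hf : PolyT.Poly f) :
    PolyT.Poly (fun a => delimit (f a)) := PolyT.Poly.bitsOf (PT.delimit hf.toRaw)

@[fun_prop] theorem p_sel (s : Bool) {f : α → List Bool} (hf : PolyT.Poly f) :
    PolyT.Poly (fun a => sel s (f a)) := PolyT.Poly.bitsOf (PT.sel s hf.toRaw)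

theorem u_eval (p : Polynomial ℕ) {f : α → ℕ} (hf : Un f) : Un (fun a => p.eval (f a)) := by
  induction p using Polynomial.induction_on' with
  | add p q hp hq => simpa only [Polynomial.eval_add] using u_add hp hq
  | monomial k c =>
    simp only [Polynomial.eval_monomial]
    exact ⟨(PolyT.Poly.const c).mul (p_pow hf.1 (u_const k)), (Bd.const c).mul (hf.2.pow k)⟩

/-- Two to the power of a multiple of the binary length of a small number is small. -/
theorem u_two_pow_size (c : ℕ) {f : α → ℕ} (hf : Un f) :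
    Un (fun a => 2 ^ (c * (f a).size)) := by
  refine ⟨by have := hf.1; fun_prop, ?_⟩
  refine ((((Bd.const 2).mul hf.2).add (Bd.const 1)).pow c).of_le (fun a => ?_)
  rw [mul_comm, pow_mul]
  refine Nat.pow_le_pow_left ?_ c
  rcases Nat.eq_zero_or_pos (f a) with h | h
  · simp [h]
  · have h1 : 0 < (f a).size := Nat.size_pos.2 h
    have h2 : 2 ^ ((f a).size - 1) ≤ f a := Nat.lt_size.1 (by omega)
    obtain ⟨s, hs⟩ : ∃ s, (f a).size = s + 1 := ⟨(f a).size - 1, by omega⟩
    rw [hs] at h2 ⊢
    simp only [Nat.add_sub_cancel] at h2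
    rw [pow_succ]; omega

end closure

/-- Total polynomial-time decoders. -/
class PD (β : Type) [N487b59b3 β] where
  dec : List Bool → β
  poly : PolyT.Poly dec
  dec_enc : ∀ b : β, dec (bitEncode b) = b

@[fun_prop] theorem p_dec {α β : Type} [N487b59b3 α] [N487b59b3 β] [PD β] {f : α → List Bool}
    (hf : PolyT.Poly f) : PolyT.Poly (fun a => (PD.dec (f a) : β)) := PD.poly.comp hf

instance : PD ℕ where
  dec := ofBits
  poly := PolyT.Poly.id.ofBits
  dec_enc n := by rw [enc_nat, ofBits_bits]

instance : PD Bool where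
  dec l := l.headD false
  poly := by fun_prop
  dec_enc _ := rfl

instance {β γ : Type} [N487b59b3 β] [N487b59b3 γ] [PD β] [PD γ] : PD (β × γ) where
  dec l := (PD.dec (sel true l), PD.dec (sel false l))
  poly := by fun_prop
  dec_enc p := by
    rw [enc_pair, sel_pair, sel_pair]
    simp [PD.dec_enc]

/-- One step of the splitting of a string into blocks. -/
def blkStep (n : ℕ) (s : List Bool × List (List Bool)) : List Bool × List (List Bool) :=
  cond (eqB s.1 []) s ((sel false s.1).take n, s.2 ++ [(sel true s.1).take n])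

/-- The blocks of a string. -/
def blocks (l : List Bool) : List (List Bool) :=
  (l.foldl (fun s _ => blkStep l.length s) (l, [])).2

theorem blk_bound (n : ℕ) (r : List Bool) (s : List Bool × List (List Bool))
    (h1 : s.1.length ≤ n) (h2 : ∀ x ∈ s.2, x.length ≤ n) :
    (r.foldl (fun s _ => blkStep n s) s).1.length ≤ n ∧
      (∀ x ∈ (r.foldl (fun s _ => blkStep n s) s).2, x.length ≤ n) ∧
      (r.foldl (fun s _ => blkStep n s) s).2.length ≤ s.2.length + r.length := by
  induction r generalizing s with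
  | nil => exact ⟨h1, h2, le_rfl⟩
  | cons b r ih =>
    rw [List.foldl_cons]
    have h3 : (blkStep n s).1.length ≤ n ∧ (∀ x ∈ (blkStep n s).2, x.length ≤ n) ∧
        (blkStep n s).2.length ≤ s.2.length + 1 := by
      unfold blkStep
      cases eqB s.1 []
      · refine ⟨List.length_take_le _ _, fun x hx => ?_, by simp⟩
        simp only [cond_false, List.mem_append, List.mem_singleton] at hx
        rcases hx with hx | rfl
        · exact h2 x hx
        · exact List.length_take_le _ _
      · exact ⟨h1, h2, by simp⟩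
    obtain ⟨a1, a2, a3⟩ := ih _ h3.1 h3.2.1
    exact ⟨a1, a2, by rw [List.length_cons]; omega⟩

theorem poly_blocks : PolyT.Poly blocks := by
  have h := PolyT.Poly.foldl (α := List Bool) (β := Bool)
    (f := fun l (s : List Bool × List (List Bool)) _ => blkStep l.length s)
    (by unfold blkStep; fun_prop) PolyT.Poly.id (i := fun l => (l, [])) (by fun_prop)
    (((((Bd.const 2).mul Bd.len).add (Bd.const 1))).add
      (Bd.len.mul (((Bd.const 2).mul Bd.len).add (Bd.const 1)))) (fun a n => by
      obtain ⟨a1, a2, a3⟩ := blk_bound a.length (a.take n) (a, []) le_rfl (by simp)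
      rw [length_enc_pair, PolyT.Poly.enc_bools_length, PolyT.Poly.enc_bools_length, enc_list,
        List.length_flatMap]
      have a4 := PolyT.Poly.sum_map_le _ (fun x : List Bool => (delimit (bitEncode x)).length)
        (2 * (3 * a.length) + 1) (fun x hx => by
          have := a2 x hx
          rw [length_delimit, PolyT.Poly.enc_bools_length]; omega)
      have a5 : (a.take n).length ≤ a.length := List.length_take_le' _ _
      simp only [List.length_nil, Nat.zero_add] at a3
      have a6 := Nat.mul_le_mul_right (2 * (3 * a.length) + 1)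
        (a3.trans (a5.trans (by omega : a.length ≤ 3 * a.length)))
      omega)
  exact h.snd

theorem blk_spec (n : ℕ) (L : List (List Bool)) (r : List Bool) (acc : List (List Bool))
    (h1 : L.length ≤ r.length) (h2 : (L.flatMap delimit).length ≤ n) :
    r.foldl (fun s _ => blkStep n s) (L.flatMap delimit, acc) = ([], acc ++ L) := by
  induction r generalizing L acc with
  | nil =>
    obtain rfl : L = [] := List.eq_nil_of_length_eq_zero (by simpa using h1)
    simp
  | cons b r ih =>
    rw [List.foldl_cons]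
    cases L with
    | nil =>
      have := ih [] acc (by simp) (by simp)
      simpa [blkStep, eqB] using this
    | cons x L =>
      have h3 : delimit x ++ L.flatMap delimit ≠ [] := by
        cases x <;> simp [delimit]
      rw [List.flatMap_cons, List.length_append, length_delimit] at h2
      have h4 : blkStep n ((x :: L).flatMap delimit, acc) = (L.flatMap delimit, acc ++ [x]) := by
        simp only [blkStep, List.flatMap_cons, eqB, h3, decide_false, cond_false, sel_pair]
        simp only [Bool.false_eq_true, if_false, if_true]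
        rw [List.take_of_length_le (by omega), List.take_of_length_le (by omega)]
      rw [h4, ih L _ (by simpa using h1) (by omega)]
      simp

instance {β : Type} [N487b59b3 β] [PD β] : PD (List β) where
  dec l := (blocks l).map PD.dec
  poly := by have := poly_blocks; fun_prop
  dec_enc l := by
    have h : bitEncode l = (l.map bitEncode).flatMap delimit := by
      rw [enc_list, List.flatMap_map]
    have h2 := blk_spec (bitEncode l).length (l.map bitEncode) (bitEncode l) []
      (by rw [List.length_map]; exact length_le_enc l) (by rw [← h])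
    unfold blocks
    rw [← h] at h2
    rw [h2]
    simp [PD.dec_enc, Function.comp_def]

end Pool.Agent.MP_74c440_lc

end MrgPart0

-- ======== part 1: formerly Pool.Agent.MP_74c440_lc.Gad
section MrgPart1

/-!
Gadgets: weighted sums over binary vectors of products of block weights.
-/

set_option autoImplicit false

namespace Pool.Agent.MP_74c440_lc

open Pool.Agent.PolyT Pool.Agent.H82 Finset

/-- The field with two elements. -/
abbrev F : Type := ZMod 2

/-- A linear functional: external and internal variables that occur. -/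
abbrev Fn : Type := List ℕ × List ℕ

/-- A block: two functionals. -/
abbrev Blk : Type := Fn × Fn

/-- A gadget: number of internal variables and blocks. -/
abbrev Gad : Type := ℕ × List Blk

/-- Sum of the listed coordinates. -/
def par (c : ℕ → F) (l : List ℕ) : F := (l.map c).sum

@[simp] theorem par_nil (c : ℕ → F) : par c [] = 0 := rfl

@[simp] theorem par_cons (c : ℕ → F) (i : ℕ) (l : List ℕ) : par c (i :: l) = c i + par c l := by
  simp [par]

theorem par_append (c : ℕ → F) (l l' : List ℕ) : par c (l ++ l') = par c l + par c l' := by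
  simp [par]

theorem par_flatMap (c : ℕ → F) (l : List ℕ) (g : ℕ → List ℕ) :
    par c (l.flatMap g) = par (fun i => par c (g i)) l := by
  induction l with
  | nil => rfl
  | cons i l ih => rw [List.flatMap_cons, par_append, ih, par_cons]

theorem par_map (c : ℕ → F) (l : List ℕ) (g : ℕ → ℕ) :
    par c (l.map g) = par (fun i => c (g i)) l := by
  simp [par, Function.comp_def]

theorem par_add (c d : ℕ → F) (l : List ℕ) :
    par (fun i => c i + d i) l = par c l + par d l := by
  simp [par, List.sum_map_add]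

theorem par_filter (c : ℕ → F) (l : List ℕ) (p : ℕ → Bool) :
    par c (l.filter p) = par (fun i => if p i then c i else 0) l := by
  induction l with
  | nil => rfl
  | cons i l ih => cases h : p i <;> simp [h, ih]

theorem par_range (c : ℕ → F) (n : ℕ) : par c (List.range n) = ∑ i ∈ range n, c i := by
  induction n with
  | zero => rfl
  | succ n ih => rw [List.range_succ, par_append, ih, sum_range_succ]; simp

/-- Value of a functional. -/
def evF (a c : ℕ → F) (φ : Fn) : F := par a φ.1 + par c φ.2

/-- The block weights. -/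
def f00 (k : ℕ) : ℕ := k ^ 4 + k ^ 2
/-- The block weights. -/
def f10 (k : ℕ) : ℕ := 2 * k ^ 3
/-- The block weights. -/
def f01 (k : ℕ) : ℕ := 2 * k ^ 2
/-- The block weights. -/
def f11 (k : ℕ) : ℕ := 2 * k

/-- The weight of a block. -/
def wt (k : ℕ) (x y : F) : ℝ :=
  if x = 0 then (if y = 0 then f00 k else f01 k) else (if y = 0 then f10 k else f11 k)

@[simp] theorem wt00 (k : ℕ) : wt k 0 0 = f00 k := by simp [wt]
@[simp] theorem wt01 (k : ℕ) : wt k 0 1 = f01 k := by simp [wt]
@[simp] theorem wt10 (k : ℕ) : wt k 1 0 = f10 k := by simp [wt]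
@[simp] theorem wt11 (k : ℕ) : wt k 1 1 = f11 k := by simp [wt]

theorem F_cases (x : F) : x = 0 ∨ x = 1 := by revert x; decide

/-- The weight of a list of blocks. -/
def blkW (k : ℕ) (a c : ℕ → F) (bl : List Blk) : ℝ :=
  (bl.map fun b => wt k (evF a c b.1) (evF a c b.2)).prod

theorem blkW_append (k : ℕ) (a c : ℕ → F) (l l' : List Blk) :
    blkW k a c (l ++ l') = blkW k a c l * blkW k a c l' := by
  simp [blkW]

theorem blkW_flatMap (k : ℕ) (a c : ℕ → F) (n : ℕ) (g : ℕ → List Blk) :
    blkW k a c ((List.range n).flatMap g) = ∏ j ∈ range n, blkW k a c (g j) := by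
  induction n with
  | zero => rfl
  | succ n ih => rw [List.range_succ, List.flatMap_append, blkW_append, ih, prod_range_succ]; simp

theorem blkW_map (k : ℕ) (a c : ℕ → F) (n : ℕ) (g : ℕ → Blk) :
    blkW k a c ((List.range n).map g) =
      ∏ j ∈ range n, wt k (evF a c (g j).1) (evF a c (g j).2) := by
  induction n with
  | zero => rfl
  | succ n ih =>
    rw [List.range_succ, List.map_append, blkW_append, ih, prod_range_succ]; simp [blkW]

theorem blkW_replicate (k : ℕ) (a c : ℕ → F) (t : ℕ) (b : Blk) :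
    blkW k a c (List.replicate t b) = wt k (evF a c b.1) (evF a c b.2) ^ t := by
  simp [blkW]

/-- Extension by zero. -/
def ext {K : ℕ} (c : Fin K → F) : ℕ → F := fun i => if h : i < K then c ⟨i, h⟩ else 0

/-- Sum over all vectors with `K` coordinates. -/
def sumK (K : ℕ) (G : (ℕ → F) → ℝ) : ℝ := ∑ c : Fin K → F, G (ext c)

/-- The partition function of a gadget. -/
def Z (k : ℕ) (g : Gad) (a : ℕ → F) : ℝ := sumK g.1 fun c => blkW k a c g.2

/-- Restriction to the first `K` coordinates. -/
def res (K : ℕ) (c : ℕ → F) : ℕ → F := fun i => if i < K then c i else 0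

/-- Concatenation. -/
def app (K : ℕ) (c d : ℕ → F) : ℕ → F := fun i => if i < K then c i else d (i - K)

theorem res_ext {K : ℕ} (c : Fin K → F) : res K (ext c) = ext c := by
  funext i
  unfold res ext
  split_ifs <;> rfl

theorem sumK_congr {K : ℕ} {G G' : (ℕ → F) → ℝ} (h : ∀ c, res K c = c → G c = G' c) :
    sumK K G = sumK K G' :=
  Finset.sum_congr rfl fun c _ => h _ (res_ext c)

theorem sumK_mono {K : ℕ} {G G' : (ℕ → F) → ℝ} (h : ∀ c, G c ≤ G' c) :
    sumK K G ≤ sumK K G' :=
  Finset.sum_le_sum fun _ _ => h _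

theorem sumK_mul_left (K : ℕ) (x : ℝ) (G : (ℕ → F) → ℝ) :
    sumK K (fun c => x * G c) = x * sumK K G := by
  simp only [sumK, mul_sum]

theorem sumK_add' (K : ℕ) (G G' : (ℕ → F) → ℝ) :
    sumK K (fun c => G c + G' c) = sumK K G + sumK K G' := by
  simp only [sumK, sum_add_distrib]

theorem sumK_sum {ι : Type} (K : ℕ) (s : Finset ι) (G : ι → (ℕ → F) → ℝ) :
    sumK K (fun c => ∑ i ∈ s, G i c) = ∑ i ∈ s, sumK K (G i) := by
  simp only [sumK]; rw [sum_comm]

theorem sumK_add (K L : ℕ) (G : (ℕ → F) → ℝ) :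
    sumK (K + L) G = sumK K fun c => sumK L fun d => G (app K c d) := by
  unfold sumK
  rw [← (Fin.appendEquiv K L).sum_comp, Fintype.sum_prod_type]
  refine Finset.sum_congr rfl fun c _ => Finset.sum_congr rfl fun d _ => ?_
  congr 1
  funext i
  unfold app ext
  by_cases h : i < K
  · rw [if_pos h, dif_pos h, dif_pos (by omega : i < K + L)]
    exact Fin.append_left c d ⟨i, h⟩
  · rw [if_neg h]
    by_cases h2 : i < K + L
    · rw [dif_pos h2, dif_pos (by omega : i - K < L)]
      have := Fin.append_right c d ⟨i - K, by omega⟩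
      rw [← this]
      simp only [Fin.appendEquiv_apply]
      congr 1
      ext
      simp; omega
    · rw [dif_neg h2, dif_neg (by omega)]

theorem sumK_blocks (K0 K n : ℕ) (w : (ℕ → F) → ℝ) (Φ : ℕ → (ℕ → F) → (ℕ → F) → ℝ) :
    sumK (K0 + n * K) (fun c => w (res K0 c) *
      ∏ j ∈ range n, Φ j (res K0 c) (res K fun i => c (K0 + j * K + i))) =
      sumK K0 fun c => w c * ∏ j ∈ range n, sumK K (Φ j c) := by
  induction n generalizing w with
  | zero =>
    simp only [Nat.zero_mul, Nat.add_zero, range_zero, prod_empty, mul_one]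
    exact sumK_congr fun c hc => by rw [hc]
  | succ n ih =>
    rw [show K0 + (n + 1) * K = K0 + n * K + K by ring, sumK_add]
    have h1 := ih (fun c => w c * sumK K (Φ n c))
    simp only [prod_range_succ]
    refine Eq.trans (sumK_congr fun c _ => ?_) (h1.trans (sumK_congr fun c _ => by ring))
    rw [mul_right_comm, ← sumK_mul_left]
    refine sumK_congr fun d hd => ?_
    have e1 : res K0 (app (K0 + n * K) c d) = res K0 c := by
      funext i
      unfold res app
      split_ifs <;> first | rfl | omega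
    have e2 : (res K fun i => app (K0 + n * K) c d (K0 + n * K + i)) = d := by
      rw [← hd]
      funext i
      unfold res app
      simp only [Nat.add_sub_cancel_left]
      split_ifs <;> first | rfl | omega
    rw [e1, e2, ← mul_assoc]
    congr 2
    refine prod_congr rfl fun j hj => ?_
    congr 1
    funext i
    unfold res app
    have hj' := Nat.mul_le_mul_right K (Nat.succ_le_of_lt (mem_range.1 hj))
    rw [Nat.succ_mul] at hj'
    by_cases hi : i < K
    · rw [if_pos hi, if_pos hi]
      exact if_pos (by omega)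
    · rw [if_neg hi, if_neg hi]

theorem sumK_one (G : (ℕ → F) → ℝ) (g : F → ℝ) (h : ∀ c, G c = g (c 0)) :
    sumK 1 G = g 0 + g 1 := by
  unfold sumK
  simp only [h, ext, Nat.lt_one_iff, dite_true]
  rw [← (Equiv.funUnique (Fin 1) F).symm.sum_comp]
  exact Fin.sum_univ_two (fun x : F => g x)

theorem sumK_prod (n : ℕ) (g : ℕ → F → ℝ) :
    sumK n (fun c => ∏ i ∈ range n, g i (c i)) = ∏ i ∈ range n, (g i 0 + g i 1) := by
  have h := sumK_blocks 0 1 n (fun _ => 1) (fun j _ d => g j (d 0))
  simp only [Nat.zero_add, Nat.mul_one, one_mul, res, Nat.lt_one_iff, if_true, Nat.add_zero] at h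
  rw [h]
  simp only [sumK, univ_unique, sum_singleton]
  exact prod_congr rfl fun j _ => sumK_one _ (g j) fun _ => rfl

theorem sumK_pairs (n : ℕ) (g : ℕ → F → F → ℝ) :
    sumK (n * 2) (fun c => ∏ i ∈ range n, g i (c (2 * i)) (c (2 * i + 1))) =
      ∏ i ∈ range n, (g i 0 0 + g i 0 1 + g i 1 0 + g i 1 1) := by
  have h := sumK_blocks 0 2 n (fun _ => 1) (fun j _ d => g j (d 0) (d 1))
  simp only [Nat.zero_add, one_mul, res, Nat.ofNat_pos, Nat.one_lt_ofNat, if_true,
    Nat.add_zero, mul_comm _ 2] at h
  rw [mul_comm, h]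
  simp only [sumK, univ_unique, sum_singleton]
  refine prod_congr rfl fun j _ => ?_
  have h2 := sumK_add 1 1 (fun d => g j (d 0) (d 1))
  refine h2.trans ?_
  rw [sumK_one _ (fun x => g j x 0 + g j x 1)]
  · ring
  · intro c
    exact sumK_one _ (fun y => g j (c 0) y) fun d => by simp [app]

/-- The entries below `K`. -/
def cut (K : ℕ) (l : List ℕ) : List ℕ := l.filter fun i => ltB i K

theorem par_cut (c : ℕ → F) (K : ℕ) (l : List ℕ) : par c (cut K l) = par (res K c) l := by
  rw [cut, par_filter]
  congr 1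
  funext i
  simp [res]

/-- Substitution of functionals for the external variables and shift of the internal ones. -/
def subFn (K0 K o : ℕ) (σ : ℕ → Fn) (φ : Fn) : Fn :=
  (φ.1.flatMap fun i => (σ i).1,
    (φ.1.flatMap fun i => cut K0 (σ i).2) ++ (cut K φ.2).map fun i => o + i)

theorem evF_subFn (a c : ℕ → F) (K0 K o : ℕ) (σ : ℕ → Fn) (φ : Fn) :
    evF a c (subFn K0 K o σ φ) =
      evF (fun i => evF a (res K0 c) (σ i)) (res K fun i => c (o + i)) φ := by
  simp only [evF, subFn, par_append, par_flatMap, par_map, par_cut, par_add, add_assoc]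

/-- A gadget with its own variables and blocks and `n` copies of the gadget `g`. -/
def node (K0 : ℕ) (own : List Blk) (g : Gad) (n : ℕ) (σ : ℕ → ℕ → Fn) : Gad :=
  (K0 + n * g.1, own ++ (List.range n).flatMap fun j => g.2.map fun b =>
    (subFn K0 g.1 (K0 + j * g.1) (σ j) b.1, subFn K0 g.1 (K0 + j * g.1) (σ j) b.2))

theorem node_sum (k K0 : ℕ) (own : List Blk) (g : Gad) (n : ℕ) (σ : ℕ → ℕ → Fn) (a : ℕ → F)
    (w W : (ℕ → F) → ℝ) (h : ∀ c, w c * blkW k a c own = W (res K0 c)) :
    sumK (node K0 own g n σ).1 (fun c => w c * blkW k a c (node K0 own g n σ).2) =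
      sumK K0 fun c => W c * ∏ j ∈ range n, Z k g fun i => evF a c (σ j i) := by
  refine Eq.trans (sumK_congr fun c _ => ?_)
    (sumK_blocks K0 g.1 n W (fun j c d => blkW k (fun i => evF a c (σ j i)) d g.2))
  simp only [node, blkW_append, blkW_flatMap]
  rw [← mul_assoc, h]
  congr 1
  refine prod_congr rfl fun j _ => ?_
  simp only [blkW, List.map_map, Function.comp_def, evF_subFn]

theorem node_Z (k K0 : ℕ) (own : List Blk) (g : Gad) (n : ℕ) (σ : ℕ → ℕ → Fn) (a : ℕ → F)
    (W : (ℕ → F) → ℝ) (h : ∀ c, blkW k a c own = W (res K0 c)) :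
    Z k (node K0 own g n σ) a =
      sumK K0 fun c => W c * ∏ j ∈ range n, Z k g fun i => evF a c (σ j i) := by
  rw [← node_sum k K0 own g n σ a (fun _ => 1) W (by simpa using h)]
  simp only [one_mul, Z]

theorem node_length (K0 : ℕ) (own : List Blk) (g : Gad) (n : ℕ) (σ : ℕ → ℕ → Fn) :
    (node K0 own g n σ).2.length = own.length + n * g.2.length := by
  simp [node, List.length_flatMap]

theorem p_node {α : Type} [N487b59b3 α] {K0 n : α → ℕ} {own : α → List Blk} {g : α → Gad}
    {σ : α → ℕ → ℕ → Fn} (hK : PolyT.Poly K0) (hn : Un n) (ho : PolyT.Poly own)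
    (hg : PolyT.Poly g) (hσ : PolyT.Poly fun p : α × ℕ × ℕ => σ p.1 p.2.1 p.2.2) :
    PolyT.Poly fun a => node (K0 a) (own a) (g a) (n a) (σ a) := by
  have h1 : ∀ {β : Type} [N487b59b3 β] {x : β → α} {y z : β → ℕ}, PolyT.Poly x → PolyT.Poly y →
      PolyT.Poly z → PolyT.Poly fun b => σ (x b) (y b) (z b) := fun hx hy hz =>
    hσ.comp (hx.pair (hy.pair hz))
  unfold node subFn cut
  refine p_pair (by fun_prop) (p_append ho (p_flatMap (p_map (p_pair (p_pair (p_flatMap (p_fst ?_)
    (by fun_prop)) (p_append (p_flatMap (p_filter (by fun_prop) (p_snd ?_)) (by fun_prop))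
    (by fun_prop))) (p_pair (p_flatMap (p_fst ?_)
    (by fun_prop)) (p_append (p_flatMap (p_filter (by fun_prop) (p_snd ?_)) (by fun_prop))
    (by fun_prop)))) (by fun_prop)) (by fun_prop)))
  all_goals exact h1 (by fun_prop) (by fun_prop) (by fun_prop)

end Pool.Agent.MP_74c440_lc

end MrgPart1

-- ======== part 2: formerly Pool.Agent.MP_74c440_lc.Lev1
section MrgPart2

/-!
The first level: a small hyperedge from the Hamming code.
-/

set_option autoImplicit false

namespace Pool.Agent.MP_74c440_lc

open Pool.Agent.PolyT Pool.Agent.H82 Finset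

/-- The sign character. -/
def chi (x : F) : ℝ := if x = 0 then 1 else -1

@[simp] theorem chi_zero : chi 0 = 1 := by simp [chi]

@[simp] theorem chi_one : chi 1 = -1 := by simp [chi]

theorem one_add_one_F : (1 : F) + 1 = 0 := by decide

theorem chi_add (x y : F) : chi (x + y) = chi x * chi y := by
  rcases F_cases x with rfl | rfl <;> rcases F_cases y with rfl | rfl <;> simp [one_add_one_F]

theorem chi_sum {ι : Type} (s : Finset ι) (f : ι → F) :
    chi (∑ i ∈ s, f i) = ∏ i ∈ s, chi (f i) := by
  classical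
  induction s using Finset.induction_on with
  | empty => simp
  | insert i s hi ih => rw [sum_insert hi, prod_insert hi, chi_add, ih]

/-- The small hyperedge on `j` external bits with `N` internal ones. -/
def gH (j N t : ℕ) : Gad :=
  (N, ((List.range N).flatMap fun v => List.replicate t (([], []), ([], [v]))) ++
    (List.range j).flatMap fun l =>
      List.replicate t (([], []), ([l], (List.range N).filter fun v => v.testBit l)))

theorem length_gH (j N t : ℕ) : (gH j N t).2.length = N * t + j * t := by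
  simp [gH, List.length_flatMap]

theorem p_gH {α : Type} [N487b59b3 α] {j N t : α → ℕ} (hj : Un j) (hN : Un N) (ht : Un t) :
    PolyT.Poly fun a => gH (j a) (N a) (t a) := by
  unfold gH
  fun_prop

/-- The weight of a chain of `t` blocks. -/
def W (k t : ℕ) (b : F) : ℝ := wt k 0 b ^ t

theorem xor_lt {i ρ v l : ℕ} (hl : l < i) (hv : v < ρ * 2 ^ i) : v ^^^ 2 ^ l < ρ * 2 ^ i := by
  have h : (v ^^^ 2 ^ l) / 2 ^ i = v / 2 ^ i := by
    apply Nat.eq_of_testBit_eq
    intro m
    rw [Nat.testBit_div_two_pow, Nat.testBit_div_two_pow, Nat.testBit_xor,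
      Nat.testBit_two_pow_of_ne (by omega)]
    simp
  rw [← Nat.div_lt_iff_lt_mul (by positivity)] at hv ⊢
  rwa [h]

theorem prod_half (i ρ : ℕ) (u : Finset ℕ) (hu : u ⊆ range (i + 1)) (hne : u.Nonempty)
    (A B : ℝ) :
    ∏ v ∈ range (ρ * 2 ^ (i + 1)), (if (∑ l ∈ u, if v.testBit l then (1 : F) else 0) = 0
      then A else B) = (A * B) ^ (ρ * 2 ^ i) := by
  obtain ⟨l, hl⟩ := hne
  set p : ℕ → Prop := fun v => (∑ l ∈ u, if v.testBit l then (1 : F) else 0) = 0 with hp
  have hflip : ∀ v, p (v ^^^ 2 ^ l) ↔ ¬ p v := by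
    intro v
    simp only [hp]
    rw [← add_sum_erase u _ hl, ← add_sum_erase u (fun l => if v.testBit l then (1 : F) else 0) hl,
      sum_congr rfl (g := fun l => if v.testBit l then (1 : F) else 0) (fun m hm => by
        rw [Nat.testBit_xor, Nat.testBit_two_pow_of_ne (ne_of_mem_erase hm).symm]; simp),
      Nat.testBit_xor, Nat.testBit_two_pow_self]
    generalize (∑ x ∈ u.erase l, if v.testBit x = true then (1 : F) else 0) = y
    cases v.testBit l <;> revert y <;> decide
  have hl' : l < i + 1 := mem_range.1 (hu hl)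
  have hc : ((range (ρ * 2 ^ (i + 1))).filter p).card =
      ((range (ρ * 2 ^ (i + 1))).filter fun v => ¬ p v).card := by
    refine card_bij' (fun v _ => v ^^^ 2 ^ l) (fun v _ => v ^^^ 2 ^ l) (fun v hv => ?_)
      (fun v hv => ?_) (fun v _ => by simp) (fun v _ => by simp)
    · simp only [mem_filter, mem_range] at hv ⊢
      exact ⟨xor_lt hl' hv.1, by rw [hflip]; exact not_not.2 hv.2⟩
    · simp only [mem_filter, mem_range] at hv ⊢
      exact ⟨xor_lt hl' hv.1, by rw [hflip]; exact hv.2⟩
  have hs := card_filter_add_card_filter_not (s := range (ρ * 2 ^ (i + 1))) p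
  rw [card_range, ← hc, pow_succ, ← mul_assoc] at hs
  have h1 : ((range (ρ * 2 ^ (i + 1))).filter p).card = ρ * 2 ^ i := by
    rw [pow_succ, ← mul_assoc]; omega
  rw [prod_ite, prod_const, prod_const, ← hc, h1, mul_pow]

theorem two_W (k t : ℕ) (b : F) :
    2 * W k t b = (W k t 0 - W k t 1) * chi b + (W k t 0 + W k t 1) := by
  rcases F_cases b with rfl | rfl <;> simp <;> ring

theorem Z_gH (k i ρ t : ℕ) (a : ℕ → F) :
    2 ^ (i + 1) * Z k (gH (i + 1) (ρ * 2 ^ (i + 1)) t) a =
      (W k t 0 + W k t 1) ^ (i + 1) * ((W k t 0 + W k t 1) ^ (2 * (ρ * 2 ^ i)) -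
          ((W k t 0 + W k t 1) * (W k t 0 - W k t 1)) ^ (ρ * 2 ^ i)) +
        2 ^ (i + 1) * ((W k t 0 + W k t 1) * (W k t 0 - W k t 1)) ^ (ρ * 2 ^ i) *
          ∏ l ∈ range (i + 1), W k t (a l) := by
  set A := W k t 0 + W k t 1 with hA
  set B := W k t 0 - W k t 1 with hB
  set N := ρ * 2 ^ (i + 1) with hN
  have h1 : ∀ c : ℕ → F, 2 ^ (i + 1) * blkW k a c (gH (i + 1) N t).2 =
      ∑ u ∈ (range (i + 1)).powerset, ((∏ l ∈ u, B * chi (a l)) * ∏ _l ∈ range (i + 1) \ u, A) *
        ∏ v ∈ range N, W k t (c v) *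
          chi ((∑ l ∈ u, if v.testBit l then (1 : F) else 0) * c v) := by
    intro c
    simp only [gH, blkW_append, blkW_flatMap, blkW_replicate, evF, par_nil, par_cons, add_zero,
      zero_add, par_filter, par_range]
    have e : (2 : ℝ) ^ (i + 1) * ∏ l ∈ range (i + 1),
        wt k 0 (a l + ∑ v ∈ range N, if v.testBit l then c v else 0) ^ t =
        ∏ l ∈ range (i + 1), (B * chi (a l) * chi (∑ v ∈ range N, if v.testBit l then c v else 0)
          + A) := by
      rw [← card_range (i + 1), ← prod_const, card_range, ← prod_mul_distrib]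
      refine prod_congr rfl fun l _ => ?_
      rw [mul_assoc, ← chi_add]
      exact two_W k t _
    rw [mul_left_comm, e, prod_add, mul_sum]
    refine sum_congr rfl fun u _ => ?_
    rw [prod_mul_distrib (f := fun l => B * chi (a l)), prod_mul_distrib (s := range N),
      ← chi_sum u, ← chi_sum (range N), sum_comm]
    simp only [sum_mul, ite_mul, one_mul, zero_mul, W]
    ring
  rw [Z, ← sumK_mul_left]
  simp only [h1]
  rw [sumK_sum]
  simp only [sumK_mul_left]
  have h2 : ∀ u ∈ (range (i + 1)).powerset,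
      sumK (gH (i + 1) N t).1 (fun c => ∏ v ∈ range N, W k t (c v) *
          chi ((∑ l ∈ u, if v.testBit l then (1 : F) else 0) * c v)) =
        (A * B) ^ (ρ * 2 ^ i) + if u = ∅ then A ^ (2 * (ρ * 2 ^ i)) - (A * B) ^ (ρ * 2 ^ i)
          else 0 := by
    intro u hu
    refine (sumK_prod N (fun v b => W k t b *
      chi ((∑ l ∈ u, if v.testBit l then (1 : F) else 0) * b))).trans ?_
    by_cases h : u = ∅
    · subst h
      simp only [sum_empty, zero_mul, chi_zero, mul_one, prod_const, card_range, if_true]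
      rw [hN, ← hA, show ρ * 2 ^ (i + 1) = 2 * (ρ * 2 ^ i) by ring]
      ring
    · rw [if_neg h, add_zero, ← prod_half i ρ u (mem_powerset.1 hu) (nonempty_iff_ne_empty.2 h)]
      refine prod_congr rfl fun v _ => ?_
      generalize (∑ l ∈ u, if v.testBit l then (1 : F) else 0) = y
      rcases F_cases y with rfl | rfl <;> simp [hA, hB, sub_eq_add_neg]
  rw [sum_congr rfl fun u hu => by rw [h2 u hu]]
  simp only [mul_add, sum_add_distrib, mul_ite, mul_zero]
  rw [sum_ite_eq', if_pos (empty_mem_powerset _), ← sum_mul, ← prod_add]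
  have e2 : ∏ l ∈ range (i + 1), (B * chi (a l) + A) =
      2 ^ (i + 1) * ∏ l ∈ range (i + 1), W k t (a l) := by
    rw [← card_range (i + 1), ← prod_const, card_range, ← prod_mul_distrib]
    exact prod_congr rfl fun l _ => (two_W k t _).symm
  rw [e2]
  simp only [prod_empty, sdiff_empty, prod_const, card_range]
  ring

end Pool.Agent.MP_74c440_lc

end MrgPart2

-- ======== part 3: formerly Pool.Agent.MP_74c440_lc.Ev
section MrgPart3

/-!
Averages over random bit strings.
-/

set_option autoImplicit false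

namespace Pool.Agent.MP_74c440_lc

open Pool.Agent.PolyT

/-- The average of `f` over the strings of `n` bits. -/
noncomputable def ev : ℕ → (List Bool → ℝ) → ℝ
  | 0, f => f []
  | n + 1, f => (ev n (fun r => f (true :: r)) + ev n (fun r => f (false :: r))) / 2

open Classical in
/-- The indicator of a proposition. -/
noncomputable def ind (p : Prop) : ℝ := if p then 1 else 0

theorem ind_nonneg (p : Prop) : 0 ≤ ind p := by unfold ind; split_ifs <;> norm_num

theorem ind_le_one (p : Prop) : ind p ≤ 1 := by unfold ind; split_ifs <;> norm_num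

theorem ind_pos {p : Prop} (h : p) : ind p = 1 := by simp [ind, h]

theorem ind_neg {p : Prop} (h : ¬ p) : ind p = 0 := by simp [ind, h]

theorem ind_mono {p q : Prop} (h : p → q) : ind p ≤ ind q := by
  by_cases hp : p
  · rw [ind_pos hp, ind_pos (h hp)]
  · rw [ind_neg hp]; exact ind_nonneg _

theorem ind_congr {p q : Prop} (h : p ↔ q) : ind p = ind q := by rw [propext h]

theorem ind_not (p : Prop) : ind (¬ p) = 1 - ind p := by
  by_cases hp : p
  · rw [ind_pos hp, ind_neg (not_not.2 hp)]; norm_num
  · rw [ind_neg hp, ind_pos hp]; norm_num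

theorem ind_and (p q : Prop) : ind (p ∧ q) = ind p * ind q := by
  by_cases hp : p <;> by_cases hq : q <;> simp [ind, hp, hq]

theorem ev_eq_sum (n : ℕ) (f : List Bool → ℝ) :
    ev n f = (∑ r : Fin n → Bool, f (List.ofFn r)) / 2 ^ n := by
  induction n generalizing f with
  | zero => simp [ev]
  | succ n ih =>
    rw [ev, ih, ih, ← (Fin.consEquiv (fun _ : Fin (n + 1) => Bool)).sum_comp,
      Fintype.sum_prod_type, Fintype.sum_bool]
    simp only [Fin.consEquiv_apply, List.ofFn_succ, Fin.cons_zero, Fin.cons_succ]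
    field_simp
    ring

theorem prob_eq (n : ℕ) (E : List Bool → Prop) : prob n E = ev n (fun r => ind (E r)) := by
  rw [ev_eq_sum, prob, Finset.card_filter]
  push_cast
  simp only [ind]

theorem ev_mono {n : ℕ} {f g : List Bool → ℝ} (h : ∀ r, r.length = n → f r ≤ g r) :
    ev n f ≤ ev n g := by
  rw [ev_eq_sum, ev_eq_sum]
  gcongr with r
  exact h _ (by simp)

theorem ev_congr {n : ℕ} {f g : List Bool → ℝ} (h : ∀ r, r.length = n → f r = g r) :
    ev n f = ev n g :=
  le_antisymm (ev_mono fun r hr => (h r hr).le) (ev_mono fun r hr => (h r hr).ge)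

theorem ev_const (n : ℕ) (c : ℝ) : ev n (fun _ => c) = c := by
  rw [ev_eq_sum]; simp

theorem ev_add (n : ℕ) (f g : List Bool → ℝ) :
    ev n (fun r => f r + g r) = ev n f + ev n g := by
  simp only [ev_eq_sum, Finset.sum_add_distrib, add_div]

theorem ev_sub (n : ℕ) (f g : List Bool → ℝ) :
    ev n (fun r => f r - g r) = ev n f - ev n g := by
  simp only [ev_eq_sum, Finset.sum_sub_distrib, sub_div]

theorem ev_mul_left (n : ℕ) (c : ℝ) (f : List Bool → ℝ) :
    ev n (fun r => c * f r) = c * ev n f := by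
  simp only [ev_eq_sum, ← Finset.mul_sum, mul_div_assoc]

theorem ev_mul_right (n : ℕ) (c : ℝ) (f : List Bool → ℝ) :
    ev n (fun r => f r * c) = ev n f * c := by
  simp only [mul_comm _ c, ev_mul_left]

theorem ev_sum {ι : Type} (n : ℕ) (s : Finset ι) (f : ι → List Bool → ℝ) :
    ev n (fun r => ∑ i ∈ s, f i r) = ∑ i ∈ s, ev n (f i) := by
  simp only [ev_eq_sum]
  rw [Finset.sum_comm, Finset.sum_div]

theorem ev_nonneg {n : ℕ} {f : List Bool → ℝ} (h : ∀ r, 0 ≤ f r) : 0 ≤ ev n f := by
  rw [← ev_const n 0]; exact ev_mono fun r _ => h r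

theorem ev_le_const {n : ℕ} {f : List Bool → ℝ} {c : ℝ} (h : ∀ r, r.length = n → f r ≤ c) :
    ev n f ≤ c := by
  rw [← ev_const n c]; exact ev_mono h

theorem const_le_ev {n : ℕ} {f : List Bool → ℝ} {c : ℝ} (h : ∀ r, r.length = n → c ≤ f r) :
    c ≤ ev n f := by
  rw [← ev_const n c]; exact ev_mono h

theorem ev_append (a b : ℕ) (f : List Bool → ℝ) :
    ev (a + b) f = ev a (fun x => ev b (fun y => f (x ++ y))) := by
  induction a generalizing f with
  | zero => simp [ev]
  | succ a ih =>
    rw [Nat.succ_add, ev, ev, ih, ih]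
    rfl

theorem ev_split {a n : ℕ} (h : a ≤ n) (f : List Bool → List Bool → ℝ) :
    ev n (fun r => f (r.take a) (r.drop a)) = ev a (fun x => ev (n - a) (fun y => f x y)) := by
  obtain ⟨b, rfl⟩ := Nat.exists_eq_add_of_le h
  rw [ev_append, Nat.add_sub_cancel_left]
  refine ev_congr fun x hx => ev_congr fun y _ => ?_
  rw [List.take_left' hx, List.drop_left' hx]

theorem ev_take {a n : ℕ} (h : a ≤ n) (f : List Bool → ℝ) :
    ev n (fun r => f (r.take a)) = ev a f := by
  rw [ev_split h (fun x _ => f x)]
  simp only [ev_const]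

theorem ev_drop {a n : ℕ} (h : a ≤ n) (f : List Bool → ℝ) :
    ev n (fun r => f (r.drop a)) = ev (n - a) f := by
  rw [ev_split h (fun _ y => f y), ev_const]

theorem ev_comm (a b : ℕ) (f : List Bool → List Bool → ℝ) :
    ev a (fun x => ev b (fun y => f x y)) = ev b (fun y => ev a (fun x => f x y)) := by
  simp only [ev_eq_sum, Finset.sum_div]
  rw [Finset.sum_comm]
  refine Finset.sum_congr rfl fun _ _ => Finset.sum_congr rfl fun _ _ => ?_
  ring

theorem ev_ind_not (n : ℕ) (E : List Bool → Prop) :
    ev n (fun r => ind (¬ E r)) = 1 - ev n (fun r => ind (E r)) := by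
  simp only [ind_not, ev_sub, ev_const]

theorem ind_exists_le {ι : Type} (s : Finset ι) (p : ι → Prop) :
    ind (∃ i ∈ s, p i) ≤ ∑ i ∈ s, ind (p i) := by
  by_cases h : ∃ i ∈ s, p i
  · rw [ind_pos h]
    obtain ⟨i, hi, hp⟩ := h
    rw [← ind_pos hp]
    exact Finset.single_le_sum (f := fun i => ind (p i)) (fun _ _ => ind_nonneg _) hi
  · rw [ind_neg h]
    exact Finset.sum_nonneg fun _ _ => ind_nonneg _

/-- The union bound. -/
theorem ev_union {ι : Type} (n : ℕ) (s : Finset ι) (E : ι → List Bool → Prop) :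
    ev n (fun r => ind (∃ i ∈ s, E i r)) ≤ ∑ i ∈ s, ev n (fun r => ind (E i r)) := by
  rw [← ev_sum]
  exact ev_mono fun r _ => ind_exists_le s _

/-- The value of a random string of bits is uniformly distributed. -/
theorem ev_ofBits (n : ℕ) (f : ℕ → ℝ) :
    ev n (fun r => f (ofBits r)) = (∑ i ∈ Finset.range (2 ^ n), f i) / 2 ^ n := by
  induction n generalizing f with
  | zero => simp [ev]
  | succ n ih =>
    rw [ev]
    simp only [ofBits_cons, Bool.toNat_true, Bool.toNat_false, Nat.add_zero]
    rw [ih (fun i => f (2 * i + 1)), ih (fun i => f (2 * i))]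
    have : ∀ N : ℕ, ∑ i ∈ Finset.range (N * 2), f i =
        ∑ i ∈ Finset.range N, f (2 * i + 1) + ∑ i ∈ Finset.range N, f (2 * i) := by
      intro N
      induction N with
      | zero => simp
      | succ N ih =>
        rw [show (N + 1) * 2 = N * 2 + 1 + 1 by ring, Finset.sum_range_succ, Finset.sum_range_succ,
          ih, Finset.sum_range_succ, Finset.sum_range_succ, mul_comm N 2]
        ring
    rw [pow_succ, this]
    field_simp
    ring

theorem ev_ofBits_eq_le (n t : ℕ) : ev n (fun r => ind (ofBits r = t)) ≤ 1 / 2 ^ n := by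
  rw [ev_ofBits n (fun i => ind (i = t))]
  gcongr
  have : ∀ i : ℕ, ind (i = t) = if i = t then 1 else 0 := fun i => by
    unfold ind; split_ifs <;> rfl
  simp only [this]
  rw [Finset.sum_ite_eq']
  split_ifs <;> norm_num

/-- The `i`-th chunk of length `l`. -/
def chunk {β : Type} (l : ℕ) (r : List β) (i : ℕ) : List β := (r.drop (i * l)).take l

@[fun_prop] theorem p_chunk {α β : Type} [N487b59b3 α] [N487b59b3 β] {l i : α → ℕ}
    {r : α → List β} (hl : PolyT.Poly l) (hr : PolyT.Poly r) (hi : PolyT.Poly i) :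
    PolyT.Poly (fun a => chunk (l a) (r a) (i a)) := by
  unfold chunk; fun_prop

theorem chunk_zero {β : Type} (l : ℕ) (x y : List β) (hx : x.length = l) :
    chunk l (x ++ y) 0 = x := by
  simp [chunk, List.take_left' hx]

theorem chunk_succ {β : Type} (l : ℕ) (x y : List β) (hx : x.length = l) (i : ℕ) :
    chunk l (x ++ y) (i + 1) = chunk l y i := by
  unfold chunk
  rw [show (i + 1) * l = l + i * l by ring, ← List.drop_drop, List.drop_left' hx]

/-- Independence of the chunks. -/
theorem ev_prod_chunk (l s : ℕ) (f : ℕ → List Bool → ℝ) :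
    ev (s * l) (fun r => ∏ i ∈ Finset.range s, f i (chunk l r i)) =
      ∏ i ∈ Finset.range s, ev l (f i) := by
  induction s generalizing f with
  | zero => simp [ev]
  | succ s ih =>
    rw [show (s + 1) * l = l + s * l by ring, ev_append, Finset.prod_range_succ',
      ← ih (fun i => f (i + 1)), ← ev_mul_left]
    refine ev_congr fun x hx => ?_
    rw [← ev_mul_right]
    refine ev_congr fun y _ => ?_
    rw [Finset.prod_range_succ', chunk_zero l x y hx]
    simp only [chunk_succ l x y hx]

end Pool.Agent.MP_74c440_lc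

end MrgPart3

-- ======== part 4: formerly Pool.Agent.MP_74c440_lc.Burn
section MrgPart4

/-!
Burnside's lemma in the notation of the statement.
-/

set_option autoImplicit false

namespace Pool.Agent.MP_74c440_lc

open Finset

/-- The number of words fixed by a permutation. -/
def fixN (k : ℕ) {ι : Type} [Fintype ι] [DecidableEq ι] (g : ι → ι) : ℕ :=
  (univ.filter fun α : ι → Fin k => α ∘ g = α).card

theorem ncard_ups (k : ℕ) {m : ℕ} (G : Subgroup (Equiv.Perm (Fin m)))
    (P : Equiv.Perm (Fin m) → Prop) :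
    (Set.ncard {x ∈ Ups k G | P x.2} : ℝ) =
      ∑ g : Equiv.Perm (Fin m), ind (g ∈ G) * (ind (P g) * fixN k g) := by
  classical
  have h : {x ∈ Ups k G | P x.2} = ↑(univ.filter fun x : (Fin m → Fin k) × Equiv.Perm (Fin m) =>
      (x.2 ∈ G ∧ x.1 ∘ x.2 = x.1) ∧ P x.2) := by
    ext x; simp [Ups]
  rw [h, Set.ncard_coe_finset, card_filter]
  push_cast
  rw [Fintype.sum_prod_type_right]
  refine sum_congr rfl fun g _ => ?_
  rw [fixN, card_filter]
  push_cast
  rw [mul_sum, mul_sum]
  refine sum_congr rfl fun α _ => ?_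
  by_cases h1 : g ∈ G <;> by_cases h2 : P g <;> simp [ind, h1, h2]

theorem burnside (k : ℕ) {m : ℕ} (G : Subgroup (Equiv.Perm (Fin m))) :
    (orbitCount k G : ℝ) * ∑ g : Equiv.Perm (Fin m), ind (g ∈ G) =
      ∑ g : Equiv.Perm (Fin m), ind (g ∈ G) * fixN k g := by
  classical
  let : MulAction G (Fin m → Fin k) := arrowAction
  have hs : ∀ (g : G) (α : Fin m → Fin k), g • α = α ∘ ((g⁻¹ : G) : Equiv.Perm (Fin m)) :=
    fun _ _ => rfl
  have h := MulAction.sum_card_fixedBy_eq_card_orbits_mul_card_group G (Fin m → Fin k)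
  have h1 : orbitCount k G = Fintype.card (MulAction.orbitRel.Quotient G (Fin m → Fin k)) := by
    have e : (Set.range fun α : Fin m → Fin k => {β : Fin m → Fin k | ∃ g ∈ G, β = α ∘ g}) =
        Set.range (MulAction.orbitRel.Quotient.orbit (G := G) (α := Fin m → Fin k)) := by
      have e2 : ∀ α : Fin m → Fin k, {β : Fin m → Fin k | ∃ g ∈ G, β = α ∘ g} =
          MulAction.orbit G α := by
        intro α
        ext β
        constructor
        · rintro ⟨g, hg, rfl⟩
          exact ⟨(⟨g, hg⟩ : G)⁻¹, by simp only [hs, inv_inv]⟩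
        · rintro ⟨g, rfl⟩
          exact ⟨_, (g⁻¹).2, hs g α⟩
      ext O
      simp only [Set.mem_range, e2]
      constructor
      · rintro ⟨α, rfl⟩
        exact ⟨Quotient.mk'' α, rfl⟩
      · rintro ⟨q, rfl⟩
        induction q using Quotient.inductionOn' with
        | h α => exact ⟨α, rfl⟩
    rw [orbitCount, e, Set.ncard_range_of_injective MulAction.orbitRel.Quotient.orbit_injective,
      Nat.card_eq_fintype_card]
  have h2 : ∀ f : Equiv.Perm (Fin m) → ℝ,
      ∑ g : Equiv.Perm (Fin m), ind (g ∈ G) * f g = ∑ g : G, f g := by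
    intro f
    rw [← Finset.sum_subtype (univ.filter (· ∈ G)) (p := (· ∈ G)) (by simp) f, sum_filter]
    refine sum_congr rfl fun g _ => ?_
    by_cases hg : g ∈ G <;> simp [ind, hg]
  have h3 := h2 (fun _ => 1)
  simp only [mul_one] at h3
  rw [h3, h2, h1]
  simp only [sum_const, card_univ, nsmul_eq_mul, mul_one]
  rw [← Nat.cast_mul, ← h, ← Equiv.sum_comp (Equiv.inv G)]
  push_cast
  refine sum_congr rfl fun g _ => ?_
  congr 1
  rw [fixN, ← Fintype.card_subtype]
  refine Fintype.card_congr (Equiv.subtypeEquivRight fun α => ?_)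
  rw [MulAction.mem_fixedBy, hs]
  simp

end Pool.Agent.MP_74c440_lc

end MrgPart4

-- ======== part 5: formerly Pool.Agent.MP_74c440_lc.Grp
section MrgPart5

/-!
The permutation group of a gadget: a subdirect product of dihedral groups of order eight.
-/

set_option autoImplicit false

namespace Pool.Agent.MP_74c440_lc

open Pool.Agent.PolyT Pool.Agent.H82 Finset

/-- The dihedral group of order eight in Heisenberg coordinates. -/
def Hs : Type := F × F × F

instance : DecidableEq Hs := inferInstanceAs (DecidableEq (F × F × F))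

instance : Fintype Hs := inferInstanceAs (Fintype (F × F × F))

/-- The element with given coordinates. -/
def Hs.mk (x y z : F) : Hs := (x, y, z)
/-- First coordinate. -/
def Hs.x (h : Hs) : F := Prod.fst h
/-- Second coordinate. -/
def Hs.y (h : Hs) : F := (Prod.snd h).1
/-- Third coordinate. -/
def Hs.z (h : Hs) : F := (Prod.snd h).2

instance : Mul Hs := ⟨fun a b => Hs.mk (a.x + b.x) (a.y + b.y) (a.z + b.z + a.x * b.y)⟩
instance : One Hs := ⟨Hs.mk 0 0 0⟩
instance : Inv Hs := ⟨fun a => Hs.mk a.x a.y (a.z + a.x * a.y)⟩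

instance : Group Hs := Group.ofLeftAxioms (by decide) (by decide) (by decide)

@[simp] theorem Hs.mk_x (x y z : F) : (Hs.mk x y z).x = x := rfl
@[simp] theorem Hs.mk_y (x y z : F) : (Hs.mk x y z).y = y := rfl
@[simp] theorem Hs.mk_z (x y z : F) : (Hs.mk x y z).z = z := rfl
@[simp] theorem Hs.mul_x (a b : Hs) : (a * b).x = a.x + b.x := rfl
@[simp] theorem Hs.mul_y (a b : Hs) : (a * b).y = a.y + b.y := rfl
@[simp] theorem Hs.inv_x (a : Hs) : a⁻¹.x = a.x := rfl
@[simp] theorem Hs.inv_y (a : Hs) : a⁻¹.y = a.y := rfl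
@[simp] theorem Hs.one_x : (1 : Hs).x = 0 := rfl
@[simp] theorem Hs.one_y : (1 : Hs).y = 0 := rfl
theorem Hs.eta (h : Hs) : Hs.mk h.x h.y h.z = h := rfl

/-- The bit of a field element. -/
def bt (x : F) : Bool := decide (x = 1)

/-- The values of the local permutation on `0, 1, 2, 3`. -/
def loc (x y z : Bool) : List ℕ :=
  [2 * y.toNat + z.toNat, 2 * y.toNat + (!z).toNat, 2 * (!y).toNat + (xor z x).toNat,
    2 * (!y).toNat + (!xor z x).toNat]

/-- The action on four points. -/
def actF (h : Hs) (i : Fin 4) : Fin 4 :=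
  Fin.ofNat 4 ((loc (bt h.x) (bt h.y) (bt h.z)).getD i 0)

theorem actF_mul : ∀ (a b : Hs) (i : Fin 4), actF (a * b) i = actF a (actF b i) := by decide

theorem actF_one : ∀ i : Fin 4, actF 1 i = i := by decide

/-- The action on four points. -/
def act (h : Hs) : Equiv.Perm (Fin 4) where
  toFun := actF h
  invFun := actF h⁻¹
  left_inv i := by rw [← actF_mul, inv_mul_cancel, actF_one]
  right_inv i := by rw [← actF_mul, mul_inv_cancel, actF_one]

theorem ofFn_act : ∀ h : Hs,
    (List.ofFn fun i => (act h i : ℕ)) = loc (bt h.x) (bt h.y) (bt h.z) := by decide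

theorem act_inj : ∀ a b : Hs, (∀ i, act a i = act b i) → a = b := by decide

theorem fixN_of_retract (k : ℕ) {j : ℕ} (π : Fin 4 → Fin 4) (r : Fin 4 → Fin j)
    (s : Fin j → Fin 4) (h1 : ∀ i, r (π i) = r i) (h2 : ∀ i, r (s i) = i)
    (h3 : ∀ i, s (r i) = i ∨ s (r i) = π i ∨ s (r i) = π (π i) ∨ s (r i) = π (π (π i))) :
    fixN k π = k ^ j := by
  rw [fixN, ← Fintype.card_subtype]
  have e : {α : Fin 4 → Fin k // α ∘ π = α} ≃ (Fin j → Fin k) :=
    { toFun := fun α => α.1 ∘ s
      invFun := fun γ => ⟨γ ∘ r, by funext i; simp [h1]⟩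
      left_inv := fun α => by
        have h : ∀ i, α.1 (π i) = α.1 i := fun i => congrFun α.2 i
        ext i
        rcases h3 i with h4 | h4 | h4 | h4 <;> simp [h4, h]
      right_inv := fun γ => by funext i; simp [h2] }
  rw [Fintype.card_congr e]
  simp

theorem fix_sum (k : ℕ) (x y : F) :
    (fixN k (act (Hs.mk x y 0)) : ℝ) + fixN k (act (Hs.mk x y 1)) = wt k x y := by
  have a1 := fixN_of_retract k (act (Hs.mk 0 0 0)) id id (by decide) (by decide) (by decide)
  have a2 := fixN_of_retract k (act (Hs.mk 0 0 1)) ![0, 0, 1, 1] ![0, 2]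
    (by decide) (by decide) (by decide)
  have a3 := fixN_of_retract k (act (Hs.mk 1 0 0)) ![0, 1, 2, 2] ![0, 1, 2]
    (by decide) (by decide) (by decide)
  have a4 := fixN_of_retract k (act (Hs.mk 1 0 1)) ![0, 0, 1, 2] ![0, 2, 3]
    (by decide) (by decide) (by decide)
  have a5 := fixN_of_retract k (act (Hs.mk 0 1 0)) ![0, 1, 0, 1] ![0, 1]
    (by decide) (by decide) (by decide)
  have a6 := fixN_of_retract k (act (Hs.mk 0 1 1)) ![0, 1, 1, 0] ![0, 1]
    (by decide) (by decide) (by decide)
  have a7 := fixN_of_retract k (act (Hs.mk 1 1 0)) ![0, 0, 0, 0] ![0]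
    (by decide) (by decide) (by decide)
  have a8 := fixN_of_retract k (act (Hs.mk 1 1 1)) ![0, 0, 0, 0] ![0]
    (by decide) (by decide) (by decide)
  rcases F_cases x with rfl | rfl <;> rcases F_cases y with rfl | rfl
  · rw [a1, a2]; simp [f00]
  · rw [a5, a6]; simp [f01]; ring
  · rw [a3, a4]; simp [f10]; ring
  · rw [a7, a8]; simp [f11]; ring

/-- The action of a product on `B` blocks of four points. -/
def rho (B : ℕ) : (Fin B → Hs) →* Equiv.Perm (Fin (B * 4)) where
  toFun h := finProdFinEquiv.permCongr (Equiv.prodCongrRight fun b => act (h b))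
  map_one' := by
    ext i
    obtain ⟨⟨b, r⟩, rfl⟩ := finProdFinEquiv.surjective i
    simp [act, actF_one]
  map_mul' h h' := by
    ext i
    obtain ⟨⟨b, r⟩, rfl⟩ := finProdFinEquiv.surjective i
    simp [act, actF_mul]

theorem rho_apply {B : ℕ} (h : Fin B → Hs) (b : Fin B) (r : Fin 4) :
    rho B h (finProdFinEquiv (b, r)) = finProdFinEquiv (b, act (h b) r) := by
  simp [rho]

theorem rho_inj (B : ℕ) : Function.Injective (rho B) := by
  intro h h' e
  funext b
  refine act_inj _ _ fun r => ?_
  have := rho_apply h b r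
  rw [e, rho_apply] at this
  exact (Prod.mk.inj (finProdFinEquiv.injective this)).2.symm

theorem fixN_rho (k : ℕ) {B : ℕ} (h : Fin B → Hs) :
    fixN k (rho B h) = ∏ b, fixN k (act (h b)) := by
  simp only [fixN, ← Fintype.card_subtype]
  rw [← Fintype.card_pi, ← Fintype.card_congr Equiv.subtypePiEquivPi]
  refine Fintype.card_congr (Equiv.subtypeEquiv
    ((finProdFinEquiv.symm.arrowCongr (Equiv.refl _)).trans (Equiv.curry _ _ _)) fun α => ?_)
  constructor
  · intro hα b
    funext r
    have := congrFun hα (finProdFinEquiv (b, r))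
    simpa [rho_apply] using this
  · intro hα
    funext i
    obtain ⟨⟨b, r⟩, rfl⟩ := finProdFinEquiv.surjective i
    have := congrFun (hα b) r
    simpa [rho_apply] using this

/-- The list of values of the permutation with local data `x, y, z`. -/
def permOf (B : ℕ) (x y z : ℕ → Bool) : List ℕ :=
  (List.range B).flatMap fun b => (loc (x b) (y b) (z b)).map fun r => b * 4 + r

theorem valList_rho {B : ℕ} (h : Fin B → Hs) (x y z : ℕ → Bool)
    (hx : ∀ b : Fin B, x b = bt (h b).x) (hy : ∀ b : Fin B, y b = bt (h b).y)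
    (hz : ∀ b : Fin B, z b = bt (h b).z) : valList (rho B h) = permOf B x y z := by
  rw [valList, List.ofFn_mul, permOf, List.flatMap_def]
  congr 1
  apply List.ext_getElem (by simp)
  intro b h1 h2
  have hb : b < B := by simpa using h1
  simp only [List.getElem_ofFn, List.getElem_map, List.getElem_range]
  rw [hx ⟨b, hb⟩, hy ⟨b, hb⟩, hz ⟨b, hb⟩, ← ofFn_act, List.map_ofFn]
  congr 1
  funext r
  have := congrArg Fin.val (rho_apply h ⟨b, hb⟩ r)
  simp only [finProdFinEquiv_apply_val] at this
  simp only [Function.comp]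
  rw [show b * 4 + (act (h ⟨b, hb⟩) r : ℕ) = act (h ⟨b, hb⟩) r + 4 * b by ring, ← this]
  congr 2
  ext
  simp only [finProdFinEquiv_apply_val]
  ring

/-- Reading the first coordinate at block `b`. -/
def xbit (l : List ℕ) (b : ℕ) : Bool := (l.getD (b * 4) 0 + l.getD (b * 4 + 2) 0).bodd

/-- Reading the second coordinate at block `b`. -/
def ybit (l : List ℕ) (b : ℕ) : Bool := ltB (b * 4 + 1) (l.getD (b * 4) 0)

theorem getD_valList_rho {B : ℕ} (h : Fin B → Hs) (b : Fin B) (r : Fin 4) :
    (valList (rho B h)).getD (b * 4 + r) 0 = b * 4 + act (h b) r := by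
  have h1 : (b : ℕ) * 4 + r < B * 4 := by have := b.2; have := r.2; omega
  rw [valList, List.getD_eq_getElem _ _ (by simpa using h1), List.getElem_ofFn]
  have := congrArg Fin.val (rho_apply h b r)
  simp only [finProdFinEquiv_apply_val] at this
  rw [show (b : ℕ) * 4 + (act (h b) r : ℕ) = act (h b) r + 4 * b by ring, ← this]
  congr 2
  ext
  simp only [finProdFinEquiv_apply_val]
  ring

theorem xbit_rho {B : ℕ} (h : Fin B → Hs) (b : Fin B) :
    xbit (valList (rho B h)) b = bt (h b).x := by
  have h0 := getD_valList_rho h b 0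
  have h2 := getD_valList_rho h b 2
  have key : ∀ η : Hs, ((act η 0 : ℕ) + act η 2).bodd = bt η.x := by decide
  unfold xbit
  simp only [Fin.val_zero, Nat.add_zero] at h0
  rw [h0, show (b : ℕ) * 4 + 2 = b * 4 + (2 : Fin 4) from rfl, h2, ← key]
  rw [show (b : ℕ) * 4 + act (h b) 0 + (b * 4 + act (h b) 2) =
    2 * (b * 4) + (act (h b) 0 + act (h b) 2) by ring]
  simp

theorem ybit_rho {B : ℕ} (h : Fin B → Hs) (b : Fin B) :
    ybit (valList (rho B h)) b = bt (h b).y := by
  have h0 := getD_valList_rho h b 0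
  have key : ∀ η : Hs, ltB 1 (act η 0 : ℕ) = bt η.y := by decide
  unfold ybit
  simp only [Fin.val_zero, Nat.add_zero] at h0
  rw [h0, ← key]
  simp [ltB]

end Pool.Agent.MP_74c440_lc

end MrgPart5

-- marker of a merged file
example : 731051 + 64662 = 731051 + 64662 := rfl
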