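import Pool.Agent.MP_74c440_lc.Gen4

-- ======== part 0: formerly Pool.Agent.MP_74c440_lc.Slp
section MrgPart0

/-!
Short straight-line programs certify membership in a finite group.
-/

set_option autoImplicit false

namespace Pool.Agent.MP_74c440_lc

open Pool.Agent.PolyT Pool.Agent.H82 Finset N487b59b3

section group

variable {Γ : Type} [Group Γ] [DecidableEq Γ]

/-- Straight-line programs, the last element first. -/
def Slp (s : Set Γ) : List Γ → Prop
  | [] => True
  | c :: L => (c ∈ s ∨ c = 1 ∨ ∃ a ∈ L, ∃ b ∈ L, a * b = c ∨ a * c = b) ∧ Slp s L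

/-- The subproducts. -/
def cube : List Γ → Finset Γ
  | [] => {1}
  | z :: zs => cube zs ∪ (cube zs).image (· * z)

theorem one_mem_cube (zs : List Γ) : 1 ∈ cube zs := by
  induction zs with
  | nil => simp [cube]
  | cons z zs ih => exact mem_union_left _ ih

theorem ext_cube {s : Set Γ} {L zs : List Γ} (h : Slp s L) (hz : ∀ z ∈ zs, z ∈ L) {a : Γ}
    (ha : a ∈ cube zs) :
    ∃ L', Slp s L' ∧ (∀ x ∈ L, x ∈ L') ∧ L'.length ≤ L.length + zs.length + 1 ∧ a ∈ L' := by
  induction zs generalizing a with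
  | nil =>
    exact ⟨a :: L, ⟨Or.inr (Or.inl (by simpa [cube] using ha)), h⟩,
      fun x hx => List.mem_cons_of_mem _ hx, by simp, List.mem_cons_self⟩
  | cons z zs ih =>
    have hz' : ∀ z ∈ zs, z ∈ L := fun x hx => hz x (List.mem_cons_of_mem _ hx)
    rcases mem_union.1 ha with ha | ha
    · obtain ⟨L', h1, h2, h3, h4⟩ := ih hz' ha
      exact ⟨L', h1, h2, by rw [List.length_cons]; omega, h4⟩
    · obtain ⟨b, hb, rfl⟩ := mem_image.1 ha
      obtain ⟨L', h1, h2, h3, h4⟩ := ih hz' hb
      exact ⟨b * z :: L', ⟨Or.inr (Or.inr ⟨b, h4, z, h2 z (hz z List.mem_cons_self), Or.inl rfl⟩),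
        h1⟩, fun x hx => List.mem_cons_of_mem _ (h2 x hx), by simp only [List.length_cons]; omega,
        List.mem_cons_self⟩

theorem ext_div {s : Set Γ} {L zs : List Γ} (h : Slp s L) (hz : ∀ z ∈ zs, z ∈ L) {u : Γ}
    (hu : ∃ a ∈ cube zs, ∃ b ∈ cube zs, a * u = b) :
    ∃ L', Slp s (u :: L') ∧ (∀ x ∈ L, x ∈ L') ∧ L'.length ≤ L.length + 2 * zs.length + 2 := by
  obtain ⟨a, ha, b, hb, e⟩ := hu
  obtain ⟨L1, a1, a2, a3, a4⟩ := ext_cube h hz ha
  obtain ⟨L2, b1, b2, b3, b4⟩ := ext_cube a1 (fun z h => a2 z (hz z h)) hb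
  exact ⟨L2, ⟨Or.inr (Or.inr ⟨a, b2 a a4, b, b4, Or.inr e⟩), b1⟩, fun x h => b2 x (a2 x h),
    by omega⟩

theorem grow [Finite Γ] (s : Set Γ) (i : ℕ) : ∃ zs L : List Γ, Slp s L ∧ (∀ z ∈ zs, z ∈ L) ∧
    zs.length ≤ i ∧ L.length ≤ i * (2 * i + 5) ∧ (2 ^ i ≤ (cube zs).card ∨
      ∀ g ∈ Subgroup.closure s, ∃ a ∈ cube zs, ∃ b ∈ cube zs, a * g = b) := by
  induction i with
  | zero => exact ⟨[], [], trivial, by simp, le_rfl, le_rfl, Or.inl (by simp [cube])⟩
  | succ i ih =>
    obtain ⟨zs, L, h1, h2, h3, h4, h5⟩ := ih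
    by_cases hf : ∀ g ∈ Subgroup.closure s, ∃ a ∈ cube zs, ∃ b ∈ cube zs, a * g = b
    · exact ⟨zs, L, h1, h2, by omega, by nlinarith, Or.inr hf⟩
    have h6 := h5.resolve_right hf
    have h7 : ∃ u, (∃ a ∈ cube zs, ∃ b ∈ cube zs, a * u = b) ∧
        ∃ t ∈ s, ¬ ∃ a ∈ cube zs, ∃ b ∈ cube zs, a * (u * t) = b := by
      by_contra hn
      refine hf fun g hg => ?_
      have hg' : g ∈ Submonoid.closure s := by
        rw [← Subgroup.closure_toSubmonoid_of_finite]; exact hg
      induction hg' using Submonoid.closure_induction_right with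
      | one => exact ⟨1, one_mem_cube _, 1, one_mem_cube _, mul_one _⟩
      | mul_right x hx y hy ih =>
        by_contra h
        refine hn ⟨x, ih ?_, y, hy, h⟩
        rw [← Subgroup.closure_toSubmonoid_of_finite] at hx; exact hx
    obtain ⟨u, hu, t, ht, hn⟩ := h7
    obtain ⟨L', a1, a2, a3⟩ := ext_div h1 h2 hu
    refine ⟨u * t :: zs, u * t :: t :: u :: L', ⟨Or.inr (Or.inr ⟨u, by simp, t, by simp,
      Or.inl rfl⟩), Or.inl ht, a1⟩, fun z hz => ?_, by simpa using h3, ?_, Or.inl ?_⟩
    · rcases List.mem_cons.1 hz with rfl | hz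
      · exact List.mem_cons_self
      · simp [a2 z (h2 z hz)]
    · simp only [List.length_cons]; nlinarith
    · rw [cube, card_union_of_disjoint, card_image_of_injective _ (mul_left_injective _), pow_succ]
      · omega
      · rw [disjoint_right]
        intro x hx hx'
        obtain ⟨a, ha, rfl⟩ := mem_image.1 hx
        exact hn ⟨a, ha, _, hx', rfl⟩

theorem reach [Fintype Γ] (s : Set Γ) {N : ℕ} (hN : Fintype.card Γ < 2 ^ N) {g : Γ}
    (hg : g ∈ Subgroup.closure s) :
    ∃ L, Slp s (g :: L) ∧ L.length ≤ N * (2 * N + 5) + 2 * N + 2 := by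
  obtain ⟨zs, L, h1, h2, h3, h4, h5⟩ := grow s N
  have h6 := h5.resolve_left (by have := card_le_univ (cube zs); omega)
  obtain ⟨L', a1, -, a3⟩ := ext_div h1 h2 (h6 g hg)
  exact ⟨L', a1, by omega⟩

end group

/-- Composition of lists of values. -/
def cmpL (d : ℕ) (a b : List ℕ) : List ℕ := b.map fun i => a.getD i d

theorem length_valList {m n : ℕ} (f : Fin m → Fin n) : (valList f).length = m := by simp [valList]

theorem cmpL_val {m n j : ℕ} (d : ℕ) (f : Fin m → Fin n) (g : Fin j → Fin m) :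
    cmpL d (valList f) (valList g) = valList (f ∘ g) := by
  simp only [cmpL, valList, List.map_ofFn]
  congr 1
  funext i
  simp

theorem valList_inj {m n : ℕ} {f g : Fin m → Fin n} (h : valList f = valList g) : f = g :=
  funext fun i => Fin.ext (congrFun (List.ofFn_injective h) i)

theorem exists_val {m n : ℕ} {a : List ℕ} (h1 : a.length = m) (h2 : ∀ x ∈ a, x < n) :
    ∃ f : Fin m → Fin n, a = valList f := by
  subst h1
  exact ⟨fun i => ⟨a[i], h2 _ (List.getElem_mem _)⟩, by simp [valList]⟩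

theorem valList_one (m : ℕ) : valList (1 : Equiv.Perm (Fin m)) = List.range m := by
  apply List.ext_getElem <;> simp [valList]

theorem cmpL_div {m : ℕ} (a b : Equiv.Perm (Fin m)) {c : List ℕ}
    (h : cmpL m (valList a) c = valList b) : c = valList (a⁻¹ * b : Equiv.Perm (Fin m)) := by
  obtain ⟨f, rfl⟩ := exists_val (m := m) (n := m) (a := c)
    (by simpa [cmpL, valList] using congrArg List.length h) (fun x hx => by
      have h1 : (valList a).getD x m ∈ valList b := h ▸ List.mem_map_of_mem hx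
      by_contra hn
      rw [List.getD_eq_default _ _ (by rw [length_valList]; omega)] at h1
      simp only [valList, List.mem_ofFn] at h1
      obtain ⟨i, hi⟩ := h1
      omega)
  rw [cmpL_val] at h
  congr 1
  funext i
  simp [← congrFun (valList_inj h) i]

/-- One line of a program. -/
def okL (m : ℕ) (gens L : List (List ℕ)) (c : List ℕ) : Bool :=
  (gens.any fun a => eqB c a) || (eqB c (List.range m) ||
    L.any fun a => L.any fun b => eqB (cmpL m a b) c || eqB (cmpL m a c) b)

/-- The test of a program. -/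
def slpB (m : ℕ) (gens L : List (List ℕ)) : Bool :=
  (List.range L.length).all fun j => okL m gens (L.drop (j + 1)) (L.getD j [])

theorem slpB_cons (m : ℕ) (gens L : List (List ℕ)) (c : List ℕ) :
    slpB m gens (c :: L) = (okL m gens L c && slpB m gens L) := by
  simp [slpB, List.range_succ_eq_map, Function.comp_def]

theorem slpB_sound {m : ℕ} (gens : List (Equiv.Perm (Fin m))) {L : List (List ℕ)}
    (h : slpB m (gens.map fun g : Equiv.Perm (Fin m) => valList g) L = true) :
    ∀ c ∈ L, ∃ g ∈ gen gens, c = valList g := by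
  induction L with
  | nil => simp
  | cons c L ih =>
    rw [slpB_cons, Bool.and_eq_true] at h
    have ih' := ih h.2
    refine List.forall_mem_cons.2 ⟨?_, ih'⟩
    have h1 := h.1
    simp only [okL, Bool.or_eq_true, List.any_eq_true, eqB, decide_eq_true_eq, List.mem_map] at h1
    rcases h1 with ⟨_, ⟨g, hg, rfl⟩, e⟩ | e | ⟨a, ha, b, hb, e⟩
    · exact ⟨g, Subgroup.subset_closure hg, e⟩
    · exact ⟨1, one_mem _, by rw [e, valList_one]⟩
    · obtain ⟨a, a1, rfl⟩ := ih' a ha
      obtain ⟨b, b1, rfl⟩ := ih' b hb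
      rcases e with e | e
      · exact ⟨a * b, mul_mem a1 b1, by rw [← e, cmpL_val]; rfl⟩
      · exact ⟨a⁻¹ * b, mul_mem (inv_mem a1) b1, cmpL_div a b e⟩

theorem slpB_complete {m : ℕ} (gens : List (Equiv.Perm (Fin m))) {L : List (Equiv.Perm (Fin m))}
    (h : Slp {g | g ∈ gens} L) : slpB m (gens.map fun g : Equiv.Perm (Fin m) => valList g)
      (L.map fun g : Equiv.Perm (Fin m) => valList g) = true := by
  induction L with
  | nil => rfl
  | cons c L ih =>
    rw [List.map_cons, slpB_cons, ih h.2, Bool.and_true]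
    simp only [okL, Bool.or_eq_true, List.any_eq_true, eqB, decide_eq_true_eq, List.mem_map]
    rcases h.1 with e | rfl | ⟨a, ha, b, hb, e⟩
    · exact Or.inl ⟨_, ⟨c, e, rfl⟩, rfl⟩
    · exact Or.inr (Or.inl (valList_one m))
    · refine Or.inr (Or.inr ⟨_, ⟨a, ha, rfl⟩, _, ⟨b, hb, rfl⟩, ?_⟩)
      rcases e with rfl | rfl
      · exact Or.inl (cmpL_val _ _ _)
      · exact Or.inr (cmpL_val _ _ _)

theorem p_slpB {α : Type} [N487b59b3 α] {m : α → ℕ} {gens L : α → List (List ℕ)} (hm : Un m)
    (hg : PolyT.Poly gens) (hL : PolyT.Poly L) :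
    PolyT.Poly fun a => slpB (m a) (gens a) (L a) := by
  have h1 := hm.1
  have h2 := p_range hm
  unfold slpB okL cmpL
  refine p_all (p_or (by fun_prop) (p_or (p_eqB (by fun_prop) (h2.comp (p_fst p_id)))
    (by fun_prop))) (by fun_prop)

theorem enc_valList {m n : ℕ} (f : Fin m → Fin n) :
    (bitEncode (valList f)).length ≤ m * (2 * n + 1) := by
  rw [enc_list, List.length_flatMap]
  refine (PolyT.Poly.sum_map_le _ _ (2 * n + 1) fun x hx => ?_).trans (by rw [length_valList])
  simp only [valList, List.mem_ofFn] at hx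
  obtain ⟨i, rfl⟩ := hx
  have := length_enc_nat_le_self (f i : ℕ)
  have := (f i).2
  rw [length_delimit]
  omega

end Pool.Agent.MP_74c440_lc

end MrgPart0

-- ======== part 1: formerly Pool.Agent.MP_74c440_lc.Conv
section MrgPart1

/-!
If NP is contained in BPP then there is a sampler for all permutation groups.
-/

set_option autoImplicit false

namespace Pool.Agent.MP_74c440_lc

open Pool.Agent.PolyT Pool.Agent.H82 Finset N487b59b3

/-- The number that codes a pair of lists. -/
def code (p : List ℕ × List ℕ) : ℕ := ofBits (delimit (bitEncode p) ++ [true])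

/-- Decoding. -/
def dcd (y : ℕ) : List ℕ × List ℕ := PD.dec (sel true y.bits)

theorem bits_ofBits (l : List Bool) : (ofBits (l ++ [true])).bits = l ++ [true] := by
  induction l with
  | nil => simp [ofBits]
  | cons b l ih =>
    rw [List.cons_append, ofBits_cons, ← Nat.bit_val, Nat.bits_append_bit, ih]
    intro h
    rw [h] at ih
    simp at ih

theorem dcd_code (p : List ℕ × List ℕ) : dcd (code p) = p := by
  rw [dcd, code, bits_ofBits, sel_pair, if_pos rfl, PD.dec_enc]

/-- The verifier for the pairs. -/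
def upV (k : ℕ) (q : Input × ℕ × List Bool) : Bool :=
  eqB q.2.1 (code (dcd q.2.1)) && ((eqB (dcd q.2.1).1.length q.1.1.1.length &&
    ((dcd q.2.1).1.all fun a => ltB a k)) &&
      (eqB (cmpL 0 (dcd q.2.1).1 (dcd q.2.1).2) (dcd q.2.1).1 &&
        slpB q.1.1.1.length q.1.1.2 ((dcd q.2.1).2 :: PD.dec q.2.2)))

/-- Length of the codes. -/
def upL (k m : ℕ) : ℕ := 2 * (2 * (m * (2 * k + 1)) + 1 + m * (2 * m + 1)) + 2

/-- Length of the certificates. -/
def upB (m : ℕ) : ℕ :=
  ((m * m + 1) * (2 * (m * m + 1) + 5) + 2 * (m * m + 1) + 2) * (2 * (m * (2 * m + 1)) + 1)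

theorem p_upV (k : ℕ) : PolyT.Poly (upV k) := by
  have h : PolyT.Poly fun q : Input × ℕ × List Bool => dcd q.2.1 := by unfold dcd; fun_prop
  unfold upV code cmpL
  exact p_and (by fun_prop) (p_and (by fun_prop) (p_and (by fun_prop)
    (p_slpB (by fun_prop) (by fun_prop) (by fun_prop))))

theorem mem_wit {k m : ℕ} (gens : List (Equiv.Perm (Fin m))) (e y : ℕ) :
    y ∈ wit (fun x : Input => upL k x.1.1.length) (fun x => upB x.1.1.length) (upV k)
      (input gens e) ↔ ∃ x ∈ Ups k (gen gens), code (valList x.1, valList x.2) = y := by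
  simp only [wit, mem_filter, mem_range, upV, input, List.length_replicate, Bool.and_eq_true, eqB,
    ltB, decide_eq_true_eq, List.all_eq_true]
  constructor
  · rintro ⟨-, w, -, h1, ⟨h2, h3⟩, h4, h5⟩
    obtain ⟨a, ha⟩ := exists_val h2 h3
    obtain ⟨g, hg, e⟩ := slpB_sound gens h5 _ List.mem_cons_self
    rw [ha, e, cmpL_val] at h4
    exact ⟨(a, g), ⟨hg, valList_inj h4⟩, by rw [h1, ← ha, ← e]⟩
  · rintro ⟨⟨a, g⟩, ⟨hg, ha⟩, rfl⟩
    obtain ⟨L, h1, h2⟩ := reach {g | g ∈ gens} (N := m * m + 1) (by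
      rw [Fintype.card_perm, Fintype.card_fin]
      calc _ ≤ m ^ m := Nat.factorial_le_pow m
        _ ≤ (2 ^ m) ^ m := Nat.pow_le_pow_left Nat.lt_two_pow_self.le m
        _ < _ := by rw [← pow_mul]; exact Nat.pow_lt_pow_right (by norm_num) (by omega)) hg
    refine ⟨(ofBits_lt _).trans_le (Nat.pow_le_pow_right (by norm_num) ?_),
      bitEncode (L.map fun g : Equiv.Perm (Fin m) => valList g), ?_, ?_⟩
    · have a1 := enc_valList a
      have a2 := enc_valList g
      rw [List.length_append, length_delimit, length_enc_pair, upL]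
      simp only [List.length_singleton]
      omega
    · rw [enc_list, List.length_flatMap]
      refine (PolyT.Poly.sum_map_le _ _ (2 * (m * (2 * m + 1)) + 1) fun x hx => ?_).trans
        (Nat.mul_le_mul_right _ (by rw [List.length_map]; exact h2))
      obtain ⟨π, -, rfl⟩ := List.mem_map.1 hx
      have := enc_valList π
      rw [length_delimit]
      omega
    · simp only [dcd_code, PD.dec_enc, length_valList, cmpL_val, true_and]
      refine ⟨fun x hx => ?_, congrArg valList ha, slpB_complete gens h1⟩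
      simp only [valList, List.mem_ofFn] at hx
      obtain ⟨i, rfl⟩ := hx
      exact (a i).2

theorem sampler_all {k : ℕ} (hk : 1 ≤ k) (c : ℕ) (h : N68a2faeb.NP ⊆ N68a2faeb.BPP)
    (S : Set (Σ m : ℕ, Subgroup (Equiv.Perm (Fin m)))) : HasSampler k c S := by
  classical
  obtain ⟨p, A, hA, hp⟩ := unif_gen (l := fun x : Input => upL k x.1.1.length)
    (B := fun x => upB x.1.1.length) (by unfold upL; fun_prop) (by unfold upB; fun_prop) (p_upV k)
    h (e := fun x => x.2.length) (by fun_prop)
  refine ⟨p, fun x => dcd (A x), (poly_iff _).1 (by unfold dcd; fun_prop),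
    fun m gens _ _ e E => ?_⟩
  have key : ∀ E : Set (List ℕ × List ℕ), ((wit (fun x : Input => upL k x.1.1.length)
      (fun x => upB x.1.1.length) (upV k) (input gens e)).filter fun y => dcd y ∈ E).card =
      Set.ncard {x ∈ Ups k (gen gens) | (valList x.1, valList x.2) ∈ E} := by
    intro E
    rw [← Set.ncard_coe_finset, ← Set.ncard_image_of_injective _
      (f := fun x : (Fin m → Fin k) × Equiv.Perm (Fin m) => code (valList x.1, valList x.2))]
    · congr 1
      ext y
      simp only [coe_filter, mem_wit, Set.mem_ofPred_eq, Set.mem_image]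
      constructor
      · rintro ⟨⟨x, h1, rfl⟩, h2⟩
        exact ⟨x, ⟨h1, by rwa [dcd_code] at h2⟩, rfl⟩
      · rintro ⟨x, ⟨h1, h2⟩, rfl⟩
        exact ⟨⟨x, h1, rfl⟩, by rwa [dcd_code]⟩
    · intro x x' hx
      have := congrArg dcd hx
      simp only [dcd_code, Prod.mk.injEq] at this
      exact Prod.ext (valList_inj this.1) (DFunLike.coe_injective (valList_inj this.2))
  have h1 := hp (input gens e) ⟨_, (mem_wit gens e _).2
    ⟨(fun _ => ⟨0, hk⟩, 1), ⟨one_mem _, rfl⟩, rfl⟩⟩ fun y => dcd y ∈ E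
  have h2 := key Set.univ
  simp only [Set.mem_univ, filter_true, and_true, Set.ofPred_mem_eq] at h2
  rw [prob_eq, ← key, ← h2]
  simpa only [input, List.length_replicate] using h1

end Pool.Agent.MP_74c440_lc

end MrgPart1

-- marker of a merged file
example : 731051 + 332031 = 731051 + 332031 := rfl
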