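import Pool.Agent.MP_74c440_lc.Top3

-- ======== part 0: formerly Pool.Agent.MP_74c440_lc.Fwd2
section MrgPart0

-- ======== part 0: formerly Pool.Agent.MP_74c440_lc.Top4
section MrgPart0

/-!
The group of the two-spin system: counting orbits, reading the data, reading the phase.
-/

set_option autoImplicit false

namespace Pool.Agent.MP_74c440_lc

open Pool.Agent.PolyT Pool.Agent.H82 Finset

theorem blk_gT (n : ℕ) (sl : List Slot) (R : Gad) {j : ℕ} (hj : j < sl.length) :
    blk (gT n sl R) j = (([], [2 * j]), ([], cond (slot sl j).2.2 [2 * j + 1] [])) := by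
  simp only [blk, gT, node, List.append_assoc]
  rw [List.getD_append _ _ _ _ (by simpa using hj), List.getD_eq_getElem _ _ (by simpa using hj)]
  simp

theorem gT_fst (n : ℕ) (sl : List Slot) (R : Gad) : (gT n sl R).1 = sl.length * 2 + n * R.1 := rfl

theorem gT_length (n : ℕ) (sl : List Slot) (R : Gad) :
    (gT n sl R).2.length = sl.length * 2 + n * R.2.length := by
  rw [gT, node_length]; simp; omega

theorem gHyp_count (T N t d r : ℕ) (ht : 1 ≤ t) :
    (gHyp T N t d r).1 ≤ 3 * (gHyp T N t d r).2.length := by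
  have h1 := length_gH (2 * T + 1) (N * 2) t
  have h2 : N * 2 ≤ N * 2 * t := Nat.le_mul_of_pos_right _ ht
  have h3 : 2 * T + 1 ≤ (2 * T + 1) * t := Nat.le_mul_of_pos_right _ ht
  have h4 : (gH (2 * T + 1) (N * 2) t).1 = N * 2 := rfl
  unfold gHyp
  generalize gH (2 * T + 1) (N * 2) t = H at *
  have h5 : 1 + (gX T H).1 ≤ 3 * (gX T H).2.length := by
    rw [gX, node_length]; simp [node]; omega
  generalize gX T H = X at *
  have h6 : (gC d X).1 ≤ 3 * (gC d X).2.length := by
    rw [gC, node_length]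
    have := Nat.mul_le_mul_left d h5
    simp only [node, List.length_singleton]
    nlinarith
  have h7 := Nat.mul_le_mul_left r h6
  rw [gR, node_length]
  simp only [node, List.length_nil]
  nlinarith

theorem aG_count (k : ℕ) (bits : List Bool) (n W : ℕ) (adj : ℕ → ℕ → Bool) (w : ℕ → ℕ) :
    (aG k bits n W adj w).1 ≤ 3 * (aG k bits n W adj w).2.length := by
  have h : (qHyp k bits.length n W).1 ≤ 3 * (qHyp k bits.length n W).2.length :=
    gHyp_count _ _ _ _ _ (by unfold pt; omega)
  have := Nat.mul_le_mul_left n h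
  rw [aG, gT_fst, gT_length]
  nlinarith

theorem blkW_pos {k : ℕ} (hk : 2 ≤ k) (a c : ℕ → F) (bl : List Blk) : 0 < blkW k a c bl := by
  obtain ⟨f1, f2, f3, f4, -⟩ := f_facts hk
  refine List.prod_pos fun x hx => ?_
  obtain ⟨b, -, rfl⟩ := List.mem_map.1 hx
  unfold wt
  split_ifs <;> linarith

theorem Z_pos {k : ℕ} (hk : 2 ≤ k) (g : Gad) (a : ℕ → F) : 0 < Z k g a :=
  sum_pos (fun _ _ => blkW_pos hk _ _ _) univ_nonempty

theorem qC_pos {k : ℕ} (hk : 2 ≤ k) (l n W : ℕ) : (0 : ℝ) < qC k l n W := by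
  have := (q_basic hk l n W).1
  simp only [qC]; push_cast; positivity

/-- Reading whether the vertex `v` is occupied. -/
def readV (sl : List Slot) (l : List ℕ) (v : ℕ) : Bool :=
  (List.range sl.length).any fun j => eqB (slot sl j).1 v && (eqB (slot sl j).2.1 v && xbit l j)

/-- Reading the data from the generators. -/
def readD (m : ℕ) (gens : List (List ℕ)) : List Bool :=
  (List.range m).map fun j => gens.any fun l => ybit l j

section system

variable {k : ℕ} (hk : 2 ≤ k) (bits : List Bool) {n W : ℕ} (adj : ℕ → ℕ → Bool) {w : ℕ → ℕ}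
  (hw : ∀ v, w v ≤ W)

theorem readD_eq (gens : List (Equiv.Perm (Fin ((aG k bits n W adj w).2.length * 4))))
    (hg : gen gens = gen (gensP (aG k bits n W adj w))) :
    ∃ t, readD ((aG k bits n W adj w).2.length * 4)
      (gens.map fun π : Equiv.Perm (Fin ((aG k bits n W adj w).2.length * 4)) => valList π) =
        bits ++ t := by
  have h1 : bits.length ≤ (aSl k bits n W adj w).length := by simp [aSl, slots]
  have h2 : (aSl k bits n W adj w).length * 2 ≤ (aG k bits n W adj w).2.length := by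
    rw [aG, gT_length]; omega
  have h3 : (aSl k bits n W adj w).length * 2 ≤ (aG k bits n W adj w).1 := by
    rw [aG, gT_fst]; omega
  refine ⟨_, (List.take_append_drop bits.length _).symm.trans (congrArg (· ++ _) ?_)⟩
  refine List.ext_getElem (by simp [readD]; omega) fun j hj hj' => ?_
  have h4 : (slot (aSl k bits n W adj w) j).2.2 = bits[j] := by
    rw [slot, aSl, slots, List.getD_append _ _ _ _ (by simpa using hj'),
      List.getD_eq_getElem _ _ (by simpa using hj')]
    simp
  simp only [readD, List.getElem_take, List.getElem_map, List.getElem_range]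
  rw [Bool.eq_iff_iff, read_y _ gens hg j (by omega)]
  have h5 : blk (aG k bits n W adj w) j = _ := blk_gT _ _ _ (by omega)
  rw [h5, h4]
  cases bits[j]
  · simp
  · simp only [cond_true, par_cons, par_nil, add_zero, iff_true]
    exact ⟨fun _ => 1, dif_pos (by omega)⟩

include hk hw

theorem Z_aG : (qC k bits.length n W : ℝ) * Z k (aG k bits n W adj w) 0 =
    ∑ s ∈ range (2 ^ n), aW k bits n W adj w (fun _ _ => 1) s := by
  simpa [Z] using sum_aG hk bits adj hw fun _ _ => 1

theorem misread {K ω s0 : ℕ} (hg : Good n adj w K ω s0) (hadj : ∀ v, adj v v = false) :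
    (Set.ncard {x ∈ Ups k (gen (gensP (aG k bits n W adj w))) |
      ∃ v < n, readV (aSl k bits n W adj w) (valList x.2) v ≠ s0.testBit v} : ℝ) /
      Set.ncard (Ups k (gen (gensP (aG k bits n W adj w)))) ≤ 1 / 16 := by
  obtain ⟨sl, hsl⟩ : ∃ sl, sl = aSl k bits n W adj w := ⟨_, rfl⟩
  let A : ℕ → (ℕ → F) → Prop := fun v c =>
    ∀ j < sl.length, (slot sl j).1 = v ∧ (slot sl j).2.1 = v → c (2 * j) = 0
  have h2 : sl.length * 2 ≤ (aG k bits n W adj w).2.length := by
    rw [aG, gT_length, hsl]; omega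
  rw [← hsl, ups_gad k _ (fun π => ∃ v < n, readV sl (valList π) v ≠ s0.testBit v)
    (fun c => ∃ v ∈ range n, (A v c ↔ s0.testBit v = true)) (fun c z => by
      simp only [mem_range]
      refine exists_congr fun v => and_congr_right fun _ => ?_
      have : readV sl (valList (rho _ (elt (aG k bits n W adj w) c z))) v = false ↔
          A v (ext c) := by
        simp only [readV, List.any_eq_false, List.mem_range, Bool.and_eq_true, eqB,
          decide_eq_true_eq, A]
        refine forall_congr' fun j => forall_congr' fun hj => ?_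
        have h5 : blk (aG k bits n W adj w) j = _ := blk_gT _ _ _ (by rw [← hsl]; exact hj)
        rw [xbit_rho _ ⟨j, by omega⟩]
        simp only [elt, Hs.mk_x, h5, par_cons, par_nil, add_zero]
        rcases F_cases (ext c (2 * j)) with h | h <;> simp [h, bt]
      rw [← this]
      cases s0.testBit v <;> simp)]
  have hZ := Z_pos hk (aG k bits n W adj w) 0
  have hC := qC_pos hk bits.length n W
  have e0 := Z_aG (n := n) hk bits adj hw
  have b : ∀ v ∈ range n, 2 ^ qE n * sumK (aG k bits n W adj w).1 (fun c =>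
      ind (A v c ↔ s0.testBit v = true) * blkW k 0 c (aG k bits n W adj w).2) ≤
      2 * 2 ^ n * Z k (aG k bits n W adj w) 0 := by
    intro v hv
    have e1 := sum_aG (n := n) hk bits adj hw (mark v)
    simp only [← hsl, ← ind_mark] at e1
    rw [← mul_le_mul_iff_right₀ hC, mul_left_comm, mul_left_comm _ (2 * 2 ^ n), e0]
    cases h : s0.testBit v
    · have := aW_mark_out hk bits adj hw hg (mem_range.1 hv) h
      rw [← e1, ← e0, ← mul_sub] at this
      rw [← e0]
      refine le_of_eq_of_le (congrArg _ (congrArg _ ?_)) this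
      rw [eq_sub_iff_add_eq, ← sumK_add']
      refine sumK_congr fun c _ => ?_
      simp only [Bool.false_eq_true, iff_false, ind_not, A]
      ring
    · have := aW_mark_in hk bits adj hw hg (mem_range.1 hv) (hadj v) h
      rw [← e1] at this
      simpa only [iff_true] using this
  have b2 : sumK (aG k bits n W adj w).1 (fun c =>
      ind (∃ v ∈ range n, (A v c ↔ s0.testBit v = true)) * blkW k 0 c (aG k bits n W adj w).2) ≤
      ∑ v ∈ range n, sumK (aG k bits n W adj w).1 (fun c =>
      ind (A v c ↔ s0.testBit v = true) * blkW k 0 c (aG k bits n W adj w).2) := by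
    rw [← sumK_sum]
    refine sumK_mono fun c => ?_
    rw [← sum_mul]
    exact mul_le_mul_of_nonneg_right (ind_exists_le _ _) (blkW_pos hk _ _ _).le
  have b3 := sum_le_card_nsmul _ _ _ b
  rw [← mul_sum, card_range, nsmul_eq_mul] at b3
  have b4 : (n : ℝ) * 2 ≤ 2 ^ n * 2 ^ n := by
    have : n * 2 ≤ 2 ^ (n * 2) := Nat.lt_two_pow_self.le
    rw [← sq, ← pow_mul]; exact_mod_cast this
  have b5 : (2 : ℝ) ^ qE n = 16 * (2 ^ n * 2 ^ n * 2 ^ n) := by rw [qE]; ring
  rw [div_le_iff₀ hZ]
  refine b2.trans ?_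
  rw [← mul_le_mul_iff_right₀ (by positivity : (0 : ℝ) < 2 ^ qE n)]
  refine b3.trans ?_
  rw [b5]
  calc _ = (n : ℝ) * 2 * (2 ^ n * Z k (aG k bits n W adj w) 0) := by ring
    _ ≤ 2 ^ n * 2 ^ n * (2 ^ n * Z k (aG k bits n W adj w) 0) := by gcongr
    _ = _ := by ring

/-- The output of the counting algorithm. -/
def aOut (k : ℕ) (bits : List Bool) (n W : ℕ) (adj : ℕ → ℕ → Bool) (w : ℕ → ℕ) (K ω e : ℕ) :
    ℕ × ℕ :=
  cond (ltB e (2 ^ n))
    (phN k n (aSl k bits n W adj w) (qA k bits.length n W) (qB k bits.length n W)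
        (q0 k bits.length n W) (q1 k bits.length n W) 0 *
      ((qA k bits.length n W * qN k bits.length n W ^ (n * qT k n W + qL k bits.length n W)) ^ K *
        qN k bits.length n W ^ (qS k n * ω)),
      qC k bits.length n W *
        2 ^ ((aG k bits n W adj w).1 + (aG k bits n W adj w).2.length) *
      ((qB k bits.length n W * qG k bits.length n W ^ (n * qT k n W + qL k bits.length n W)) ^ K *
        qG k bits.length n W ^ (qS k n * ω)))
    (((List.range (min (2 ^ n) e)).map fun s => phN k n (aSl k bits n W adj w)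
        (qA k bits.length n W) (qB k bits.length n W)
        (q0 k bits.length n W) (q1 k bits.length n W) s).sum,
      qC k bits.length n W * 2 ^ ((aG k bits n W adj w).1 + (aG k bits n W adj w).2.length))

theorem aOut_spec {K ω s0 : ℕ} (hg : Good n adj w K ω s0) {e : ℕ} (he : 2 ≤ e) :
    Real.exp (-(1 / (e : ℝ))) * orbitCount k (gen (gensP (aG k bits n W adj w))) ≤
        ((aOut k bits n W adj w K ω e).1 : ℝ) / (aOut k bits n W adj w K ω e).2 ∧
      ((aOut k bits n W adj w K ω e).1 : ℝ) / (aOut k bits n W adj w K ω e).2 ≤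
        Real.exp (1 / (e : ℝ)) * orbitCount k (gen (gensP (aG k bits n W adj w))) := by
  have hC := qC_pos hk bits.length n W
  have e0 := Z_aG (n := n) hk bits adj hw
  rw [← orbit_gad] at e0
  have he' : (0 : ℝ) < e := by positivity
  have x1 : 1 + 1 / (e : ℝ) ≤ Real.exp (1 / e) := by rw [add_comm]; exact Real.add_one_le_exp _
  have x2 : 1 ≤ Real.exp (1 / (e : ℝ)) := le_trans (le_add_of_nonneg_right (by positivity)) x1
  have N0 : (0 : ℝ) ≤ orbitCount k (gen (gensP (aG k bits n W adj w))) := by positivity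
  rw [Real.exp_neg, inv_mul_le_iff₀ (Real.exp_pos _)]
  generalize (orbitCount k (gen (gensP (aG k bits n W adj w))) : ℝ) = N at *
  generalize Real.exp (1 / (e : ℝ)) = x at *
  by_cases h : e < 2 ^ n
  · have e1 : ((aOut k bits n W adj w K ω e).1 : ℝ) / (aOut k bits n W adj w K ω e).2 =
        aW k bits n W adj w (fun _ _ => 1) s0 / (qC k bits.length n W *
        2 ^ ((aG k bits n W adj w).1 + (aG k bits n W adj w).2.length)) := by
      rw [(aW_dom hk bits adj hw hg).1]
      simp only [aOut, ltB, h, decide_true, cond_true, aW, ← cast_phN, rMu, rG]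
      push_cast
      simp only [div_pow, mul_pow, pow_mul, div_mul_div_comm]
      rw [mul_div_assoc', div_div, mul_comm _ ((qC k bits.length n W : ℝ) * _)]
    have a1 := aW_rest hk bits adj hw hg
    have n0 := aW_nonneg (n := n) (W := W) (w := w) (k := k) bits adj (ι := fun _ _ => 1)
      (fun _ _ => zero_le_one)
    have a5 : 0 ≤ ∑ s ∈ (range (2 ^ n)).erase s0, aW k bits n W adj w (fun _ _ => 1) s :=
      sum_nonneg fun s _ => n0 s
    have a6 := n0 s0
    rw [← add_sum_erase _ _ (mem_range.2 hg.1)] at e0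
    rw [e1, ← mul_div_assoc, le_div_iff₀ (by positivity), div_le_iff₀ (by positivity),
      mul_left_comm, e0, mul_assoc, mul_left_comm N, e0]
    generalize ∑ s ∈ (range (2 ^ n)).erase s0, aW k bits n W adj w (fun _ _ => 1) s = R at *
    generalize aW k bits n W adj w (fun _ _ => 1) s0 = M at *
    have a2 : (e : ℝ) * R ≤ M := by
      have c1 : (e : ℝ) * 2 ^ n ≤ 2 ^ qE n := by
        have : e * 2 ^ n ≤ 2 ^ qE n := (Nat.mul_le_mul_right _ h.le).trans (by
          rw [← pow_add]; exact Nat.pow_le_pow_right (by norm_num) (by unfold qE; omega))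
        exact_mod_cast this
      rw [← mul_le_mul_iff_right₀ (by positivity : (0 : ℝ) < 2 ^ n)]
      nlinarith
    have a3 : R ≤ 1 / e * M := by rw [one_div, le_inv_mul_iff₀ he']; exact a2
    constructor <;> nlinarith
  · have e1 : ((aOut k bits n W adj w K ω e).1 : ℝ) / (aOut k bits n W adj w K ω e).2 = N := by
      simp only [aOut, ltB, h, decide_false, cond_false, min_eq_left (not_lt.1 h)]
      push_cast
      rw [div_eq_iff (by positivity), mul_left_comm, e0, List.map_map, ← List.sum_toFinset _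
        (List.nodup_range), List.toFinset_range]
      exact sum_congr rfl fun s _ => cast_phN _ _ _ _ _ _ _ _
    rw [e1]
    constructor <;> nlinarith

end system

end Pool.Agent.MP_74c440_lc

end MrgPart0

-- ======== part 1: formerly Pool.Agent.MP_74c440_lc.Iso
section MrgPart1

/-!
The graph of a formula and the isolation lemma.
-/

set_option autoImplicit false

namespace Pool.Agent.MP_74c440_lc

open Pool.Agent.PolyT Pool.Agent.H82 Finset

theorem ev_chunk_le (l n v : ℕ) (hv : v < n) (bad : (ℕ → ℕ) → Prop)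
    (h : ∀ w w', (∀ u, u ≠ v → w u = w' u) → bad w → bad w' → w v = w' v) :
    ev (n * l) (fun r => ind (bad fun u => ofBits (chunk l r u))) ≤ 1 / 2 ^ l := by
  induction v generalizing n bad with
  | zero =>
    obtain ⟨n, rfl⟩ : ∃ m, n = m + 1 := ⟨n - 1, by omega⟩
    rw [show (n + 1) * l = l + n * l by ring, ev_append, ev_comm]
    refine ev_le_const fun y _ => ?_
    by_cases hb : ∃ x, x.length = l ∧ bad fun u => ofBits (chunk l (x ++ y) u)
    · obtain ⟨x0, h1, h2⟩ := hb
      refine le_trans (ev_mono fun x hx => ind_mono fun h3 => ?_) (ev_ofBits_eq_le l (ofBits x0))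
      have := h _ _ (fun u hu => by
        obtain ⟨u, rfl⟩ : ∃ m, u = m + 1 := ⟨u - 1, by omega⟩
        simp only [chunk_succ l _ y hx, chunk_succ l _ y h1]) h3 h2
      simpa only [chunk_zero l _ y hx, chunk_zero l _ y h1] using this
    · exact ev_le_const fun x hx => by rw [ind_neg fun h => hb ⟨x, hx, h⟩]; positivity
  | succ v ih =>
    obtain ⟨n, rfl⟩ : ∃ m, n = m + 1 := ⟨n - 1, by omega⟩
    rw [show (n + 1) * l = l + n * l by ring, ev_append]
    refine ev_le_const fun x hx => ?_
    refine le_of_eq_of_le (ev_congr fun y _ => ?_)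
      (ih n (by omega) (fun w => bad fun u => Nat.casesOn u (ofBits x) w) fun w w' h1 h2 h3 =>
        h _ _ (fun u hu => ?_) h2 h3)
    · congr 2
      funext u
      cases u with
      | zero => simp only [chunk_zero l _ y hx]; rfl
      | succ u => simp only [chunk_succ l _ y hx]
    · cases u with
      | zero => rfl
      | succ u => exact h1 u (by omega)

theorem wB_split {n v : ℕ} (hv : v < n) (w : ℕ → ℕ) (s : ℕ) :
    wB n w s = (if s.testBit v then w v else 0) +
      ∑ u ∈ (range n).erase v, if s.testBit u then w u else 0 :=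
  (add_sum_erase _ _ (mem_range.2 hv)).symm

/-- The isolation lemma. -/
theorem isolation (l n : ℕ) (T : ℕ → Prop) (hT : ∀ s, T s → s < 2 ^ n) (hne : ∃ s, T s) :
    ev (n * l) (fun r => ind (¬ ∃ s0, T s0 ∧ ∀ s, T s → s ≠ s0 →
      wB n (fun u => ofBits (chunk l r u)) s < wB n (fun u => ofBits (chunk l r u)) s0)) ≤
      n / 2 ^ l := by
  let bad : ℕ → (ℕ → ℕ) → Prop := fun v w => ∃ s s', T s ∧ T s' ∧ s.testBit v = true ∧
    s'.testBit v = false ∧ (∀ u, T u → wB n w u ≤ wB n w s) ∧ ∀ u, T u → wB n w u ≤ wB n w s'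
  have h1 : ∀ w : ℕ → ℕ, (¬ ∃ s0, T s0 ∧ ∀ s, T s → s ≠ s0 → wB n w s < wB n w s0) →
      ∃ v ∈ range n, bad v w := by
    classical
    intro w hw
    obtain ⟨s0, h0, hm⟩ := exists_max_image ((range (2 ^ n)).filter T) (wB n w) (by
      obtain ⟨s, hs⟩ := hne
      exact ⟨s, mem_filter.2 ⟨mem_range.2 (hT s hs), hs⟩⟩)
    have hm' : ∀ u, T u → wB n w u ≤ wB n w s0 := fun u hu =>
      hm u (mem_filter.2 ⟨mem_range.2 (hT u hu), hu⟩)
    have h0' := (mem_filter.1 h0).2
    push Not at hw
    obtain ⟨s, hs, hne, hle⟩ := hw s0 h0'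
    obtain ⟨v, hv⟩ := not_forall.1 fun h => hne (Nat.eq_of_testBit_eq h)
    have hvn : v < n := by
      by_contra hn
      have := Nat.pow_le_pow_right (n := 2) (by norm_num) (not_lt.1 hn)
      rw [Nat.testBit_lt_two_pow ((hT s hs).trans_le this),
        Nat.testBit_lt_two_pow ((hT s0 h0').trans_le this)] at hv
      exact hv rfl
    refine ⟨v, mem_range.2 hvn, ?_⟩
    cases h : s.testBit v
    · exact ⟨s0, s, h0', hs, by simpa [h] using hv, h, hm', fun u hu => (hm' u hu).trans hle⟩
    · exact ⟨s, s0, hs, h0', h, by simpa [h] using hv, fun u hu => (hm' u hu).trans hle, hm'⟩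
  refine (ev_mono fun r _ => ind_mono (h1 _)).trans ((ev_union _ _ _).trans ?_)
  refine (sum_le_card_nsmul _ _ (1 / 2 ^ l) fun v hv => ev_chunk_le l n v (mem_range.1 hv)
    (bad v) ?_).trans (by rw [card_range, nsmul_eq_mul, mul_one_div])
  rintro w w' h ⟨s, s', a1, a2, a3, a4, a5, a6⟩ ⟨u, u', b1, b2, b3, b4, b5, b6⟩
  have e : ∀ s : ℕ, (∑ u ∈ (range n).erase v, if s.testBit u then w u else 0) =
      ∑ u ∈ (range n).erase v, if s.testBit u then w' u else 0 := fun s =>
    sum_congr rfl fun u hu => by rw [h u (ne_of_mem_erase hu)]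
  have c1 := a5 u b1
  have c2 := a5 s' a2
  have c3 := a6 s a1
  have c4 := a6 u' b2
  have c5 := b5 s a1
  have c6 := b5 u' b2
  have c7 := b6 u b1
  have c8 := b6 s' a2
  simp only [wB_split (mem_range.1 hv), a3, a4, b3, b4, e, if_true, Bool.false_eq_true,
    if_false] at c1 c2 c3 c4 c5 c6 c7 c8
  omega

/-- The clause of a vertex. -/
def clI (K v : ℕ) : ℕ := cond (ltB v K) v (cond (ltB v (K + K)) (v - K) (v - (K + K)))

/-- The clause number `i`. -/
def clA (φ : List Cl) (i : ℕ) : Cl := φ.getD i ((0, false), (0, false), (0, false))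

/-- The literal of a vertex. -/
def litV (φ : List Cl) (v : ℕ) : Lit :=
  cond (ltB v φ.length) (clA φ (clI φ.length v)).1
    (cond (ltB v (φ.length + φ.length)) (clA φ (clI φ.length v)).2.1 (clA φ (clI φ.length v)).2.2)

/-- Adjacency: same clause or opposite literals. -/
def adjV (φ : List Cl) (u v : ℕ) : Bool :=
  !eqB u v && (eqB (clI φ.length u) (clI φ.length v) ||
    (eqB (litV φ u).1 (litV φ v).1 && xor (litV φ u).2 (litV φ v).2))

/-- The assignment given by a set of vertices. -/
def asg (φ : List Cl) (b : ℕ → Bool) (x : ℕ) : Bool :=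
  (List.range (3 * φ.length)).any fun v => b v && eqB (litV φ v) (x, true)

/-- The test of an assignment. -/
def chk (φ : List Cl) (β : ℕ → Bool) : Bool :=
  φ.all fun C => eqB (β C.1.1) C.1.2 || eqB (β C.2.1.1) C.2.1.2 || eqB (β C.2.2.1) C.2.2.2

theorem chk_iff (φ : List Cl) (β : ℕ → Bool) : chk φ β = true ↔ ∀ C ∈ φ, C.Holds β := by
  simp [chk, Cl.Holds, eqB, or_assoc]

theorem adjV_self (φ : List Cl) (v : ℕ) : adjV φ v v = false := by simp [adjV, eqB]

theorem clI_0 {K i : ℕ} (h : i < K) : clI K i = i := by simp [clI, ltB, h]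
theorem clI_1 {K i : ℕ} (h : i < K) : clI K (K + i) = i := by simp [clI, ltB, h]
theorem clI_2 (K i : ℕ) : clI K (K + K + i) = i := by
  simp [clI, ltB, show ¬ K + K + i < K by omega]

theorem litV_0 {φ : List Cl} {i : ℕ} (h : i < φ.length) : litV φ i = (clA φ i).1 := by
  simp [litV, ltB, h, clI_0 h]
theorem litV_1 {φ : List Cl} {i : ℕ} (h : i < φ.length) :
    litV φ (φ.length + i) = (clA φ i).2.1 := by
  simp [litV, ltB, h, clI_1 h]
theorem litV_2 (φ : List Cl) (i : ℕ) :
    litV φ (φ.length + φ.length + i) = (clA φ i).2.2 := by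
  simp [litV, ltB, clI_2, show ¬ φ.length + φ.length + i < φ.length by omega]

theorem card_split (K s : ℕ) : wB (3 * K) (fun _ => 1) s = ∑ i ∈ range K,
    ((if s.testBit i then 1 else 0) + (if s.testBit (K + i) then 1 else 0) +
      if s.testBit (K + K + i) then 1 else 0) := by
  rw [wB, show 3 * K = K + K + K by ring, sum_range_add, sum_range_add, sum_add_distrib,
    sum_add_distrib]

theorem one_le_of_indep {φ : List Cl} {s : ℕ} (h : Indep (3 * φ.length) (adjV φ) s) {i : ℕ}
    (hi : i < φ.length) :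
    ((if s.testBit i then 1 else 0) + (if s.testBit (φ.length + i) then 1 else 0) +
      if s.testBit (φ.length + φ.length + i) then 1 else 0) ≤ 1 := by
  have h0 : φ ≠ [] := List.ne_nil_of_length_pos (by omega)
  have a1 := h i (by omega) (φ.length + i) (by omega) (by simp [adjV, eqB, clI_0 hi, clI_1 hi, h0])
  have a2 := h i (by omega) (φ.length + φ.length + i) (by omega)
    (by simp [adjV, eqB, clI_0 hi, clI_2, h0])
  have a3 := h (φ.length + i) (by omega) (φ.length + φ.length + i) (by omega)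
    (by simp [adjV, eqB, clI_1 hi, clI_2, h0])
  split_ifs <;> simp_all

theorem card_le_of_indep {φ : List Cl} {s : ℕ} (h : Indep (3 * φ.length) (adjV φ) s) :
    wB (3 * φ.length) (fun _ => 1) s ≤ φ.length := by
  rw [card_split]
  simpa using sum_le_card_nsmul _ _ 1 fun i hi => one_le_of_indep h (mem_range.1 hi)

theorem asg_lit {φ : List Cl} {s : ℕ} (h : Indep (3 * φ.length) (adjV φ) s) {b : ℕ → Bool}
    (hb : ∀ v < 3 * φ.length, b v = s.testBit v) {v : ℕ} (hv : v < 3 * φ.length)
    (hs : s.testBit v = true) : asg φ b (litV φ v).1 = (litV φ v).2 := by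
  cases h2 : (litV φ v).2
  · simp only [asg, List.any_eq_false, List.mem_range, Bool.and_eq_true, eqB, decide_eq_true_eq]
    rintro u hu ⟨h3, h4⟩
    refine h u hu v hv ?_ (by rw [← hb u hu, h3]) hs
    have : u ≠ v := by rintro rfl; rw [h4] at h2; simp at h2
    simp [adjV, eqB, this, h4, h2]
  · simp only [asg, List.any_eq_true, List.mem_range, Bool.and_eq_true, eqB, decide_eq_true_eq]
    exact ⟨v, hv, by rw [hb v hv, hs], by rw [← h2]⟩

theorem chk_of_indep {φ : List Cl} {s : ℕ} (h : Indep (3 * φ.length) (adjV φ) s)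
    (hK : wB (3 * φ.length) (fun _ => 1) s = φ.length) {b : ℕ → Bool}
    (hb : ∀ v < 3 * φ.length, b v = s.testBit v) : chk φ (asg φ b) = true := by
  rw [chk_iff]
  intro C hC
  obtain ⟨i, hi, rfl⟩ := List.getElem_of_mem hC
  have e : φ[i] = clA φ i := by simp [clA, hi]
  rw [card_split] at hK
  have h1 := (sum_eq_sum_iff_of_le (g := fun _ => 1)
    fun i hi => one_le_of_indep h (mem_range.1 hi)).1 (by simpa using hK) i (mem_range.2 hi)
  rw [e, Cl.Holds, ← litV_0 hi, ← litV_1 hi, ← litV_2]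
  by_cases a1 : s.testBit i = true
  · exact Or.inl (asg_lit h hb (by omega) a1)
  by_cases a2 : s.testBit (φ.length + i) = true
  · exact Or.inr (Or.inl (asg_lit h hb (by omega) a2))
  by_cases a3 : s.testBit (φ.length + φ.length + i) = true
  · exact Or.inr (Or.inr (asg_lit h hb (by omega) a3))
  simp [a1, a2, a3] at h1

theorem indep_of_sat {φ : List Cl} (h : Sat3 φ) : ∃ s, s < 2 ^ (3 * φ.length) ∧
    Indep (3 * φ.length) (adjV φ) s ∧ wB (3 * φ.length) (fun _ => 1) s = φ.length := by
  obtain ⟨β, hβ⟩ := h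
  have h1 : ∀ i, ∃ v, i < φ.length → (v = i ∨ v = φ.length + i ∨ v = φ.length + φ.length + i) ∧
      β (litV φ v).1 = (litV φ v).2 := by
    intro i
    by_cases hi : i < φ.length
    · have e : φ[i] = clA φ i := by simp [clA, hi]
      rcases hβ _ (List.getElem_mem hi) with h | h | h
      · exact ⟨i, fun _ => ⟨by omega, by rw [litV_0 hi, ← e, h]⟩⟩
      · exact ⟨φ.length + i, fun _ => ⟨by omega, by rw [litV_1 hi, ← e, h]⟩⟩
      · exact ⟨φ.length + φ.length + i, fun _ => ⟨by omega, by rw [litV_2, ← e, h]⟩⟩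
    · exact ⟨0, fun h => absurd h hi⟩
  choose f hf using h1
  have h2 : ∀ v < 3 * φ.length, clI φ.length v < φ.length := by
    intro v hv
    unfold clI ltB
    by_cases a : v < φ.length <;> by_cases b : v < φ.length + φ.length <;> simp [a, b] <;> omega
  have h3 : ∀ v < 3 * φ.length, (Nat.ofBits fun v : Fin (3 * φ.length) =>
      decide (f (clI φ.length v) = v)).testBit v = decide (f (clI φ.length v) = v) :=
    fun v hv => Nat.testBit_ofBits_lt _ v hv
  refine ⟨Nat.ofBits fun v : Fin (3 * φ.length) => decide (f (clI φ.length v) = v),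
    Nat.ofBits_lt_two_pow _, fun u hu v hv ha bu bv => ?_, ?_⟩
  · rw [h3 _ hu, decide_eq_true_eq] at bu
    rw [h3 _ hv, decide_eq_true_eq] at bv
    have c1 := (hf _ (h2 u hu)).2
    have c2 := (hf _ (h2 v hv)).2
    rw [bu] at c1
    rw [bv] at c2
    simp only [adjV, eqB, Bool.and_eq_true, Bool.not_eq_true', decide_eq_false_iff_not,
      Bool.or_eq_true, decide_eq_true_eq] at ha
    rcases ha with ⟨a1, a2 | ⟨a2, a3⟩⟩
    · rw [a2, bv] at bu; exact a1 bu.symm
    · rw [← c1, ← c2, a2] at a3; simp at a3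
  · rw [card_split, sum_congr rfl (g := fun _ => 1)]
    · simp
    · intro i hi
      have hi' := mem_range.1 hi
      rw [h3 _ (by omega), h3 _ (by omega), h3 _ (by omega), clI_0 hi', clI_1 hi', clI_2]
      have := (hf i hi').1
      simp only [decide_eq_true_eq]
      split_ifs <;> omega

end Pool.Agent.MP_74c440_lc

end MrgPart1

-- ======== part 2: formerly Pool.Agent.MP_74c440_lc.Fwd1
section MrgPart2

/-!
The family of groups and its approximation scheme.
-/

set_option autoImplicit false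

namespace Pool.Agent.MP_74c440_lc

open Pool.Agent.PolyT Pool.Agent.H82 Finset N487b59b3

/-- The data: a formula, random bits for the weights, a guess of the optimal weight. -/
abbrev Dat : Type := List Cl × List Bool × ℕ

/-- Number of bits of a weight. -/
def dl (φ : List Cl) : ℕ := (3 * φ.length).size + 4
/-- Bound for the weights. -/
def dW (φ : List Cl) : ℕ := 2 ^ (1 * (3 * φ.length).size) * 16
/-- The weights. -/
def dw (y : Dat) (v : ℕ) : ℕ := min (ofBits (chunk (dl y.1) y.2.1 v)) (dW y.1)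
/-- The guess of the optimal weight. -/
def dom (y : Dat) : ℕ := min y.2.2 (3 * y.1.length * dW y.1)
/-- The data bits. -/
def dbits (y : Dat) : List Bool := delimit (bitEncode y)
/-- The slots. -/
def dSl (k : ℕ) (y : Dat) : List Slot :=
  aSl k (dbits y) (3 * y.1.length) (dW y.1) (adjV y.1) (dw y)
/-- The gadget. -/
def dG (k : ℕ) (y : Dat) : Gad := aG k (dbits y) (3 * y.1.length) (dW y.1) (adjV y.1) (dw y)
/-- The output of the counting algorithm. -/
def dOut (k : ℕ) (y : Dat) (e : ℕ) : ℕ × ℕ :=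
  aOut k (dbits y) (3 * y.1.length) (dW y.1) (adjV y.1) (dw y) y.1.length (dom y) e
/-- The promise. -/
def Prom (y : Dat) : Prop := ∃ s0, Good (3 * y.1.length) (adjV y.1) (dw y) y.1.length (dom y) s0

theorem dW_eq (φ : List Cl) : dW φ = 2 ^ dl φ := by rw [dW, dl, one_mul, pow_add]; rfl

theorem dw_le (y : Dat) (v : ℕ) : dw y v ≤ dW y.1 := min_le_right _ _

section poly

variable {α : Type} [N487b59b3 α]

@[fun_prop] theorem u_dl {φ : α → List Cl} (h : PolyT.Poly φ) : Un fun a => dl (φ a) := by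
  unfold dl; fun_prop

@[fun_prop] theorem u_dW {φ : α → List Cl} (h : PolyT.Poly φ) : Un fun a => dW (φ a) :=
  u_mul (u_two_pow_size 1 (by fun_prop)) (u_const 16)

@[fun_prop] theorem u_dw {y : α → Dat} {v : α → ℕ} (h : PolyT.Poly y) (hv : PolyT.Poly v) :
    Un fun a => dw (y a) (v a) :=
  u_min (p_ofBits (p_chunk (u_dl (p_fst h)).1 (by fun_prop) hv)) (u_dW (p_fst h))

@[fun_prop] theorem u_dom {y : α → Dat} (h : PolyT.Poly y) : Un fun a => dom (y a) := by
  unfold dom; fun_prop

@[fun_prop] theorem p_dbits {y : α → Dat} (h : PolyT.Poly y) : PolyT.Poly fun a => dbits (y a) := by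
  unfold dbits; fun_prop

@[fun_prop] theorem p_clI {K v : α → ℕ} (h : PolyT.Poly K) (hv : PolyT.Poly v) :
    PolyT.Poly fun a => clI (K a) (v a) := by
  unfold clI; fun_prop

@[fun_prop] theorem p_litV {φ : α → List Cl} {v : α → ℕ} (h : PolyT.Poly φ) (hv : PolyT.Poly v) :
    PolyT.Poly fun a => litV (φ a) (v a) := by
  unfold litV clA; fun_prop

@[fun_prop] theorem p_adjV {φ : α → List Cl} {u v : α → ℕ} (h : PolyT.Poly φ) (hu : PolyT.Poly u)
    (hv : PolyT.Poly v) : PolyT.Poly fun a => adjV (φ a) (u a) (v a) := by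
  unfold adjV; fun_prop

theorem u_live (k : ℕ) : Un fun a : Dat × ℕ =>
    qL k (dbits a.1).length (3 * a.1.1.length) (dW a.1.1) +
      qS k (3 * a.1.1.length) * dw a.1 a.2 := by
  fun_prop

@[fun_prop] theorem p_dSl (k : ℕ) {y : α → Dat} (h : PolyT.Poly y) :
    PolyT.Poly fun a => dSl k (y a) := by
  refine PolyT.Poly.comp (g := dSl k) ?_ h
  have h1 := u_live k
  have h2 : Un fun a : Dat × ℕ => qLam k (3 * a.1.1.length) (dW a.1.1) := by fun_prop
  unfold dSl aSl slots
  exact p_append (by fun_prop) (p_append (p_flatMap (p_flatMap (p_replicate (by fun_prop)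
    (by fun_prop)) (by fun_prop)) (by fun_prop)) (p_flatMap (p_append
    (p_replicate h1 (by fun_prop)) (p_replicate (u_sub h2 h1.1) (by fun_prop))) (by fun_prop)))

@[fun_prop] theorem p_dG (k : ℕ) {y : α → Dat} (h : PolyT.Poly y) :
    PolyT.Poly fun a => dG k (y a) :=
  p_gT (by fun_prop) (p_dSl k h) (by fun_prop)

theorem u_dG (k : ℕ) {y : α → Dat} (h : PolyT.Poly y) :
    Un fun a => (dG k (y a)).1 :=
  ⟨p_fst (p_dG k h), (u_mul (u_const 3) (u_length (p_snd (p_dG k h)))).2.of_le fun _ =>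
    aG_count _ _ _ _ _ _⟩

theorem p_out {e n a b c : α → ℕ} (f : α → ℕ → ℕ) (he : Un e) (hn : Un n) (ha : PolyT.Poly a)
    (hb : PolyT.Poly b) (hc : PolyT.Poly c) (hf : PolyT.Poly fun p : α × ℕ => f p.1 p.2) :
    PolyT.Poly fun x => cond (ltB (e x) (2 ^ n x)) (f x 0 * a x, c x * b x)
      (((List.range (min (2 ^ n x) (e x))).map (f x)).sum, c x) := by
  have h1 : PolyT.Poly fun x => f x 0 := hf.comp (f := fun x => (x, 0)) (by fun_prop)
  have h2 := he.1
  exact p_cond (by fun_prop) (by fun_prop) (p_pair (p_sum (p_map hf (by fun_prop))) hc)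

theorem p_main (k : ℕ) {l n W K ω a b : α → ℕ} (hl : Un l) (hn : Un n) (hW : Un W) (hK : Un K)
    (hω : Un ω) (ha : PolyT.Poly a) (hb : PolyT.Poly b) : PolyT.Poly fun x =>
      (a x * b x ^ (n x * qT k (n x) (W x) + qL k (l x) (n x) (W x))) ^ K x *
        b x ^ (qS k (n x) * ω x) :=
  p_mul (p_pow (p_mul ha (p_pow hb (u_add (u_mul hn (u_qT k hn hW)) (u_qL k hl hn hW)))) hK)
    (p_pow hb (u_mul (u_qS k hn) hω))

@[fun_prop] theorem p_dOut (k : ℕ) {y : α → Dat} {e : α → ℕ} (h : PolyT.Poly y) (he : Un e) :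
    PolyT.Poly fun a => dOut k (y a) (e a) := by
  have hl : Un fun a => (dbits (y a)).length := by fun_prop
  have hK : Un fun a => (y a).1.length := by fun_prop
  have hn : Un fun a => 3 * (y a).1.length := by fun_prop
  have hW : Un fun a => dW (y a).1 := by fun_prop
  have h1 : PolyT.Poly fun a => qC k (dbits (y a)).length (3 * (y a).1.length) (dW (y a).1) *
      2 ^ ((dG k (y a)).1 + (dG k (y a)).2.length) :=
    p_mul (p_qC k hl hn hW)
      (p_pow (p_const 2) (u_add (u_dG k h) (u_length (p_snd (p_dG k h)))))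
  have h2 : PolyT.Poly fun p : α × ℕ => y p.1 := h.comp (p_fst p_id)
  have hl' : Un fun p : α × ℕ => (dbits (y p.1)).length := by fun_prop
  have hn' : Un fun p : α × ℕ => 3 * (y p.1).1.length := by fun_prop
  have hW' : Un fun p : α × ℕ => dW (y p.1).1 := by fun_prop
  unfold dOut aOut
  exact p_out (fun a s => phN k (3 * (y a).1.length) (dSl k (y a))
      (qA k (dbits (y a)).length (3 * (y a).1.length) (dW (y a).1))
      (qB k (dbits (y a)).length (3 * (y a).1.length) (dW (y a).1))
      (q0 k (dbits (y a)).length (3 * (y a).1.length) (dW (y a).1))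
      (q1 k (dbits (y a)).length (3 * (y a).1.length) (dW (y a).1)) s) he hn
    (p_main k hl hn hW hK (u_dom h) (p_qA k hl hn hW) (p_qN k hl hn hW))
    (p_main k hl hn hW hK (u_dom h) (p_qB k hl hn hW) (p_qG k hl hn hW)) h1
    (p_phN k hn' (p_dSl k h2) (p_qA k hl' hn' hW') (p_qB k hl' hn' hW') (p_q0 k hl' hn' hW')
      (p_q1 k hl' hn' hW') (p_snd p_id))

@[fun_prop] theorem p_xbit {l : α → List ℕ} {j : α → ℕ} (h : PolyT.Poly l) (hj : PolyT.Poly j) :
    PolyT.Poly fun a => xbit (l a) (j a) := by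
  unfold xbit; fun_prop

@[fun_prop] theorem p_readV {sl : α → List Slot} {l : α → List ℕ} {v : α → ℕ} (hs : PolyT.Poly sl)
    (h : PolyT.Poly l) (hv : PolyT.Poly v) : PolyT.Poly fun a => readV (sl a) (l a) (v a) := by
  unfold readV slot; fun_prop

@[fun_prop] theorem p_readD {m : α → ℕ} {l : α → List (List ℕ)} (hm : Un m) (h : PolyT.Poly l) :
    PolyT.Poly fun a => readD (m a) (l a) := by
  unfold readD ybit; fun_prop

end poly

/-- The family of groups. -/
def fam (k : ℕ) : Set (Σ m : ℕ, Subgroup (Equiv.Perm (Fin m))) :=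
  {x | ∃ y, Prom y ∧ x = ⟨(dG k y).2.length * 4, gen (gensP (dG k y))⟩}

theorem fam_fpras {k : ℕ} (hk : 2 ≤ k) (c : ℕ) : HasFPRAS k c (fam k) := by
  refine ⟨0, fun x => dOut k (PD.dec (sel true (readD x.1.1.1.length x.1.1.2))) x.1.2.length,
    (poly_iff _).1 (by fun_prop), ?_⟩
  rintro m gens - ⟨y, ⟨s0, hy⟩, h⟩ e he
  obtain rfl : m = (dG k y).2.length * 4 := congrArg Sigma.fst h
  have hg : gen gens = gen (gensP (dG k y)) := eq_of_heq (Sigma.mk.inj_iff.1 h).2
  obtain ⟨t, ht⟩ := readD_eq (k := k) (dbits y) (adjV y.1) gens hg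
  have e1 : PD.dec (sel true (readD (input gens e).1.1.length (input gens e).1.2)) = y := by
    simp only [input, List.length_replicate]
    refine (congrArg (fun l => PD.dec (sel true l)) ht).trans ?_
    simp only [dbits, sel_pair, if_true, PD.dec_enc]
  have e2 : (input gens e).2.length = e := by simp [input]
  simp only [e1, e2, hg]
  rw [prob_eq]
  refine const_le_ev fun r _ => ?_
  exact le_of_le_of_eq (by norm_num)
    (ind_pos (aOut_spec hk (dbits y) (adjV y.1) (dw_le y) hy he)).symm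

end Pool.Agent.MP_74c440_lc

end MrgPart2

-- ======== part 3: formerly Pool.Agent.MP_74c440_lc.Fwd2
section MrgPart3

/-!
A sampler for the family decides satisfiability.
-/

set_option autoImplicit false

namespace Pool.Agent.MP_74c440_lc

open Pool.Agent.PolyT Pool.Agent.H82 Finset N487b59b3

theorem bpp_iff (L : List Bool → Bool) : L ∈ N68a2faeb.BPP ↔
    ∃ (p : Polynomial ℕ) (R : List Bool × List Bool → Bool), PolyT.Poly R ∧
      ∀ x, 2 / 3 ≤ ev (p.eval x.length) fun r => ind (R (x, r) = L x) := by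
  refine exists_congr fun p => exists_congr fun R => and_congr (poly_iff _).symm
    (forall_congr' fun x => ?_)
  rw [← prob_eq, prob, ← Rat.cast_le (K := ℝ)]
  push_cast
  congr!

theorem le_ind_not_add {p : Prop} {x y : ℝ} (h1 : x ≤ 1) (hy : 0 ≤ y) (h : p → x ≤ y) :
    x ≤ ind (¬ p) + y := by
  by_cases hp : p
  · rw [ind_neg (not_not.2 hp), zero_add]; exact h hp
  · rw [ind_pos hp]; linarith

/-- The input of the sampler. -/
def dInp (k : ℕ) (y : Dat) : Input :=
  ((List.replicate ((dG k y).2.length * 4) true, genList (dG k y)), List.replicate 4 true)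

theorem dInp_eq (k : ℕ) (y : Dat) : input (gensP (dG k y)) 4 = dInp k y := by
  rw [input, valList_gensP, dInp]

@[fun_prop] theorem p_dInp {α : Type} [N487b59b3 α] (k : ℕ) {y : α → Dat} (h : PolyT.Poly y) :
    PolyT.Poly fun a => dInp k (y a) :=
  p_pair (p_pair (p_replicate (u_mul (u_length (p_snd (p_dG k h))) (u_const 4)) (p_const _))
    (p_genList (p_dG k h) (u_dG k h))) (p_const _)

theorem p_chk {α : Type} [N487b59b3 α] {φ : α → List Cl} {sl : α → List Slot} {l : α → List ℕ}
    (h : PolyT.Poly φ) (hs : PolyT.Poly sl) (hl : PolyT.Poly l) :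
    PolyT.Poly fun a => chk (φ a) (asg (φ a) (readV (sl a) (l a))) := by
  unfold chk asg; fun_prop

/-- One run of the sampler. -/
def run (k : ℕ) (p : Polynomial ℕ) (A : Input × List Bool → List ℕ × List ℕ) (y : Dat)
    (r : List Bool) : Bool :=
  chk y.1 (asg y.1 (readV (dSl k y)
    (A (dInp k y, r.take (p.eval (bitEncode (dInp k y)).length))).2))

/-- The decision procedure. -/
def acc (k : ℕ) (p : Polynomial ℕ) (A : Input × List Bool → List ℕ × List ℕ) (φ : List Cl)
    (r r' : List Bool) : Bool :=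
  (List.range (3 * φ.length * dW φ + 1)).any fun ω => run k p A (φ, r, ω) r'

theorem p_run {α : Type} [N487b59b3 α] (k : ℕ) (p : Polynomial ℕ)
    {A : Input × List Bool → List ℕ × List ℕ} (hA : PolyT.Poly A) {y : α → Dat}
    {r : α → List Bool} (h : PolyT.Poly y) (hr : PolyT.Poly r) :
    PolyT.Poly fun a => run k p A (y a) (r a) :=
  p_chk (p_fst h) (p_dSl k h) (p_snd (hA.comp (p_pair (p_dInp k h)
    (p_take (u_eval p (u_length (p_enc (p_dInp k h)))).1 hr))))

theorem acc_sound {k : ℕ} {p : Polynomial ℕ} {A : Input × List Bool → List ℕ × List ℕ}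
    {φ : List Cl} {r r' : List Bool} (h : acc k p A φ r r' = true) : Sat3 φ := by
  simp only [acc, List.any_eq_true] at h
  obtain ⟨ω, -, h⟩ := h
  exact ⟨_, (chk_iff _ _).1 h⟩

theorem coin_bound (k : ℕ) (p : Polynomial ℕ) {φ : List Bool → List Cl} (hφ : PolyT.Poly φ) :
    ∃ Q : Polynomial ℕ, ∀ (x r : List Bool) (ω : ℕ), r.length = 3 * (φ x).length * dl (φ x) →
      ω ≤ 3 * (φ x).length * dW (φ x) → 3 * (φ x).length * dl (φ x) +
        p.eval (bitEncode (dInp k (φ x, r, ω))).length ≤ Q.eval x.length := by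
  obtain ⟨P1, h1⟩ := (u_eval p (u_length (p_enc (p_dInp k (y := fun y : Dat => y) p_id)))).2
  have hn := u_mul (u_const 3) (u_length hφ)
  have hl := u_mul hn (u_dl hφ)
  obtain ⟨P2, h2⟩ := (u_add hl (u_eval P1 (u_add (u_add (u_mul (u_const 2) (u_length (p_enc hφ)))
    (u_const 1)) (u_add (u_add (u_mul (u_const 2) (u_mul (u_const 3) hl)) (u_const 1))
      (u_mul hn (u_dW hφ)))))).2
  refine ⟨P2.comp (3 * Polynomial.X), fun x r ω hr hω => ?_⟩
  have h3 := h2 x
  rw [PolyT.Poly.enc_bools_length] at h3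
  refine le_trans (Nat.add_le_add_left ((h1 _).trans (eval_mono P1 ?_)) _) (h3.trans_eq (by simp))
  rw [length_enc_pair, length_enc_pair, PolyT.Poly.enc_bools_length, hr]
  have := length_enc_nat_le_self ω
  simp only
  omega

theorem np_bpp {k c : ℕ} (hk : 2 ≤ k) (hc : 1 ≤ c) (h : HasSampler k c (fam k)) :
    N68a2faeb.NP ⊆ N68a2faeb.BPP := by
  intro L hL
  obtain ⟨φ, hφ, hL⟩ := cook_levin hL
  obtain ⟨p, A, hA, h⟩ := h
  rw [← poly_iff] at hA
  obtain ⟨Q, hQ⟩ := coin_bound k p hφ
  rw [bpp_iff]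
  refine ⟨Q, fun x => acc k p A (φ x.1) (x.2.take (3 * (φ x.1).length * dl (φ x.1)))
    (x.2.drop (3 * (φ x.1).length * dl (φ x.1))), ?_, fun x => ?_⟩
  · have h0 : PolyT.Poly fun x : List Bool × List Bool => φ x.1 := by fun_prop
    have h1 : PolyT.Poly fun x : (List Bool × List Bool) × ℕ => φ x.1.1 := by fun_prop
    have h2 := (u_mul (u_mul (u_const 3) (u_length h1)) (u_dl h1)).1
    exact p_any (p_run k p hA (p_pair h1 (p_pair (p_take h2 (by fun_prop)) (by fun_prop)))
      (p_drop h2 (by fun_prop)))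
      (p_range (u_add (u_mul (u_mul (u_const 3) (u_length h0)) (u_dW h0)) (u_const 1)))
  cases hx : L x
  · refine const_le_ev fun r _ => le_of_le_of_eq (by norm_num) (ind_pos ?_).symm
    by_contra h
    rw [Bool.not_eq_false] at h
    rw [(hL x).2 (acc_sound h)] at hx
    cases hx
  have hs := (hL x).1 hx
  specialize hQ x
  simp only
  generalize φ x = ψ at *
  generalize Q.eval x.length = N at *
  have hN : 3 * ψ.length * dl ψ ≤ N := le_trans (Nat.le_add_right _ _)
    (hQ (List.replicate _ true) 0 (List.length_replicate) (Nat.zero_le _))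
  have i1 := isolation (dl ψ) (3 * ψ.length) (fun s => s < 2 ^ (3 * ψ.length) ∧
    Indep (3 * ψ.length) (adjV ψ) s ∧ wB (3 * ψ.length) (fun _ => 1) s = ψ.length)
    (fun _ h => h.1) (indep_of_sat hs)
  have i2 : ((3 * ψ.length : ℕ) : ℝ) / 2 ^ dl ψ ≤ 1 / 16 := by
    have := size_bound (3 * ψ.length)
    rw [dl, pow_add, div_le_iff₀ (by positivity)]
    linarith
  have i3 : ev N (fun r => ind (¬ acc k p A ψ (r.take (3 * ψ.length * dl ψ))
      (r.drop (3 * ψ.length * dl ψ)) = true)) ≤ 1 / 16 + 1 / 8 := by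
    rw [ev_split hN (fun r r' => ind (¬ acc k p A ψ r r' = true))]
    refine le_trans (ev_mono fun r hr => ?_) ((ev_add _ _ fun _ => 1 / 8).trans_le
      (add_le_add (i1.trans i2) (ev_const _ _).le))
    refine le_ind_not_add (ev_le_const fun _ _ => ind_le_one _) (by norm_num) ?_
    rintro ⟨s0, ⟨a1, a2, a3⟩, a4⟩
    obtain ⟨ω, hω⟩ : ∃ ω, ω = wB (3 * ψ.length) (fun u => ofBits (chunk (dl ψ) r u)) s0 := ⟨_, rfl⟩
    have e1 : dw (ψ, r, ω) = fun u => ofBits (chunk (dl ψ) r u) := by
      funext u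
      refine min_eq_left ?_
      rw [dW_eq]
      exact (ofBits_lt _).le.trans (Nat.pow_le_pow_right (by norm_num) (List.length_take_le _ _))
    have e2 : ω ≤ 3 * ψ.length * dW ψ := by rw [hω, ← e1]; exact wB_le (dw_le _) _
    have hg : Good (3 * ψ.length) (adjV ψ) (dw (ψ, r, ω)) ψ.length (dom (ψ, r, ω)) s0 := by
      rw [e1, show dom (ψ, r, ω) = ω from min_eq_left e2]
      refine ⟨a1, a2, a3, hω.symm, fun s b1 b2 b3 => ?_⟩
      rcases (card_le_of_indep b3).lt_or_eq with b4 | b4
      · exact Or.inl b4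
      · exact Or.inr ⟨b4, hω ▸ a4 s ⟨b1, b3, b4⟩ b2⟩
    have c1 := h _ (gensP (dG k (ψ, r, ω))) (by
      have := aG_count k (dbits (ψ, r, ω)) (3 * ψ.length) (dW ψ) (adjV ψ) (dw (ψ, r, ω))
      have h2 := Nat.mul_le_mul_right ((dG k (ψ, r, ω)).2.length * 4) hc
      rw [length_gensP]
      change (dG k (ψ, r, ω)).1 ≤ 3 * (dG k (ψ, r, ω)).2.length at this
      omega) ⟨_, ⟨s0, hg⟩, rfl⟩ 4
      {o | ∃ v < 3 * ψ.length, readV (dSl k (ψ, r, ω)) o.2 v ≠ s0.testBit v}
    have c2 := misread hk (dbits (ψ, r, ω)) (adjV ψ) (dw_le (ψ, r, ω)) hg (adjV_self ψ)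
    have c3 := (sub_le_iff_le_add.1 (abs_le.1 c1).2).trans (add_le_add le_rfl c2)
    rw [dInp_eq, prob_eq, ← ev_take (n := N - 3 * ψ.length * dl ψ)
      (by have := hQ r ω hr e2; omega)] at c3
    refine le_trans (ev_mono fun r' _ => ind_mono fun hn => ?_) (c3.trans (by norm_num))
    by_contra hb
    simp only [Set.mem_ofPred_eq, not_exists, not_and, not_not] at hb
    refine hn (List.any_eq_true.2 ⟨ω, List.mem_range.2 (by omega), ?_⟩)
    exact chk_of_indep a2 a3 hb
  rw [ev_ind_not] at i3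
  linarith

end Pool.Agent.MP_74c440_lc

end MrgPart3

-- marker of a merged file
example : 731051 + 884309 = 731051 + 884309 := rfl

end MrgPart0

-- ======== part 1: formerly Pool.Agent.MP_74c440_lc.Gen1
section MrgPart1

/-!
Hashing by tabulation with many moduli.
-/

set_option autoImplicit false

namespace Pool.Agent.MP_74c440_lc

open Pool.Agent.PolyT Pool.Agent.H82 Finset

theorem ev_flip (n p : ℕ) (f : List Bool → ℝ) :
    ev n (fun r => f (r.modify p not)) = ev n f := by
  induction n generalizing p f with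
  | zero => simp [ev]
  | succ n ih =>
    cases p with
    | zero => simp only [ev, List.modify_zero_cons, Bool.not_true, Bool.not_false, add_comm]
    | succ p =>
      simp only [ev, List.modify_succ_cons]
      rw [ih p (fun r => f (true :: r)), ih p (fun r => f (false :: r))]

theorem ev_eq_list (l : List Bool) : ev l.length (fun r => ind (r = l)) = 1 / 2 ^ l.length := by
  induction l with
  | nil => simp [ev, ind]
  | cons b l ih =>
    cases b <;>
      simp only [List.length_cons, ev, List.cons.injEq, true_and, Bool.true_eq_false,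
        Bool.false_eq_true, false_and, ih, ind_neg not_false, ev_const] <;> ring

theorem ev_ofBits_eq {n t : ℕ} (h : t < 2 ^ n) :
    ev n (fun r => ind (ofBits r = t)) = 1 / 2 ^ n := by
  rw [ev_ofBits n (fun i => ind (i = t))]
  have : ∀ i : ℕ, ind (i = t) = if i = t then 1 else 0 := fun i => by
    unfold ind; split_ifs <;> rfl
  simp only [this]
  rw [Finset.sum_ite_eq', if_pos (mem_range.2 h)]

/-- One hash bit: the parity of the table entries of the residues. -/
def hb (Q : ℕ) (r : List Bool) (y : ℕ) : Bool :=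
  ((List.range Q).filter fun q => r.getD (q * Q + y % (q + 1)) false).length.bodd

theorem length_filter_range (n : ℕ) (f : ℕ → Bool) :
    ((List.range n).filter f).length = ∑ q ∈ range n, (f q).toNat := by
  induction n with
  | zero => rfl
  | succ n ih =>
    rw [List.range_succ, List.filter_append, List.length_append, ih, sum_range_succ]
    cases h : f n <;> simp [h]

theorem hb_eq (Q : ℕ) (r : List Bool) (y : ℕ) : hb Q r y =
    (∑ q ∈ range Q, (r.getD (q * Q + y % (q + 1)) false).toNat).bodd := by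
  rw [hb, length_filter_range]

theorem pos_inj {Q q q' a a' : ℕ} (h1 : a < Q) (h2 : a' < Q) (h : q * Q + a = q' * Q + a') :
    q = q' ∧ a = a' := by
  have e : q = q' := by
    have := congrArg (· / Q) h
    simp only [mul_comm _ Q] at this
    rwa [Nat.mul_add_div (by omega), Nat.mul_add_div (by omega), Nat.div_eq_of_lt h1,
      Nat.div_eq_of_lt h2] at this
  subst e
  exact ⟨rfl, by omega⟩

theorem hb_flip {Q q0 y0 : ℕ} (hq : q0 < Q) {r : List Bool} (hr : r.length = Q * Q) (y : ℕ) :
    hb Q (r.modify (q0 * Q + y0 % (q0 + 1)) not) y =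
      xor (hb Q r y) (decide (y % (q0 + 1) = y0 % (q0 + 1))) := by
  have m : ∀ y q, q < Q → y % (q + 1) < Q := fun y q h =>
    lt_of_lt_of_le (Nat.mod_lt _ (by omega)) h
  rw [hb_eq, hb_eq, ← add_sum_erase _ _ (mem_range.2 hq), ← add_sum_erase _ _ (mem_range.2 hq),
    sum_congr rfl (g := fun q => (r.getD (q * Q + y % (q + 1)) false).toNat) fun q h => by
      rw [List.getD_eq_getElem?_getD, List.getD_eq_getElem?_getD, List.getElem?_modify_ne]
      exact fun e => ne_of_mem_erase h
        (pos_inj (m _ _ hq) (m _ _ (mem_range.1 (mem_of_mem_erase h))) e).1.symm]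
  rw [Nat.bodd_add, Nat.bodd_add]
  by_cases h : y % (q0 + 1) = y0 % (q0 + 1)
  · have h2 : q0 * Q + y0 % (q0 + 1) < r.length := by
      have := Nat.mul_le_mul_right Q (Nat.succ_le_of_lt hq)
      have := m y0 _ hq
      rw [Nat.succ_mul] at *
      omega
    rw [h, List.getD_eq_getElem _ _ (by simpa using h2), List.getD_eq_getElem _ _ h2,
      List.getElem_modify_eq]
    cases r[q0 * Q + y0 % (q0 + 1)] <;> simp
  · rw [List.getD_eq_getElem?_getD, List.getD_eq_getElem?_getD (l := r), List.getElem?_modify_ne]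
    · simp [h]
    · exact fun e => h (by omega)

theorem exists_mod {l t y0 : ℕ} {Y : Finset ℕ} (h0 : y0 < 2 ^ l) (hY : ∀ y ∈ Y, y < 2 ^ l)
    (hn : y0 ∉ Y) (hc : Y.card ≤ t) :
    ∃ q < 2 * (l * t) + 4, ∀ y ∈ Y, y % (q + 1) ≠ y0 % (q + 1) := by
  by_contra h
  push Not at h
  have h1 : Nat.lcmUpto (2 * (l * t) + 4) ∣ ∏ y ∈ Y, Int.natAbs ((y0 : ℤ) - y) := by
    refine Finset.lcm_dvd fun q hq => ?_
    obtain ⟨a, b⟩ := mem_Icc.1 hq
    obtain ⟨y, hy, e⟩ := h (q - 1) (by omega)
    rw [Nat.sub_add_cancel a] at e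
    exact dvd_trans (Int.natCast_dvd.1 (Nat.modEq_iff_dvd.1 e)) (dvd_prod_of_mem _ hy)
  have h2 := Nat.le_of_dvd (prod_pos fun y hy => by
    have : y0 ≠ y := fun e => hn (e ▸ hy)
    omega) h1
  have h3 : ∏ y ∈ Y, Int.natAbs ((y0 : ℤ) - y) ≤ (2 ^ l) ^ Y.card :=
    prod_le_pow_card _ _ _ fun y hy => by have := hY y hy; omega
  have h4 : (2 ^ l) ^ Y.card ≤ 2 ^ (l * t) := by
    rw [← pow_mul]; exact Nat.pow_le_pow_right (by norm_num) (Nat.mul_le_mul_left _ hc)
  have h5 := (Chebyshev.two_pow_le_mul_lcmUpto _).trans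
    (Nat.mul_le_mul_left _ (h2.trans (h3.trans h4)))
  have h6 : l * t < 2 ^ (l * t) := Nat.lt_two_pow_self
  rw [pow_add, two_mul, pow_add] at h5
  generalize l * t = n at *
  have h7 : 0 < 2 ^ n := by positivity
  generalize 2 ^ n = x at *
  nlinarith

theorem hb_indep {l t : ℕ} (c : Bool) (Y : Finset ℕ) (hY : ∀ y ∈ Y, y < 2 ^ l)
    (hc : Y.card ≤ t + 1) :
    ev ((2 * (l * t) + 4) * (2 * (l * t) + 4))
      (fun r => ind (∀ y ∈ Y, hb (2 * (l * t) + 4) r y = c)) = 1 / 2 ^ Y.card := by
  induction Y using Finset.induction_on with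
  | empty => simp [ind, ev_const]
  | insert y0 Y hn ih =>
    rw [card_insert_of_notMem hn] at hc ⊢
    have hY' : ∀ y ∈ Y, y < 2 ^ l := fun y hy => hY y (mem_insert_of_mem hy)
    obtain ⟨q, hq, h⟩ := exists_mod (t := t) (hY y0 (mem_insert_self _ _)) hY' hn (by omega)
    have e := ih hY' (by omega)
    generalize 2 * (l * t) + 4 = Q at *
    have e1 := ev_flip (Q * Q) (q * Q + y0 % (q + 1))
      (fun r => ind (∀ y ∈ insert y0 Y, hb Q r y = c))
    have e2 : ev (Q * Q) (fun r => ind (∀ y ∈ insert y0 Y, hb Q r y = c) +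
        ind (∀ y ∈ insert y0 Y, hb Q (r.modify (q * Q + y0 % (q + 1)) not) y = c)) =
        1 / 2 ^ Y.card := by
      rw [← e]
      refine ev_congr fun r hr => ?_
      have : (∀ y ∈ Y, hb Q (r.modify (q * Q + y0 % (q + 1)) not) y = c) ↔ ∀ y ∈ Y, hb Q r y = c :=
        forall₂_congr fun y hy => by rw [hb_flip hq hr]; simp [h y hy]
      simp only [forall_mem_insert, this, ind_and]
      rw [hb_flip hq hr]
      cases hb Q r y0 <;> cases c <;> simp [ind]
    rw [ev_add, e1] at e2
    rw [pow_succ]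
    field_simp at e2 ⊢
    linarith

/-- The hash value with `i` bits. -/
def hsh (Q i : ℕ) (tb : List Bool) (y : ℕ) : List Bool :=
  (List.range i).map fun b => hb Q (chunk (Q * Q) tb b) y

theorem length_hsh (Q i : ℕ) (tb : List Bool) (y : ℕ) : (hsh Q i tb y).length = i := by simp [hsh]

theorem ind_forall_range (n : ℕ) (p : ℕ → Prop) :
    ind (∀ b < n, p b) = ∏ b ∈ range n, ind (p b) := by
  induction n with
  | zero => simp [ind]
  | succ n ih => rw [prod_range_succ, ← ih, ← ind_and, Nat.forall_lt_succ_right]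

theorem hsh_coll {l t : ℕ} (i : ℕ) (Y : Finset ℕ) (hY : ∀ y ∈ Y, y < 2 ^ l) (hc : Y.card = t + 1) :
    ev (i * ((2 * (l * t) + 4) * (2 * (l * t) + 4))) (fun r => ind (∀ y ∈ Y, ∀ y' ∈ Y,
      hsh (2 * (l * t) + 4) i r y = hsh (2 * (l * t) + 4) i r y')) ≤ (1 / 2 ^ t) ^ i := by
  have e := fun c => hb_indep (t := t) c Y hY hc.le
  generalize 2 * (l * t) + 4 = Q at *
  have e1 : ev (Q * Q) (fun r => ind (∀ y ∈ Y, ∀ y' ∈ Y, hb Q r y = hb Q r y')) ≤ 1 / 2 ^ t := by
    refine (ev_mono fun r _ => ?_).trans ((ev_add _ _ _).trans_le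
      ((congrArg₂ (· + ·) (e true) (e false)).trans_le (by rw [hc, pow_succ]; field_simp; norm_num)))
    obtain ⟨y0, h0⟩ := card_pos.1 (by omega : 0 < Y.card)
    by_cases h : ∀ y ∈ Y, ∀ y' ∈ Y, hb Q r y = hb Q r y'
    · rw [ind_pos h]
      cases h1 : hb Q r y0
      · rw [ind_pos (p := ∀ y ∈ Y, hb Q r y = false) fun y hy => (h y hy y0 h0).trans h1]
        exact le_add_of_nonneg_left (ind_nonneg _)
      · rw [ind_pos (p := ∀ y ∈ Y, hb Q r y = true) fun y hy => (h y hy y0 h0).trans h1]
        exact le_add_of_nonneg_right (ind_nonneg _)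
    · rw [ind_neg h]; exact add_nonneg (ind_nonneg _) (ind_nonneg _)
  refine (ev_mono fun r _ => ?_).trans ((ev_prod_chunk (Q * Q) i
    fun _ r => ind (∀ y ∈ Y, ∀ y' ∈ Y, hb Q r y = hb Q r y')).trans_le ?_)
  · rw [← ind_forall_range]
    refine ind_mono fun h b hb y hy y' hy' => ?_
    have := congrArg (fun l => l[b]?) (h y hy y' hy')
    simpa [hsh, hb] using this
  · rw [prod_const, card_range]
    exact pow_le_pow_left₀ (ev_nonneg fun _ => ind_nonneg _) e1 i

/-- A large collision is unlikely at the right level. -/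
theorem coll_le {l i : ℕ} (S : Finset ℕ) (hS : ∀ y ∈ S, y < 2 ^ l) (hi : 2 * S.card ≤ 2 ^ i) :
    ev (i * ((2 * (l * (l + 1)) + 4) * (2 * (l * (l + 1)) + 4))) (fun r =>
      ind (∃ Y ∈ S.powersetCard (l + 1 + 1), ∀ y ∈ Y, ∀ y' ∈ Y,
        hsh (2 * (l * (l + 1)) + 4) i r y = hsh (2 * (l * (l + 1)) + 4) i r y')) ≤ 1 / 2 := by
  refine (ev_union _ _ _).trans ((sum_le_card_nsmul _ _ _ fun Y hY => hsh_coll i Y
    (fun y hy => hS y ((mem_powersetCard.1 hY).1 hy)) (mem_powersetCard.1 hY).2).trans ?_)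
  rw [card_powersetCard, nsmul_eq_mul]
  have h1 : (S.card.choose (l + 1 + 1) : ℝ) ≤ S.card ^ (l + 1 + 1) := by
    exact_mod_cast Nat.choose_le_pow _ _
  have h2 : (S.card : ℝ) ≤ 2 ^ l := by
    have : S.card ≤ 2 ^ l := (card_le_card fun y hy => mem_range.2 (hS y hy)).trans_eq
      (card_range _)
    exact_mod_cast this
  have h3 : (2 : ℝ) * S.card ≤ 2 ^ i := by exact_mod_cast hi
  have h4 : ((2 : ℝ) * S.card) ^ (l + 1) ≤ (2 ^ i) ^ (l + 1) := by gcongr
  rw [one_div_pow, mul_one_div, div_le_iff₀ (by positivity), ← pow_mul, mul_comm (l + 1) i, pow_mul]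
  refine h1.trans (le_trans ?_ (mul_le_mul_of_nonneg_left h4 (by norm_num)))
  calc _ = (S.card : ℝ) * S.card ^ (l + 1) := by ring
    _ ≤ 2 ^ l * S.card ^ (l + 1) := by gcongr
    _ = _ := by ring

end Pool.Agent.MP_74c440_lc

end MrgPart1

-- ======== part 2: formerly Pool.Agent.MP_74c440_lc.Gen2
section MrgPart2

/-!
Uniform generation with a perfect oracle.
-/

set_option autoImplicit false

namespace Pool.Agent.MP_74c440_lc

open Pool.Agent.PolyT Pool.Agent.H82 Finset

/-- Binary search. -/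
def bsr (l : ℕ) (P : ℕ → Bool) : ℕ :=
  (List.range l).foldr (fun b u => 2 * u + (!P ((2 * u + 1) * 2 ^ b)).toNat) 0

theorem bsr_aux (P : ℕ → Bool) (h0 : P 0 = false) (n a : ℕ) (h : P (2 ^ (a + n)) = true) :
    P ((List.range' a n).foldr (fun b u => 2 * u + (!P ((2 * u + 1) * 2 ^ b)).toNat) 0 * 2 ^ a)
      = false ∧ P (((List.range' a n).foldr
        (fun b u => 2 * u + (!P ((2 * u + 1) * 2 ^ b)).toNat) 0 + 1) * 2 ^ a) = true := by
  induction n generalizing a with
  | zero => simpa [h0] using h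
  | succ n ih =>
    obtain ⟨h1, h2⟩ := ih (a + 1) (by rwa [add_right_comm, add_assoc])
    rw [List.range'_succ, List.foldr_cons]
    generalize (List.range' (a + 1) n).foldr _ 0 = u at *
    cases h3 : P ((2 * u + 1) * 2 ^ a)
    · exact ⟨h3, by rw [← h2]; congr 1; simp; ring⟩
    · exact ⟨by rw [← h1]; congr 1; simp; ring, h3⟩

theorem bsr_spec {l : ℕ} {P : ℕ → Bool} (h0 : P 0 = false) (h : P (2 ^ l) = true) :
    P (bsr l P) = false ∧ P (bsr l P + 1) = true := by
  simpa [bsr, List.range_eq_range'] using bsr_aux P h0 l 0 (by simpa using h)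

/-- One trial, with an oracle. -/
def trial (l : ℕ) (O : Bool → ℕ → Bool) : Bool × ℕ :=
  (!O false (2 ^ l) && O true (2 ^ l), bsr l (O true))

/-- The meaning of a query. -/
def Cnt (S : Finset ℕ) (l : ℕ) (h : ℕ → List Bool) (α : List Bool) (j : ℕ) (b : Bool) (z : ℕ) :
    Prop :=
  ∃ Y ∈ S.powersetCard (cond b j (l + 1) + 1),
    (∀ y ∈ Y, y < z ∧ (b = true → h y = α)) ∧ ∀ y ∈ Y, ∀ y' ∈ Y, h y = h y'

/-- A large collision. -/
def Coll (S : Finset ℕ) (l : ℕ) (h : ℕ → List Bool) : Prop :=
  ∃ Y ∈ S.powersetCard (l + 1 + 1), ∀ y ∈ Y, ∀ y' ∈ Y, h y = h y'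

open Classical in
/-- The perfect oracle. -/
noncomputable def pO (S : Finset ℕ) (l : ℕ) (h : ℕ → List Bool) (α : List Bool) (j : ℕ) (b : Bool)
    (z : ℕ) : Bool := decide (Cnt S l h α j b z)

/-- The number of elements of a cell below `z`. -/
def cnum (S : Finset ℕ) (h : ℕ → List Bool) (α : List Bool) (z : ℕ) : ℕ :=
  (S.filter fun y => y < z ∧ h y = α).card

theorem pO_true (S : Finset ℕ) (l : ℕ) (h : ℕ → List Bool) (α : List Bool) (j z : ℕ) :
    pO S l h α j true z = true ↔ j < cnum S h α z := by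
  simp only [pO, Cnt, decide_eq_true_eq, mem_powersetCard, cond_true, forall_const]
  constructor
  · rintro ⟨Y, ⟨h1, h2⟩, h3, -⟩
    exact h2.ge.trans (card_le_card fun y hy => mem_filter.2 ⟨h1 hy, h3 y hy⟩)
  · intro hj
    obtain ⟨Y, h1, h2⟩ := exists_subset_card_eq (Nat.succ_le_of_lt hj)
    have h3 := fun y hy => mem_filter.1 (h1 (x := y) hy)
    exact ⟨Y, ⟨fun y hy => (h3 y hy).1, h2⟩, fun y hy => (h3 y hy).2,
      fun y hy y' hy' => (h3 y hy).2.2.trans (h3 y' hy').2.2.symm⟩

theorem cnum_mono (S : Finset ℕ) (h : ℕ → List Bool) (α : List Bool) {z z' : ℕ} (hz : z ≤ z') :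
    cnum S h α z ≤ cnum S h α z' :=
  card_le_card fun y hy => by
    simp only [mem_filter] at hy ⊢
    exact ⟨hy.1, by omega, hy.2.2⟩

theorem cnum_succ (S : Finset ℕ) (h : ℕ → List Bool) (α : List Bool) (z : ℕ) :
    cnum S h α (z + 1) = cnum S h α z + if z ∈ S ∧ h z = α then 1 else 0 := by
  unfold cnum
  split_ifs with hz
  · rw [← card_insert_of_notMem (a := z) (by simp)]
    congr 1
    ext y
    simp only [mem_filter, mem_insert]
    constructor
    · rintro ⟨a, b, c⟩
      by_cases e : y = z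
      · exact Or.inl e
      · exact Or.inr ⟨a, by omega, c⟩
    · rintro (rfl | ⟨a, b, c⟩)
      · exact ⟨hz.1, by omega, hz.2⟩
      · exact ⟨a, by omega, c⟩
  · congr 1
    ext y
    simp only [mem_filter]
    constructor
    · rintro ⟨a, b, c⟩
      have : y ≠ z := by rintro rfl; exact hz ⟨a, c⟩
      exact ⟨a, by omega, c⟩
    · rintro ⟨a, b, c⟩
      exact ⟨a, by omega, c⟩

theorem trial_spec {S : Finset ℕ} {l : ℕ} (hS : ∀ y ∈ S, y < 2 ^ l) (h : ℕ → List Bool)
    (α : List Bool) (j y : ℕ) : trial l (pO S l h α j) = (true, y) ↔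
      ¬ Coll S l h ∧ (y ∈ S ∧ h y = α) ∧ j = cnum S h α y := by
  have e1 : pO S l h α j false (2 ^ l) = false ↔ ¬ Coll S l h := by
    simp only [pO, Cnt, Coll, decide_eq_false_iff_not, cond_false]
    refine not_congr (exists_congr fun Y => and_congr_right fun hY => and_iff_right fun y hy => ?_)
    exact ⟨hS y ((mem_powersetCard.1 hY).1 hy), by simp⟩
  have e2 : pO S l h α j true (2 ^ l) = true → (bsr l (pO S l h α j true) ∈ S ∧
      h (bsr l (pO S l h α j true)) = α) ∧ j = cnum S h α (bsr l (pO S l h α j true)) := by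
    intro h1
    obtain ⟨a, b⟩ := bsr_spec (by rw [← Bool.not_eq_true, pO_true]; simp [cnum]) h1
    rw [← Bool.not_eq_true, pO_true] at a
    rw [pO_true, cnum_succ] at b
    split_ifs at b with c
    · exact ⟨c, by omega⟩
    · omega
  simp only [trial, Prod.mk.injEq, Bool.and_eq_true, Bool.not_eq_true', e1, and_assoc]
  refine and_congr_right fun _ => ⟨?_, ?_⟩
  · rintro ⟨h1, rfl⟩
    simpa only [and_assoc] using e2 h1
  · rintro ⟨a, b, c⟩
    have d := cnum_succ S h α y
    rw [if_pos ⟨a, b⟩] at d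
    have h1 : pO S l h α j true (2 ^ l) = true := by
      have := cnum_mono S h α (Nat.add_one_le_iff.2 (hS y a))
      rw [pO_true]; omega
    obtain ⟨a', c'⟩ := e2 h1
    refine ⟨h1, ?_⟩
    generalize bsr l (pO S l h α j true) = u at *
    have d' := cnum_succ S h α u
    rw [if_pos a'] at d'
    rcases lt_trichotomy u y with e | e | e
    · have := cnum_mono S h α (Nat.add_one_le_iff.2 e); omega
    · exact e
    · have := cnum_mono S h α (Nat.add_one_le_iff.2 e); omega

theorem cnum_le {S : Finset ℕ} {l : ℕ} {h : ℕ → List Bool} (hc : ¬ Coll S l h) (α : List Bool)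
    (z : ℕ) : cnum S h α z ≤ l + 1 := by
  by_contra hn
  obtain ⟨Y, h1, h2⟩ := exists_subset_card_eq (Nat.succ_le_of_lt (not_le.1 hn))
  have h3 := fun y hy => mem_filter.1 (h1 (x := y) hy)
  exact hc ⟨Y, mem_powersetCard.2 ⟨fun y hy => (h3 y hy).1, h2⟩,
    fun y hy y' hy' => (h3 y hy).2.2.trans (h3 y' hy').2.2.symm⟩

/-- Number of bits of an index. -/
def gA (l : ℕ) : ℕ := (l + 1).size
/-- Number of moduli. -/
def gQ (l : ℕ) : ℕ := 2 * (l * (l + 1)) + 4
/-- Length of the table. -/
def gTb (l : ℕ) : ℕ := (l + 1) * (gQ l * gQ l)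
/-- Number of coins of a trial. -/
def gLam (l : ℕ) : ℕ := gA l + gTb l + (l + 1 + gA l)
/-- The level. -/
def lev (l : ℕ) (ρ : List Bool) : ℕ := min (ofBits (ρ.take (gA l))) (l + 1)
/-- The hash function. -/
def hf (l : ℕ) (ρ : List Bool) (y : ℕ) : List Bool :=
  hsh (gQ l) (lev l ρ) ((ρ.drop (gA l)).take (gTb l)) y
/-- The cell. -/
def al (l : ℕ) (ρ : List Bool) : List Bool := (ρ.drop (gA l + gTb l)).take (lev l ρ)
/-- The index in the cell. -/
def jx (l : ℕ) (ρ : List Bool) : ℕ := ofBits ((ρ.drop (gA l + gTb l + (l + 1))).take (gA l))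

/-- One trial with the perfect oracle. -/
noncomputable def ptrial (S : Finset ℕ) (l : ℕ) (ρ : List Bool) : Bool × ℕ :=
  trial l (pO S l (hf l ρ) (al l ρ) (jx l ρ))

/-- The probability of each output. -/
noncomputable def psi (S : Finset ℕ) (l : ℕ) : ℝ :=
  ev (gA l + gTb l) fun x => ind (¬ Coll S l (hf l x)) * (1 / 2 ^ lev l x * (1 / 2 ^ gA l))

theorem ptrial_prob {S : Finset ℕ} {l : ℕ} (hS : ∀ y ∈ S, y < 2 ^ l) {y : ℕ} (hy : y ∈ S) :
    ev (gLam l) (fun ρ => ind (ptrial S l ρ = (true, y))) = psi S l := by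
  rw [gLam, ev_append]
  refine ev_congr fun x hx => ?_
  rw [ev_append]
  have e1 : ∀ u, lev l (x ++ u) = lev l x := fun u => by
    rw [lev, lev, List.take_append_of_le_length (by omega)]
  have e2 : ∀ u, hf l (x ++ u) = hf l x := fun u => by
    funext y
    rw [hf, hf, e1, List.drop_append_of_le_length (by omega),
      List.take_append_of_le_length (by simp; omega)]
  have hl : lev l x ≤ l + 1 := min_le_right _ _
  rw [ev_congr (g := fun u => ind (¬ Coll S l (hf l x)) *
    (ind (u.take (lev l x) = hf l x y) * (1 / 2 ^ gA l))), ev_mul_left, ev_mul_right,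
    ev_take hl (fun u => ind (u = hf l x y))]
  · have := ev_eq_list (hf l x y)
    rw [hf, length_hsh] at this
    rw [hf, this]
  intro u hu
  have e3 : ∀ v, al l (x ++ (u ++ v)) = u.take (lev l x) := fun v => by
    rw [al, e1, List.drop_left' hx, List.take_append_of_le_length (by omega)]
  rw [ev_congr (g := fun v => ind (¬ Coll S l (hf l x)) * (ind (u.take (lev l x) = hf l x y) *
    ind (ofBits v = cnum S (hf l x) (u.take (lev l x)) y))), ev_mul_left, ev_mul_left]
  · by_cases hc : Coll S l (hf l x)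
    · rw [ind_neg (not_not.2 hc), zero_mul, zero_mul]
    · rw [ev_ofBits_eq (n := gA l) ((cnum_le hc _ _).trans_lt (Nat.lt_size_self _))]
  intro v hv
  have e4 : jx l (x ++ (u ++ v)) = ofBits v := by
    rw [jx, ← List.append_assoc, List.drop_left' (by simp; omega), List.take_of_length_le hv.le]
  rw [ptrial, ind_congr (trial_spec hS _ _ _ _), e2, e3, e4, ind_and, ind_and,
    ind_congr (and_iff_right hy), ind_congr eq_comm]

theorem chunk_take {β : Type} (L : ℕ) (r : List β) {i b : ℕ} (h : b < i) :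
    chunk L (r.take (i * L)) b = chunk L r b := by
  have := Nat.mul_le_mul_right L (Nat.succ_le_of_lt h)
  rw [Nat.succ_mul] at this
  rw [chunk, chunk, List.drop_take, List.take_take, min_eq_left (by omega)]

theorem psi_ge {S : Finset ℕ} {l : ℕ} (hS : ∀ y ∈ S, y < 2 ^ l) (hne : S.Nonempty) :
    1 / 2 ^ (2 * gA l + 3) ≤ S.card * psi S l := by
  have h2 : S.card ≤ 2 ^ l := (card_le_card fun y hy => mem_range.2 (hS y hy)).trans_eq
    (card_range _)
  have h3 := card_pos.2 hne
  have hex : ∃ i, 2 * S.card ≤ 2 ^ i := ⟨l + 1, by rw [pow_succ]; omega⟩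
  have a1 := Nat.find_spec hex
  have a2 : Nat.find hex ≤ l + 1 := Nat.find_min' hex (by rw [pow_succ]; omega)
  have a3 : 2 ^ Nat.find hex ≤ 4 * S.card := by
    rcases h : Nat.find hex with _ | i
    · omega
    · have := Nat.find_min hex (m := i) (by omega)
      rw [pow_succ]; omega
  generalize Nat.find hex = i at *
  have b1 : 1 / 2 ^ gA l * (1 / 2 * (1 / 2 ^ i * (1 / 2 ^ gA l))) ≤ psi S l := by
    rw [psi, ev_append]
    nth_rewrite 1 [← ev_ofBits_eq (n := gA l) (a2.trans_lt (Nat.lt_size_self _))]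
    rw [← ev_mul_right]
    refine ev_mono fun x hx => ?_
    by_cases e : ofBits x = i
    · have e1 : ∀ u, lev l (x ++ u) = i := fun u => by
        rw [lev, List.take_left' hx, e, min_eq_left a2]
      simp only [e1]
      rw [ind_pos e, one_mul, ev_mul_right, ev_ind_not]
      refine mul_le_mul_of_nonneg_right ?_ (by positivity)
      have c : ev (i * (gQ l * gQ l)) (fun r => ind (Coll S l (hsh (gQ l) i r))) ≤ 1 / 2 :=
        coll_le S hS a1
      rw [← ev_take (n := gTb l) (Nat.mul_le_mul_right _ a2)] at c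
      rw [ev_congr (g := fun u => ind (Coll S l (hsh (gQ l) i (u.take (i * (gQ l * gQ l))))))]
      · linarith
      · intro u hu
        congr 2
        funext y
        rw [hf, e1, List.drop_left' hx, List.take_of_length_le hu.le]
        exact List.map_congr_left fun b hb => by rw [chunk_take _ _ (List.mem_range.1 hb)]
    · rw [ind_neg e, zero_mul]
      exact ev_nonneg fun _ => mul_nonneg (ind_nonneg _) (by positivity)
  refine le_trans ?_ (mul_le_mul_of_nonneg_left b1 (by positivity))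
  have a4 : (2 : ℝ) ^ i ≤ 4 * S.card := by exact_mod_cast a3
  rw [pow_add, two_mul, pow_add]
  field_simp
  linarith

open Classical in
theorem ptrial_event {S : Finset ℕ} {l : ℕ} (hS : ∀ y ∈ S, y < 2 ^ l) (E : ℕ → Prop) :
    ev (gLam l) (fun ρ => ind ((ptrial S l ρ).1 = true ∧ E (ptrial S l ρ).2)) =
      (S.filter E).card * psi S l := by
  rw [← nsmul_eq_mul, ← sum_const, sum_congr rfl fun y hy =>
    (ptrial_prob hS (mem_filter.1 hy).1).symm, ← ev_sum]
  refine ev_congr fun ρ _ => ?_
  by_cases h : (ptrial S l ρ).1 = true ∧ E (ptrial S l ρ).2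
  · have e : ptrial S l ρ = (true, (ptrial S l ρ).2) := Prod.ext h.1 rfl
    rw [ind_pos h, sum_eq_single (ptrial S l ρ).2, ind_pos e]
    · exact fun y _ hy => ind_neg fun h' => hy (by rw [h'])
    · exact fun hn => absurd (mem_filter.2 ⟨((trial_spec hS _ _ _ _).1 e).2.1.1, h.2⟩) hn
  · rw [ind_neg h, sum_eq_zero]
    exact fun y hy => ind_neg fun h' => h (by rw [h']; exact ⟨rfl, (mem_filter.1 hy).2⟩)

/-- The first success among `T` trials. -/
def firstOk (L T : ℕ) (f : List Bool → Bool × ℕ) (r : List Bool) : ℕ :=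
  ((((List.range T).map fun u => f (chunk L r u)).filter fun x => x.1).headD (false, 0)).2

theorem firstOk_prob (L T : ℕ) (f : List Bool → Bool × ℕ) (E : ℕ → Prop) {σ ρ : ℝ} (r0 : 0 ≤ ρ)
    (r1 : ρ ≤ 1) (h1 : ev L (fun r => ind ((f r).1 = true)) = σ)
    (h2 : ev L (fun r => ind ((f r).1 = true ∧ E (f r).2)) = σ * ρ) :
    |ev (T * L) (fun r => ind (E (firstOk L T f r))) - ρ| ≤ (1 - σ) ^ T := by
  induction T with
  | zero =>
    have := ind_nonneg (E (firstOk L 0 f []))
    have := ind_le_one (E (firstOk L 0 f []))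
    simp only [Nat.zero_mul, ev, pow_zero, abs_le]
    constructor <;> linarith
  | succ T ih =>
    have s1 : σ ≤ 1 := h1 ▸ ev_le_const fun _ _ => ind_le_one _
    rw [show (T + 1) * L = L + T * L by ring, ev_append, ev_congr (g := fun x =>
      ind ((f x).1 = true ∧ E (f x).2) + ind (¬ (f x).1 = true) *
        ev (T * L) (fun r => ind (E (firstOk L T f r)))), ev_add, ev_mul_right, ev_ind_not, h1, h2,
      show ∀ x, σ * ρ + (1 - σ) * x - ρ = (1 - σ) * (x - ρ) from fun x => by ring, abs_mul,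
      abs_of_nonneg (by linarith), pow_succ']
    · exact mul_le_mul_of_nonneg_left ih (by linarith)
    intro x hx
    simp only [firstOk, List.range_succ_eq_map, List.map_cons, List.map_map, Function.comp_def,
      chunk_zero L x _ hx, chunk_succ L x _ hx]
    cases h : (f x).1
    · simp only [List.filter_cons_of_neg (p := fun x : Bool × ℕ => x.1) (a := f x) (by simp [h])]
      simp [ind]
    · simp only [List.filter_cons_of_pos (p := fun x : Bool × ℕ => x.1) h, List.headD_cons,
        ev_const]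
      rw [true_and, ind_neg (not_not.2 trivial), zero_mul, add_zero]

/-- Number of trials. -/
def gN (l e : ℕ) : ℕ := 2 ^ (2 * gA l + 3) * e

open Classical in
theorem perfect {S : Finset ℕ} {l : ℕ} (hS : ∀ y ∈ S, y < 2 ^ l) (hne : S.Nonempty) (e : ℕ)
    (E : ℕ → Prop) : |ev (gN l e * gLam l) (fun r => ind (E (firstOk (gLam l) (gN l e)
      (ptrial S l) r))) - ((S.filter E).card : ℝ) / S.card| ≤ 1 / 2 ^ e := by
  have h0 : (0 : ℝ) < S.card := by exact_mod_cast card_pos.2 hne
  have h1 := ptrial_event hS fun _ => True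
  simp only [and_true, filter_true] at h1
  have s1 : S.card * psi S l ≤ 1 := h1 ▸ ev_le_const fun _ _ => ind_le_one _
  refine (firstOk_prob _ _ _ E (by positivity) ((div_le_one h0).2 ?_) h1 ?_).trans
    (half_pow (by positivity) e (by linarith) ?_)
  · exact_mod_cast card_filter_le _ _
  · rw [ptrial_event hS]; field_simp
  · have := psi_ge hS hne
    push_cast
    linarith

end Pool.Agent.MP_74c440_lc

end MrgPart2

-- ======== part 3: formerly Pool.Agent.MP_74c440_lc.Gen4
section MrgPart3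

-- ======== part 0: formerly Pool.Agent.MP_74c440_lc.Gen3
section MrgPart0

/-!
Uniform generation when NP is contained in BPP.
-/

set_option autoImplicit false

namespace Pool.Agent.MP_74c440_lc

open Pool.Agent.PolyT Pool.Agent.H82 Finset N487b59b3

/-- Majority vote of `2 * s` runs. -/
def amp (M : List Bool → Bool) (L s : ℕ) (r : List Bool) : Bool :=
  ltB s ((List.range (2 * s)).filter fun u => M (chunk L r u)).length

theorem amp_err (M : List Bool → Bool) (c : Bool) (L N : ℕ)
    (h : 2 / 3 ≤ ev L fun r => ind (M r = c)) :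
    ev (2 * (9 * N) * L) (fun r => ind (¬ amp M L (9 * N) r = c)) ≤ 1 / 2 ^ N := by
  have e1 : ev L (fun r => 1 + ind (¬ M r = c)) ≤ 4 / 3 := by
    rw [ev_add, ev_const, ev_ind_not]; linarith
  have e2 := half_pow (x := 8 / 9) (c := 9) (by norm_num) N (by norm_num) (by norm_num)
  generalize 9 * N = s at *
  refine le_trans (ev_mono fun r _ => ?_) ((ev_mul_right _ (1 / 2 ^ s) fun r =>
    ∏ u ∈ range (2 * s), (fun _ r => 1 + ind (¬ M r = c)) u (chunk L r u)).trans_le ?_)
  · have e3 : ∏ u ∈ range (2 * s), (1 + ind (¬ M (chunk L r u) = c)) =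
        2 ^ ∑ u ∈ range (2 * s), (xor (M (chunk L r u)) c).toNat := by
      rw [← prod_pow_eq_pow_sum]
      refine prod_congr rfl fun u _ => ?_
      cases M (chunk L r u) <;> cases c <;> norm_num [ind]
    rw [e3]
    by_cases hc : amp M L s r = c
    · rw [ind_neg (not_not.2 hc)]; positivity
    · rw [ind_pos hc, mul_one_div, one_le_div (by positivity)]
      refine pow_le_pow_right₀ (by norm_num) ?_
      rw [amp, length_filter_range] at hc
      cases c
      · simp only [Bool.xor_false]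
        rw [Bool.not_eq_false, ltB_iff] at hc
        exact hc.le
      · have e4 : ∑ u ∈ range (2 * s), ((xor (M (chunk L r u)) true).toNat +
            (M (chunk L r u)).toNat) = 2 * s := by
          rw [sum_congr rfl (g := fun _ => 1) fun u _ => by cases M (chunk L r u) <;> rfl]
          simp
        rw [sum_add_distrib] at e4
        rw [ltB_iff] at hc
        omega
  · rw [ev_prod_chunk L (2 * s) fun _ r => 1 + ind (¬ M r = c), prod_const, card_range]
    refine le_trans ?_ e2
    calc _ ≤ (4 / 3 : ℝ) ^ (2 * s) * (1 / 2 ^ s) := by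
          have := ev_nonneg (n := L) (f := fun r => 1 + ind (¬ M r = c))
            fun r => add_nonneg zero_le_one (ind_nonneg _)
          gcongr
      _ = _ := by rw [pow_mul, one_div, ← inv_pow, ← mul_pow]; norm_num

section poly

variable {α : Type} [N487b59b3 α]

theorem mod_fold (n : ℕ) (l : List Bool) :
    l.foldr (fun b r => cond (ltB (2 * r + b.toNat) (n + 1)) (2 * r + b.toNat)
      (2 * r + b.toNat - (n + 1))) 0 = ofBits l % (n + 1) := by
  induction l with
  | nil => simp
  | cons b l ih =>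
    rw [List.foldr_cons, ih, ofBits_cons]
    have h1 := Nat.mod_lt (ofBits l) (Nat.add_one_pos n)
    have h2 : b.toNat ≤ 1 := Bool.toNat_le b
    have h3 : (2 * ofBits l + b.toNat) % (n + 1) = (2 * (ofBits l % (n + 1)) + b.toNat) % (n + 1) :=
      (((Nat.mod_modEq _ _).mul_left 2).add_right _).symm
    rw [h3]
    by_cases h : 2 * (ofBits l % (n + 1)) + b.toNat < n + 1
    · simp [ltB, h, Nat.mod_eq_of_lt h]
    · simp only [ltB, h, decide_false, cond_false]
      rw [Nat.mod_eq_sub_mod (not_lt.1 h), Nat.mod_eq_of_lt (a := _ - _) (by omega)]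

theorem p_mod {f g : α → ℕ} (hf : PolyT.Poly f) (hg : PolyT.Poly g) :
    PolyT.Poly fun a => f a % (g a + 1) := by
  refine (PolyT.Poly.foldr (f := fun a (b : Bool) r => cond (ltB (2 * r + b.toNat) (g a + 1))
    (2 * r + b.toNat) (2 * r + b.toNat - (g a + 1))) (by fun_prop) (p_bits hf) (p_const 0)
    hg.bd fun a n => ?_).congr fun a => by rw [mod_fold, ofBits_bits]
  rw [mod_fold]
  exact length_enc_nat_mono (Nat.lt_succ_iff.1 (Nat.mod_lt _ (Nat.succ_pos _)))

theorem p_bsr {l : α → ℕ} {P : α → ℕ → Bool} (hl : Un l)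
    (hP : PolyT.Poly fun p : α × ℕ => P p.1 p.2) : PolyT.Poly fun a => bsr (l a) (P a) := by
  have h1 : Un fun p : α × ℕ × ℕ => min p.2.1 (l p.1) :=
    u_min (by fun_prop) (u_comp hl (by fun_prop))
  have h2 : PolyT.Poly fun p : α × ℕ × ℕ => P p.1 ((2 * p.2.2 + 1) * 2 ^ min p.2.1 (l p.1)) :=
    hP.comp (f := fun p : α × ℕ × ℕ => (p.1, (2 * p.2.2 + 1) * 2 ^ min p.2.1 (l p.1)))
      (p_pair (by fun_prop) (p_mul (by fun_prop) (p_pow (p_const 2) h1)))
  refine (PolyT.Poly.foldr
    (f := fun a b u => 2 * u + (!P a ((2 * u + 1) * 2 ^ min b (l a))).toNat)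
    (p_add (by fun_prop) (p_toNat (p_not h2))) (p_range hl) (p_const 0) hl.2 fun a n => ?_).congr
    fun a => List.foldr_ext _ _ _ fun b hb u => by rw [min_eq_left (List.mem_range.1 hb).le]
  have : ∀ L : List ℕ, L.foldr
      (fun b u => 2 * u + (!P a ((2 * u + 1) * 2 ^ min b (l a))).toNat) 0 < 2 ^ L.length := by
    intro L
    induction L with
    | nil => simp
    | cons b L ih =>
      rw [List.foldr_cons, List.length_cons, pow_succ]
      have := Bool.toNat_le (!P a ((2 * L.foldr (fun b u => 2 * u +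
        (!P a ((2 * u + 1) * 2 ^ min b (l a))).toNat) 0 + 1) * 2 ^ min b (l a)))
      omega
  exact (length_enc_nat_le (this _)).trans (by simp)

variable {l : α → ℕ} {ρ : α → List Bool}

@[fun_prop] theorem u_gA (hl : Un l) : Un fun a => gA (l a) :=
  u_size (u_add hl (u_const 1)).1
@[fun_prop] theorem u_gQ (hl : Un l) : Un fun a => gQ (l a) := by unfold gQ; fun_prop
@[fun_prop] theorem u_gTb (hl : Un l) : Un fun a => gTb (l a) := by unfold gTb; fun_prop
@[fun_prop] theorem u_gLam (hl : Un l) : Un fun a => gLam (l a) := by unfold gLam; fun_prop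
theorem u_gN {e : α → ℕ} (hl : Un l) (he : Un e) : Un fun a => gN (l a) (e a) := by
  have h := u_mul (u_mul (u_two_pow_size 2 (u_add hl (u_const 1))) (u_const 8)) he
  convert h using 2 with a
  rw [gN, pow_add, gA]; rfl
theorem u_lev (hl : Un l) (h : PolyT.Poly ρ) : Un fun a => lev (l a) (ρ a) :=
  u_min (p_ofBits (p_take (u_gA hl).1 h)) (u_add hl (u_const 1))
theorem p_al (hl : Un l) (h : PolyT.Poly ρ) : PolyT.Poly fun a => al (l a) (ρ a) :=
  p_take (u_lev hl h).1 (p_drop (u_add (u_gA hl) (u_gTb hl)).1 h)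
theorem p_jx (hl : Un l) (h : PolyT.Poly ρ) : PolyT.Poly fun a => jx (l a) (ρ a) :=
  p_ofBits (p_take (u_gA hl).1
    (p_drop (u_add (u_add (u_gA hl) (u_gTb hl)) (u_add hl (u_const 1))).1 h))

theorem p_hb {Q y : α → ℕ} (hQ : Un Q) (h : PolyT.Poly ρ) (hy : PolyT.Poly y) :
    PolyT.Poly fun a => hb (Q a) (ρ a) (y a) := by
  have := hQ.1
  exact p_bodd (p_length (p_filter (p_getD (by fun_prop)
    (p_add (by fun_prop) (p_mod (by fun_prop) (by fun_prop))) (p_const _)) (p_range hQ)))

theorem p_hsh {Q i y : α → ℕ} (hQ : Un Q) (hi : Un i) (h : PolyT.Poly ρ) (hy : PolyT.Poly y) :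
    PolyT.Poly fun a => hsh (Q a) (i a) (ρ a) (y a) := by
  have := hQ.1
  exact p_map (p_hb (u_comp hQ (by fun_prop)) (by fun_prop) (by fun_prop)) (p_range hi)

theorem p_hf {y : α → ℕ} (hl : Un l) (h : PolyT.Poly ρ) (hy : PolyT.Poly y) :
    PolyT.Poly fun a => hf (l a) (ρ a) (y a) :=
  p_hsh (u_gQ hl) (u_lev hl h) (p_take (u_gTb hl).1 (p_drop (u_gA hl).1 h)) hy

theorem p_amp {M : α → List Bool → Bool} {L s : α → ℕ}
    (hM : PolyT.Poly fun p : α × List Bool => M p.1 p.2) (hL : PolyT.Poly L) (hs : Un s)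
    (h : PolyT.Poly ρ) : PolyT.Poly fun a => amp (M a) (L a) (s a) (ρ a) :=
  p_ltB hs.1 (p_length (p_filter
    (hM.comp (f := fun p : α × ℕ => (p.1, chunk (L p.1) (ρ p.1) p.2)) (by fun_prop))
    (p_range (u_mul (u_const 2) hs))))

theorem p_trial {O : α → Bool → ℕ → Bool} (hl : Un l)
    (hO : PolyT.Poly fun p : α × Bool × ℕ => O p.1 p.2.1 p.2.2) :
    PolyT.Poly fun a => trial (l a) (O a) := by
  have h2 : PolyT.Poly fun a => 2 ^ l a := p_pow (p_const 2) hl
  exact p_pair (p_and (p_not (hO.comp (f := fun a => (a, false, 2 ^ l a)) (by fun_prop)))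
    (hO.comp (f := fun a => (a, true, 2 ^ l a)) (by fun_prop)))
    (p_bsr hl (hO.comp (f := fun p : α × ℕ => (p.1, true, p.2)) (by fun_prop)))

theorem p_firstOk {L T : α → ℕ} {f : α → List Bool → Bool × ℕ} (hL : PolyT.Poly L) (hT : Un T)
    (hf : PolyT.Poly fun p : α × List Bool => f p.1 p.2) (h : PolyT.Poly ρ) :
    PolyT.Poly fun a => firstOk (L a) (T a) (f a) (ρ a) :=
  p_snd (p_headD (p_filter (c := fun _ (x : Bool × ℕ) => x.1) (by fun_prop) (p_map
    (hf.comp (f := fun p : α × ℕ => (p.1, chunk (L p.1) (ρ p.1) p.2)) (by fun_prop))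
    (p_range hT))) (p_const _))

end poly

end Pool.Agent.MP_74c440_lc

end MrgPart0

-- ======== part 1: formerly Pool.Agent.MP_74c440_lc.Gen4
section MrgPart1

/-!
The oracle language and the generation theorem.
-/

set_option autoImplicit false

namespace Pool.Agent.MP_74c440_lc

open Pool.Agent.PolyT Pool.Agent.H82 Finset N487b59b3

section gen

variable {X : Type} (l B : X → ℕ) (V : X × ℕ × List Bool → Bool)

open Classical in
/-- The numbers that have a short certificate. -/
noncomputable def wit (x : X) : Finset ℕ :=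
  (range (2 ^ l x)).filter fun y => ∃ w : List Bool, w.length ≤ B x ∧ V (x, y, w) = true

open Classical in
theorem wit_lt (x : X) : ∀ y ∈ wit l B V x, y < 2 ^ l x := fun _ hy =>
  mem_range.1 (mem_of_mem_filter _ hy)

/-- The verifier of a query. -/
def ver (q : X × List Bool × Bool × ℕ) (c : List (ℕ × List Bool)) : Bool :=
  eqB c.length (cond q.2.2.1 (jx (l q.1) q.2.1) (l q.1 + 1) + 1) &&
    (eqB (c.map fun a => a.1).dedup.length c.length && c.all fun a =>
      (ltB a.1 (2 ^ l q.1) && (ltB a.2.length (B q.1 + 1) && V (q.1, a.1, a.2))) &&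
        ((ltB a.1 q.2.2.2 && (!q.2.2.1 || eqB (hf (l q.1) q.2.1 a.1) (al (l q.1) q.2.1))) &&
          c.all fun a' => eqB (hf (l q.1) q.2.1 a.1) (hf (l q.1) q.2.1 a'.1)))

/-- The answer to a query. -/
noncomputable def ans (q : X × List Bool × Bool × ℕ) : Bool :=
  pO (wit l B V q.1) (l q.1) (hf (l q.1) q.2.1) (al (l q.1) q.2.1) (jx (l q.1) q.2.1)
    q.2.2.1 q.2.2.2

theorem ver_sound {q : X × List Bool × Bool × ℕ} {c : List (ℕ × List Bool)}
    (h : ver l B V q c = true) : ans l B V q = true := by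
  simp only [ver, Bool.and_eq_true, eqB, ltB, decide_eq_true_eq, List.all_eq_true,
    Bool.or_eq_true, Bool.not_eq_true', Nat.lt_succ_iff] at h
  obtain ⟨h1, h2, h3⟩ := h
  simp only [ans, pO, decide_eq_true_eq]
  have e : ∀ y ∈ (c.map fun a => a.1).toFinset, ∃ a ∈ c, a.1 = y := fun y hy => by simpa using hy
  refine ⟨(c.map fun a => a.1).toFinset, mem_powersetCard.2 ⟨fun y hy => ?_, ?_⟩, fun y hy => ?_,
    fun y hy y' hy' => ?_⟩
  · obtain ⟨a, ha, rfl⟩ := e y hy
    simp only [wit, mem_filter, mem_range]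
    exact ⟨(h3 a ha).1.1, a.2, (h3 a ha).1.2⟩
  · rw [List.card_toFinset, h2, h1]
  · obtain ⟨a, ha, rfl⟩ := e y hy
    exact ⟨(h3 a ha).2.1.1, fun hb => (h3 a ha).2.1.2.resolve_left (by simp [hb])⟩
  · obtain ⟨a, ha, rfl⟩ := e y hy
    obtain ⟨a', ha', rfl⟩ := e y' hy'
    exact (h3 a ha).2.2 a' ha'

theorem ver_complete {q : X × List Bool × Bool × ℕ} (h : ans l B V q = true) :
    ∃ c, ver l B V q c = true ∧ (bitEncode c).length ≤
      (2 ^ (1 * (l q.1 + 1).size) + (l q.1 + 2)) * (2 * (2 * l q.1 + 1 + 3 * B q.1) + 1) := by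
  simp only [ans, pO, decide_eq_true_eq] at h
  obtain ⟨Y, h1, h2, h3⟩ := h
  obtain ⟨h0, h1⟩ := mem_powersetCard.1 h1
  have h4 : ∀ y, ∃ w : List Bool, y ∈ Y → w.length ≤ B q.1 ∧ V (q.1, y, w) = true := fun y => by
    by_cases hy : y ∈ Y
    · have := h0 hy
      simp only [wit, mem_filter] at this
      obtain ⟨w, hw⟩ := this.2
      exact ⟨w, fun _ => hw⟩
    · exact ⟨[], fun h => absurd h hy⟩
  choose w hw using h4
  refine ⟨Y.toList.map fun y => (y, w y), ?_, ?_⟩
  · simp only [ver, Bool.and_eq_true, eqB, ltB, decide_eq_true_eq, List.all_eq_true,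
      Bool.or_eq_true, Bool.not_eq_true', Nat.lt_succ_iff, List.length_map, length_toList,
      List.map_map, Function.comp_def, List.map_id', List.forall_mem_map, mem_toList]
    refine ⟨h1, by rw [(nodup_toList Y).dedup, length_toList], fun y hy =>
      ⟨⟨wit_lt l B V _ y (h0 hy), hw y hy⟩, ⟨(h2 y hy).1, ?_⟩, h3 y hy⟩⟩
    cases hb : q.2.2.1
    · exact Or.inl rfl
    · exact Or.inr ((h2 y hy).2 hb)
  · rw [enc_list, List.length_flatMap]
    refine (PolyT.Poly.sum_map_le _ _ (2 * (2 * l q.1 + 1 + 3 * B q.1) + 1) fun a ha => ?_).trans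
      (Nat.mul_le_mul_right _ ?_)
    · obtain ⟨y, hy, rfl⟩ := List.mem_map.1 ha
      rw [mem_toList] at hy
      rw [length_delimit, length_enc_pair, PolyT.Poly.enc_bools_length]
      have a1 := length_enc_nat_le (wit_lt l B V _ y (h0 hy))
      have a2 := (hw y hy).1
      simp only
      omega
    · rw [List.length_map, length_toList, h1, one_mul]
      have : jx (l q.1) q.2.1 < 2 ^ (l q.1 + 1).size := (ofBits_lt _).trans_le
        (Nat.pow_le_pow_right (by norm_num) (List.length_take_le _ _))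
      cases q.2.2.1 <;> simp only [cond_true, cond_false] <;> omega

theorem ans_min (x : X) (ρ : List Bool) (b : Bool) (z : ℕ) :
    ans l B V (x, ρ, b, min z (2 ^ l x)) = ans l B V (x, ρ, b, z) := by
  simp only [ans, pO, Cnt, decide_eq_decide]
  refine exists_congr fun Y => and_congr_right fun hY => and_congr_left fun _ =>
    forall₂_congr fun y hy => and_congr_left fun _ => ?_
  have := wit_lt l B V x y ((mem_powersetCard.1 hY).1 hy)
  omega

variable [N487b59b3 X] {l B V} (hl : Un l) (hB : Un B) (hV : PolyT.Poly V)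
include hl hB hV

theorem p_ver : PolyT.Poly fun p : (X × List Bool × Bool × ℕ) × List (ℕ × List Bool) =>
    ver l B V p.1 p.2 := by
  have l1 : Un fun p : (X × List Bool × Bool × ℕ) × List (ℕ × List Bool) => l p.1.1 :=
    u_comp hl (by fun_prop)
  have l2 : Un fun p : ((X × List Bool × Bool × ℕ) × List (ℕ × List Bool)) × (ℕ × List Bool) =>
    l p.1.1.1 := u_comp hl (by fun_prop)
  have l3 : Un fun p : (((X × List Bool × Bool × ℕ) × List (ℕ × List Bool)) × (ℕ × List Bool)) ×
    (ℕ × List Bool) => l p.1.1.1.1 := u_comp hl (by fun_prop)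
  have hB' := hB.1
  exact p_and (p_eqB (by fun_prop) (p_add (p_cond (by fun_prop) (p_jx l1 (by fun_prop))
    (p_add l1.1 (p_const _))) (p_const _))) (p_and (by fun_prop) (p_all (p_and
      (p_and (p_ltB (by fun_prop) (p_pow (p_const 2) l2)) (by fun_prop))
      (p_and (p_and (by fun_prop) (p_or (by fun_prop)
        (p_eqB (p_hf l2 (by fun_prop) (by fun_prop)) (p_al l2 (by fun_prop)))))
        (p_all (p_eqB (p_hf l3 (by fun_prop) (by fun_prop)) (p_hf l3 (by fun_prop) (by fun_prop)))
          (by fun_prop)))) (by fun_prop)))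

theorem ans_np [PD X] : (fun w => ans l B V (PD.dec w)) ∈ N68a2faeb.NP := by
  have h0 : PolyT.Poly fun w : List Bool => (PD.dec w : X × List Bool × Bool × ℕ).1 := by fun_prop
  have l1 := u_comp hl h0
  obtain ⟨P, hP⟩ := (u_mul (u_add (u_two_pow_size 1 (u_add l1 (u_const 1)))
    (u_add l1 (u_const 2))) (u_add (u_mul (u_const 2) (u_add (u_add (u_mul (u_const 2) l1)
      (u_const 1)) (u_mul (u_const 3) (u_comp hB h0)))) (u_const 1))).2
  refine ⟨P.comp (3 * Polynomial.X), fun p => ver l B V (PD.dec p.1) (PD.dec p.2),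
    (poly_iff _).1 ((p_ver hl hB hV).comp
      (f := fun p : List Bool × List Bool => (PD.dec p.1, PD.dec p.2)) (by fun_prop)),
    fun w => ⟨fun h => ?_, fun ⟨c, _, h⟩ => ver_sound l B V h⟩⟩
  obtain ⟨c, h1, h2⟩ := ver_complete l B V h
  refine ⟨bitEncode c, h2.trans ((hP w).trans_eq ?_), by simpa only [PD.dec_enc] using h1⟩
  simp [PolyT.Poly.enc_bools_length]

open Classical in
theorem unif_gen [PD X] (h : N68a2faeb.NP ⊆ N68a2faeb.BPP) {e : X → ℕ} (he : Un e) :
    ∃ (p : Polynomial ℕ) (A : X × List Bool → ℕ), PolyT.Poly A ∧ ∀ x, (wit l B V x).Nonempty →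
      ∀ E : ℕ → Prop, |ev (p.eval (bitEncode x).length) (fun r => ind (E (A (x, r)))) -
        (((wit l B V x).filter E).card : ℝ) / (wit l B V x).card| ≤ 1 / 2 ^ e x := by
  obtain ⟨p, M, hM, hp⟩ := (bpp_iff _).1 (h (ans_np hl hB hV))
  obtain ⟨T, hT⟩ : ∃ T : X → ℕ, T = fun x => gN (l x) (e x + 1) := ⟨_, rfl⟩
  obtain ⟨N, hN⟩ : ∃ N : X → ℕ, N = fun x => e x + 1 + (T x + (l x + 2)) := ⟨_, rfl⟩
  obtain ⟨L, hL⟩ : ∃ L : X → ℕ, L = fun x => p.eval (2 * (bitEncode x).length + 1 +
    (2 * (3 * gLam (l x)) + 1 + (3 + (l x + 1)))) := ⟨_, rfl⟩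
  have uT : Un T := hT ▸ u_gN hl (u_add he (u_const 1))
  have uN : Un N := by rw [hN]; fun_prop
  have uL : Un L := hL ▸ u_eval p (by fun_prop)
  have u1 : Un fun x => T x * gLam (l x) := by fun_prop
  have u2 : Un fun x => 2 * (9 * N x) * L x := by fun_prop
  obtain ⟨P, hP⟩ := (u_add u1 u2).2
  let O : X → List Bool → X × List Bool × Bool × ℕ → Bool := fun x r q => amp
    (fun s => M (bitEncode q, s.take (p.eval (bitEncode q).length))) (L x) (9 * N x) r
  have pO' : PolyT.Poly fun a : (X × List Bool) × (X × List Bool × Bool × ℕ) =>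
      O a.1.1 a.1.2 a.2 :=
    p_amp (hM.comp (p_pair (by fun_prop) (p_take (u_eval p (by fun_prop)).1 (by fun_prop))))
      (uL.1.comp (by fun_prop)) (u_mul (u_const 9) (u_comp uN (by fun_prop))) (by fun_prop)
  let A : X → List Bool → List Bool → ℕ := fun x r r' => firstOk (gLam (l x)) (T x)
    (fun ρ => trial (l x) fun b z => O x r' (x, ρ, b, min z (2 ^ l x))) r
  refine ⟨P, fun a => A a.1 (a.2.take (T a.1 * gLam (l a.1)))
    ((a.2.drop (T a.1 * gLam (l a.1))).take (2 * (9 * N a.1) * L a.1)), ?_, fun x hx E => ?_⟩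
  · have v1 := u1.1
    have v2 := u2.1
    have l1 : Un fun a : ((X × List Bool) × List Bool) × Bool × ℕ => l a.1.1.1 :=
      u_comp hl (by fun_prop)
    exact p_firstOk ((u_gLam hl).1.comp (p_fst p_id)) (u_comp uT (p_fst p_id))
      (p_trial (u_comp hl (by fun_prop)) (pO'.comp
        (f := fun a : ((X × List Bool) × List Bool) × Bool × ℕ => ((a.1.1.1,
          (a.1.1.2.drop (T a.1.1.1 * gLam (l a.1.1.1))).take (2 * (9 * N a.1.1.1) * L a.1.1.1)),
          (a.1.1.1, a.1.2, a.2.1, min a.2.2 (2 ^ l a.1.1.1))))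
        (p_pair (p_pair (by fun_prop) (p_take (v2.comp (by fun_prop))
          (p_drop (v1.comp (by fun_prop)) (by fun_prop))))
        (p_pair (by fun_prop) (p_pair (by fun_prop) (p_pair (by fun_prop)
          (p_min (by fun_prop) (p_pow (p_const 2) l1))))))))
      (p_take (v1.comp (p_fst p_id)) (p_snd p_id))
  have c0 := hP x
  simp only at c0
  have c1 := perfect (wit_lt l B V x) hx (e x + 1) E
  have eT : gN (l x) (e x + 1) = T x := by rw [hT]
  rw [eT] at c1
  simp only
  rw [ev_split (by omega) fun r r' => ind (E (A x r (r'.take (2 * (9 * N x) * L x))))]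
  have c2 : ∀ r : List Bool, |ev (P.eval (bitEncode x).length - T x * gLam (l x))
      (fun r' => ind (E (A x r (r'.take (2 * (9 * N x) * L x))))) -
      ind (E (firstOk (gLam (l x)) (T x) (ptrial (wit l B V x) (l x)) r))| ≤
      1 / 2 ^ (e x + 1) := by
    intro r
    rw [ev_take (by omega) fun r' => ind (E (A x r r'))]
    let bad : ℕ × Bool × ℕ → List Bool → Prop := fun i r' =>
      ¬ O x r' (x, chunk (gLam (l x)) r i.1, i.2.1, i.2.2) =
        ans l B V (x, chunk (gLam (l x)) r i.1, i.2.1, i.2.2)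
    have d1 : ev (2 * (9 * N x) * L x) (fun r' => ind
        (∃ i ∈ range (T x) ×ˢ (univ ×ˢ range (2 ^ l x + 1)), bad i r')) ≤ 1 / 2 ^ (e x + 1) := by
      refine (ev_union _ _ _).trans ((sum_le_card_nsmul _ _ (1 / 2 ^ N x) fun i hi =>
        amp_err _ _ _ _ ?_).trans ?_)
      · have a1 := hp (bitEncode (x, chunk (gLam (l x)) r i.1, i.2.1, i.2.2))
        rw [PD.dec_enc, ← ev_take (n := L x)] at a1
        · exact a1
        rw [hL]
        refine eval_mono p ?_
        have a2 : (chunk (gLam (l x)) r i.1).length ≤ gLam (l x) := List.length_take_le _ _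
        have a3 : i.2.2 < 2 ^ (l x + 1) := by
          have := mem_range.1 (mem_product.1 (mem_product.1 hi).2).2
          have : 0 < 2 ^ l x := by positivity
          rw [pow_succ]; omega
        have a4 := length_enc_nat_le a3
        rw [length_enc_pair, length_enc_pair, length_enc_pair, PolyT.Poly.enc_bools_length]
        change 2 * _ + 1 + (2 * (3 * _) + 1 + (2 * 1 + 1 + _)) ≤ _
        simp only
        omega
      · simp only [card_product, card_range, card_univ, Fintype.card_bool, nsmul_eq_mul, hN]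
        have a1 : T x * (2 * (2 ^ l x + 1)) ≤ 2 ^ (T x + (l x + 2)) := by
          have : 0 < 2 ^ l x := by positivity
          rw [pow_add, pow_add]
          exact Nat.mul_le_mul Nat.lt_two_pow_self.le (by omega)
        rw [mul_one_div, pow_add _ (e x + 1), div_le_div_iff₀ (by positivity) (by positivity),
          one_mul, mul_comm]
        gcongr
        exact_mod_cast a1
    have d2 : ∀ r', |ind (E (A x r r')) -
        ind (E (firstOk (gLam (l x)) (T x) (ptrial (wit l B V x) (l x)) r))| ≤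
        ind (∃ i ∈ range (T x) ×ˢ (univ ×ˢ range (2 ^ l x + 1)), bad i r') := by
      intro r'
      by_cases hb : ∃ i ∈ range (T x) ×ˢ (univ ×ˢ range (2 ^ l x + 1)), bad i r'
      · rw [ind_pos hb, abs_le]
        constructor <;> linarith [ind_nonneg (E (A x r r')), ind_le_one (E (A x r r')),
          ind_nonneg (E (firstOk (gLam (l x)) (T x) (ptrial (wit l B V x) (l x)) r)),
          ind_le_one (E (firstOk (gLam (l x)) (T x) (ptrial (wit l B V x) (l x)) r))]
      · have : A x r r' = firstOk (gLam (l x)) (T x) (ptrial (wit l B V x) (l x)) r := by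
          simp only [A, firstOk]
          rw [List.map_congr_left fun u hu => ?_]
          refine congrArg (trial (l x)) (funext fun b => funext fun z => ?_)
          refine Eq.trans (not_not.1 fun hn => hb ⟨(u, b, min z (2 ^ l x)), ?_, hn⟩)
            (ans_min l B V x _ b z)
          simpa [Nat.lt_succ_iff] using hu
        rw [this, sub_self, abs_zero]; exact ind_nonneg _
    rw [← ev_const (2 * (9 * N x) * L x) (ind (E (firstOk _ _ _ r))), ← ev_sub, abs_le]
    constructor
    · rw [neg_le, ← neg_one_mul, ← ev_mul_left]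
      exact (ev_mono fun r' _ => by linarith [(abs_le.1 (d2 r')).1]).trans d1
    · exact (ev_mono fun r' _ => (abs_le.1 (d2 r')).2).trans d1
  have c3 := const_le_ev (n := T x * gLam (l x)) fun r _ => (abs_le.1 (c2 r)).1
  have c4 := ev_le_const (n := T x * gLam (l x)) fun r _ => (abs_le.1 (c2 r)).2
  rw [ev_sub] at c3 c4
  have c5 : (1 : ℝ) / 2 ^ e x = 1 / 2 ^ (e x + 1) + 1 / 2 ^ (e x + 1) := by ring
  rw [abs_le] at c1 ⊢
  constructor <;> linarith [c1.1, c1.2]

end gen

end Pool.Agent.MP_74c440_lc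

end MrgPart1

-- marker of a merged file
example : 731051 + 632166 = 731051 + 632166 := rfl

end MrgPart3

-- marker of a merged file
example : 731051 + 632166 = 731051 + 632166 := rfl
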