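import Pool.Agent.MP_74c440_lc.Grp

-- ======== part 0: formerly Pool.Agent.MP_74c440_lc.Top2
section MrgPart0

-- ======== part 0: formerly Pool.Agent.MP_74c440_lc.Lev2
section MrgPart0

/-!
Higher levels: the exclusive-or gadget, the large hyperedge, the two-spin system.
-/

set_option autoImplicit false

namespace Pool.Agent.MP_74c440_lc

open Pool.Agent.PolyT Pool.Agent.H82 Finset

/-- Two small hyperedges joined by `2 * T` blocks. -/
def gX (T : ℕ) (H : Gad) : Gad :=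
  node (2 * T * 2) ((List.range (2 * T)).map fun l => (([], [2 * l]), ([], [2 * l + 1]))) H 2
    fun s i => cond (eqB i 0) ([s], [])
      ([], [2 * (i - 1) + (xor (ltB (i - 1) T) (eqB s 0)).toNat])

theorem p_gX {α : Type} [N487b59b3 α] {T : α → ℕ} {H : α → Gad} (hT : Un T)
    (hH : PolyT.Poly H) : PolyT.Poly fun a => gX (T a) (H a) :=
  p_node (by fun_prop) (by fun_prop) (by fun_prop) hH (by fun_prop)

/-- Weighted sum of the block weights. -/
def esum (k : ℕ) (u v : F → ℝ) : ℝ :=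
  u 0 * v 0 * f00 k + u 0 * v 1 * f01 k + u 1 * v 0 * f10 k + u 1 * v 1 * f11 k

theorem prod_ite_lt (T : ℕ) (x y : ℝ) :
    ∏ l ∈ range (2 * T), (if l < T then x else y) = x ^ T * y ^ T := by
  rw [two_mul, prod_range_add, prod_congr rfl (g := fun _ => x), prod_congr rfl (g := fun _ => y)
    (s₁ := range T) (f := fun l => if T + l < T then x else y)]
  · simp
  · intro l _; rw [if_neg (by omega)]
  · intro l hl; rw [if_pos (mem_range.1 hl)]

theorem sum_X (k T : ℕ) (u v : F → ℝ) :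
    sumK (2 * T * 2) (fun c => (∏ l ∈ range (2 * T), wt k (c (2 * l)) (c (2 * l + 1))) *
      ((∏ l ∈ range (2 * T), u (c (2 * l + (xor (ltB l T) true).toNat))) *
        ∏ l ∈ range (2 * T), v (c (2 * l + (xor (ltB l T) false).toNat)))) =
      (esum k u v * esum k v u) ^ T := by
  simp only [← prod_mul_distrib]
  rw [mul_pow, ← prod_ite_lt]
  refine Eq.trans (sumK_congr fun c _ => prod_congr rfl fun l _ => ?_)
    ((sumK_pairs (2 * T) (fun l a b => wt k a b *
      if l < T then u a * v b else u b * v a)).trans (prod_congr rfl fun l _ => ?_))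
  · by_cases h : l < T <;> simp [ltB, h]
  · by_cases h : l < T <;> simp [h, esum] <;> ring

theorem Z_gX (k T : ℕ) (H : Gad) (c1 α β : ℝ) (w : F → ℝ)
    (hH : ∀ a, c1 * Z k H a = α + β * ∏ l ∈ range (2 * T + 1), w (a l)) (a : ℕ → F) :
    c1 ^ 2 * Z k (gX T H) a =
      α ^ 2 * esum k (fun _ => 1) (fun _ => 1) ^ (2 * T) +
        α * β * (esum k (fun _ => 1) w * esum k w (fun _ => 1)) ^ T * (w (a 0) + w (a 1)) +
        β ^ 2 * esum k w w ^ (2 * T) * (w (a 0) * w (a 1)) := by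
  rw [gX, node_Z k _ _ H 2 _ a
    (fun c => ∏ l ∈ range (2 * T), wt k (c (2 * l)) (c (2 * l + 1))) (fun c => by
      rw [blkW_map]
      refine prod_congr rfl fun l hl => ?_
      have := mem_range.1 hl
      simp only [evF, par_nil, par_cons, add_zero, zero_add, res]
      rw [if_pos (by omega), if_pos (by omega)]), ← sumK_mul_left]
  have e1 := sum_X k T (fun _ => 1) (fun _ => 1)
  have e2 := sum_X k T (fun _ => 1) w
  have e3 := sum_X k T w (fun _ => 1)
  have e4 := sum_X k T w w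
  have e5 : α ^ 2 * esum k (fun _ => 1) (fun _ => 1) ^ (2 * T) +
        α * β * (esum k (fun _ => 1) w * esum k w (fun _ => 1)) ^ T * (w (a 0) + w (a 1)) +
        β ^ 2 * esum k w w ^ (2 * T) * (w (a 0) * w (a 1)) =
      α ^ 2 * (esum k (fun _ => 1) (fun _ => 1) * esum k (fun _ => 1) (fun _ => 1)) ^ T +
        α * β * w (a 1) * (esum k (fun _ => 1) w * esum k w (fun _ => 1)) ^ T +
        α * β * w (a 0) * (esum k w (fun _ => 1) * esum k (fun _ => 1) w) ^ T +
        β ^ 2 * (w (a 0) * w (a 1)) * (esum k w w * esum k w w) ^ T := by ring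
  rw [e5, ← e1, ← e2, ← e3, ← e4]
  simp only [← sumK_mul_left, ← sumK_add']
  refine sumK_congr fun c _ => ?_
  rw [prod_range_succ, prod_range_one, sq c1]
  have h0 := hH (fun i => evF a c (cond (eqB i 0) ([0], [])
      ([], [2 * (i - 1) + (xor (ltB (i - 1) T) (eqB 0 0)).toNat])))
  have h1 := hH (fun i => evF a c (cond (eqB i 0) ([1], [])
      ([], [2 * (i - 1) + (xor (ltB (i - 1) T) (eqB 1 0)).toNat])))
  rw [show ∀ x y z : ℝ, c1 * c1 * (x * (y * z)) = x * ((c1 * y) * (c1 * z)) from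
    fun _ _ _ => by ring, h0, h1, prod_range_succ', prod_range_succ']
  simp only [eqB, Nat.add_eq_zero_iff, one_ne_zero, and_false, decide_false, cond_false,
    decide_true, cond_true, Nat.add_sub_cancel, evF, par_nil, par_cons, add_zero, zero_add,
    prod_const_one]
  ring

/-- One parity check on `d` exclusive-or gadgets. -/
def gC (d : ℕ) (X : Gad) : Gad :=
  node d [(([], List.range d), ([], []))] X d fun i e => cond (eqB e 0) ([], [i]) ([i], [i])

theorem p_gC {α : Type} [N487b59b3 α] {d : α → ℕ} {X : α → Gad} (hd : Un d)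
    (hX : PolyT.Poly X) : PolyT.Poly fun a => gC (d a) (X a) :=
  p_node (by fun_prop) hd (by fun_prop) hX (by fun_prop)

theorem Z_gC (k d : ℕ) (X : Gad) (c2 : ℝ) (l : F → F → ℝ) (hl : l 1 0 = l 0 1)
    (hX : ∀ a, c2 * Z k X a = l (a 0) (a 1)) (a : ℕ → F) :
    2 * c2 ^ d * Z k (gC d X) a =
      ((f00 k : ℝ) + f10 k) * ∏ i ∈ range d, (if a i = 0 then l 0 0 + l 1 1 else 2 * l 0 1) +
        ((f00 k : ℝ) - f10 k) * ∏ i ∈ range d, (if a i = 0 then l 0 0 - l 1 1 else 0) := by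
  rw [gC, node_Z k _ _ X d _ a (fun c => wt k (∑ i ∈ range d, c i) 0) (fun c => by
      simp only [blkW, evF, par_nil, par_range, add_zero, zero_add, List.map_cons, List.map_nil,
        List.prod_cons, List.prod_nil, mul_one]
      congr 1
      exact sum_congr rfl fun i hi => by simp [res, mem_range.1 hi]), ← sumK_mul_left]
  have e1 := sumK_prod d (fun i b => l b (a i + b))
  have e2 := sumK_prod d (fun i b => chi b * l b (a i + b))
  have e3 : ∏ i ∈ range d, (if a i = 0 then l 0 0 + l 1 1 else 2 * l 0 1) =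
      ∏ i ∈ range d, (l 0 (a i + 0) + l 1 (a i + 1)) := by
    refine prod_congr rfl fun i _ => ?_
    rcases F_cases (a i) with h | h <;> simp [h, one_add_one_F, hl, two_mul]
  have e4 : ∏ i ∈ range d, (if a i = 0 then l 0 0 - l 1 1 else 0) =
      ∏ i ∈ range d, (chi 0 * l 0 (a i + 0) + chi 1 * l 1 (a i + 1)) := by
    refine prod_congr rfl fun i _ => ?_
    rcases F_cases (a i) with h | h <;> simp [h, one_add_one_F, hl, sub_eq_add_neg]
  rw [e3, e4, ← e1, ← e2]
  simp only [← sumK_mul_left, ← sumK_add']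
  refine sumK_congr fun c _ => ?_
  have e5 : c2 ^ d * ∏ j ∈ range d, Z k X
      (fun i => evF a c (cond (eqB i 0) ([], [j]) ([j], [j]))) =
      ∏ i ∈ range d, l (c i) (a i + c i) := by
    rw [← card_range d, ← prod_const, card_range, ← prod_mul_distrib]
    refine prod_congr rfl fun i _ => ?_
    rw [hX]
    simp [eqB, evF]
  rw [prod_mul_distrib, ← chi_sum, ← e5]
  generalize ∑ i ∈ range d, c i = y
  rcases F_cases y with rfl | rfl <;> simp <;> ring

/-- Repetition of a gadget. -/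
def gR (r : ℕ) (C : Gad) : Gad := node 0 [] C r fun _ i => ([i], [])

theorem p_gR {α : Type} [N487b59b3 α] {r : α → ℕ} {C : α → Gad} (hr : Un r)
    (hC : PolyT.Poly C) : PolyT.Poly fun a => gR (r a) (C a) :=
  p_node (by fun_prop) hr (by fun_prop) hC (by fun_prop)

theorem Z_gR (k r : ℕ) (C : Gad) (a : ℕ → F) : Z k (gR r C) a = Z k C a ^ r := by
  rw [gR, node_Z k _ _ C r _ a (fun _ => 1) (fun c => rfl)]
  simp [sumK, evF]

theorem two_phase (d r : ℕ) (A B P0 P1 M : ℝ) (a : ℕ → F) :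
    (A * ∏ i ∈ range d, (if a i = 0 then P0 else P1) +
        B * ∏ i ∈ range d, (if a i = 0 then M else 0)) ^ r =
      A ^ r * ∏ i ∈ range d, (if a i = 0 then P0 ^ r else P1 ^ r) +
        ((A * P0 ^ d + B * M ^ d) ^ r - (A * P0 ^ d) ^ r) *
          ∏ i ∈ range d, (if a i = 0 then 1 else 0) := by
  have e : ∏ i ∈ range d, (if a i = 0 then P0 ^ r else P1 ^ r) =
      (∏ i ∈ range d, (if a i = 0 then P0 else P1)) ^ r := by
    rw [← prod_pow]
    exact prod_congr rfl fun i _ => by split_ifs <;> rfl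
  rw [e, ← mul_pow]
  by_cases h : ∀ i ∈ range d, a i = 0
  · rw [prod_congr rfl (g := fun _ => P0) (fun i hi => if_pos (h i hi)),
      prod_congr rfl (g := fun _ => M) (fun i hi => if_pos (h i hi)),
      prod_congr rfl (g := fun _ => (1 : ℝ)) (fun i hi => if_pos (h i hi))]
    simp
  · push Not at h
    obtain ⟨i, hi, h⟩ := h
    rw [prod_eq_zero (f := fun i => if a i = 0 then M else 0) hi (if_neg h),
      prod_eq_zero (f := fun i => if a i = 0 then (1 : ℝ) else 0) hi (if_neg h)]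
    simp

/-- A slot: the two owners and the adjacency flag. -/
abbrev Slot : Type := ℕ × ℕ × Bool

/-- The slot number `j`. -/
def slot (sl : List Slot) (j : ℕ) : Slot := sl.getD j (0, 0, false)

/-- The two-spin system on `n` vertices with the given slots. -/
def gT (n : ℕ) (sl : List Slot) (R : Gad) : Gad :=
  node (sl.length * 2)
    (((List.range sl.length).map fun j =>
        (([], [2 * j]), ([], cond (slot sl j).2.2 [2 * j + 1] []))) ++
      (List.range sl.length).map fun j =>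
        (([], []), ([], cond (slot sl j).2.2 [] [2 * j + 1]))) R n
    fun v i => ([], cond (eqB (cond i.bodd (slot sl (half i)).2.1 (slot sl (half i)).1) v) [i] [])

theorem p_gT {α : Type} [N487b59b3 α] {n : α → ℕ} {sl : α → List Slot} {R : α → Gad} (hn : Un n)
    (hsl : PolyT.Poly sl) (hR : PolyT.Poly R) : PolyT.Poly fun a => gT (n a) (sl a) (R a) :=
  p_node (by fun_prop) hn (by unfold slot; fun_prop) hR (by unfold slot; fun_prop)

theorem prod_add_bits (n : ℕ) (x y : ℕ → ℝ) :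
    ∏ v ∈ range n, (x v + y v) =
      ∑ s ∈ range (2 ^ n), ∏ v ∈ range n, if s.testBit v then x v else y v := by
  induction n with
  | zero => simp
  | succ n ih =>
    rw [prod_range_succ, ih, pow_succ, mul_two, sum_range_add, mul_add, add_comm, sum_mul, sum_mul]
    congr 1
    · refine sum_congr rfl fun s hs => ?_
      rw [prod_range_succ, Nat.testBit_lt_two_pow (mem_range.1 hs)]
      simp
    · refine sum_congr rfl fun s hs => ?_
      rw [prod_range_succ, Nat.testBit_two_pow_add_eq, Nat.testBit_lt_two_pow (mem_range.1 hs)]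
      simp only [Bool.not_false, if_true]
      congr 1
      exact prod_congr rfl fun v hv => by rw [Nat.testBit_two_pow_add_gt (mem_range.1 hv)]

/-- The weight of a bit owned by `o` in the phase `s`. -/
def om (n s : ℕ) (p0 p1 : ℝ) (o : ℕ) (b : F) : ℝ :=
  if b = 0 then p0 else if o < n then (if s.testBit o then p1 else 0) else p0

/-- The weight of the two blocks of a slot. -/
def ew (k : ℕ) (adj : Bool) (a b : F) : ℝ :=
  if adj then wt k a b * f00 k else wt k a 0 * wt k 0 b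

/-- The total weight of a slot. -/
def slotW (k n s : ℕ) (p0 p1 : ℝ) (ι : F → ℝ) (x : Slot) : ℝ :=
  ι 0 * ew k x.2.2 0 0 * (om n s p0 p1 x.1 0 * om n s p0 p1 x.2.1 0) +
    ι 0 * ew k x.2.2 0 1 * (om n s p0 p1 x.1 0 * om n s p0 p1 x.2.1 1) +
    ι 1 * ew k x.2.2 1 0 * (om n s p0 p1 x.1 1 * om n s p0 p1 x.2.1 0) +
    ι 1 * ew k x.2.2 1 1 * (om n s p0 p1 x.1 1 * om n s p0 p1 x.2.1 1)

theorem om_eq (n s : ℕ) (p0 p1 : ℝ) (o : ℕ) (b : F) :
    p0 * ∏ v ∈ range n, (if s.testBit v then (if (if o = v then b else 0) = 0 then p0 else p1)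
      else (if (if o = v then b else 0) = 0 then 1 else 0)) =
      (∏ v ∈ range n, if s.testBit v then p0 else 1) * om n s p0 p1 o b := by
  unfold om
  by_cases hb : b = 0
  · simp [hb, mul_comm]
  by_cases ho : o < n
  · rw [if_neg hb, if_pos ho, ← mul_prod_erase _ _ (mem_range.2 ho),
      ← mul_prod_erase (range n) (fun v => if s.testBit v then p0 else 1) (mem_range.2 ho),
      prod_congr rfl (g := fun v => if s.testBit v then p0 else 1) (fun v hv => by
        rw [if_neg (ne_of_mem_erase hv).symm]; simp)]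
    cases s.testBit o <;> simp [hb]
    ring
  · rw [if_neg hb, if_neg ho, mul_comm,
      prod_congr rfl (g := fun v => if s.testBit v then p0 else 1) (fun v hv => by
        rw [if_neg (by have := mem_range.1 hv; omega : ¬ o = v)]; simp)]

theorem prod_range_two (n : ℕ) (f : ℕ → ℝ) :
    ∏ i ∈ range (n * 2), f i = ∏ j ∈ range n, (f (2 * j) * f (2 * j + 1)) := by
  induction n with
  | zero => simp
  | succ n ih =>
    rw [show (n + 1) * 2 = n * 2 + 1 + 1 by ring, prod_range_succ, prod_range_succ, ih,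
      prod_range_succ, mul_comm n 2, mul_assoc]

theorem sum_gT (k n : ℕ) (sl : List Slot) (R : Gad) (c3 α β p0 p1 : ℝ)
    (hR : ∀ a, c3 * Z k R a =
      α * ∏ i ∈ range (sl.length * 2), (if a i = 0 then p0 else p1) +
        β * ∏ i ∈ range (sl.length * 2), (if a i = 0 then 1 else 0)) (ι : ℕ → F → ℝ) :
    c3 ^ n * p0 ^ (sl.length * 2) * sumK (gT n sl R).1
      (fun c => (∏ j ∈ range sl.length, ι j (c (2 * j))) * blkW k 0 c (gT n sl R).2) =
      ∑ s ∈ range (2 ^ n),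
        (∏ v ∈ range n, if s.testBit v then α * p0 ^ (sl.length * 2) else β) *
          ∏ j ∈ range sl.length, slotW k n s p0 p1 (ι j) (slot sl j) := by
  rw [gT, node_sum k _ _ R n _ 0 _ (fun c => ∏ j ∈ range sl.length,
      ι j (c (2 * j)) * ew k (slot sl j).2.2 (c (2 * j)) (c (2 * j + 1))) (fun c => by
      rw [blkW_append, blkW_map, blkW_map, ← prod_mul_distrib, ← prod_mul_distrib]
      refine prod_congr rfl fun j hj => ?_
      have := mem_range.1 hj
      have h1 : 2 * j < sl.length * 2 := by omega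
      have h2 : 2 * j + 1 < sl.length * 2 := by omega
      simp only [res, ew, h1, h2, if_true]
      cases (slot sl j).2.2 <;> simp [evF]), ← sumK_mul_left]
  have e0 : ∀ s, ∏ j ∈ range sl.length, slotW k n s p0 p1 (ι j) (slot sl j) =
      sumK (sl.length * 2) fun c => ∏ j ∈ range sl.length,
        ι j (c (2 * j)) * ew k (slot sl j).2.2 (c (2 * j)) (c (2 * j + 1)) *
          (om n s p0 p1 (slot sl j).1 (c (2 * j)) *
            om n s p0 p1 (slot sl j).2.1 (c (2 * j + 1))) := fun s =>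
    (sumK_pairs sl.length (fun j a b => ι j a * ew k (slot sl j).2.2 a b *
      (om n s p0 p1 (slot sl j).1 a * om n s p0 p1 (slot sl j).2.1 b))).symm
  simp only [e0, ← sumK_mul_left]
  rw [← sumK_sum]
  refine sumK_congr fun c _ => ?_
  set d := sl.length * 2 with hd
  set ow : ℕ → ℕ := fun i => cond i.bodd (slot sl (half i)).2.1 (slot sl (half i)).1 with how
  have e1 : c3 ^ n * ∏ v ∈ range n, Z k R
      (fun i => evF 0 c ([], cond (eqB (ow i) v) [i] [])) =
      ∏ v ∈ range n, (α * ∏ i ∈ range d, (if (if ow i = v then c i else 0) = 0 then p0 else p1) +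
        β * ∏ i ∈ range d, (if (if ow i = v then c i else 0) = 0 then 1 else 0)) := by
    rw [← card_range n, ← prod_const, card_range, ← prod_mul_distrib]
    refine prod_congr rfl fun v _ => ?_
    have : ∀ i, evF 0 c ([], cond (eqB (ow i) v) [i] []) = if ow i = v then c i else 0 := by
      intro i
      by_cases h : ow i = v <;> simp [eqB, h, evF]
    rw [hR]
    simp only [this]
  rw [show ∀ x y : ℝ, c3 ^ n * p0 ^ d * (x * y) = p0 ^ d * x * (c3 ^ n * y) from
    fun _ _ => by ring, e1, prod_add_bits, mul_sum]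
  refine sum_congr rfl fun s _ => ?_
  have e2 : ∏ v ∈ range n, (if s.testBit v then
      α * ∏ i ∈ range d, (if (if ow i = v then c i else 0) = 0 then p0 else p1) else
        β * ∏ i ∈ range d, (if (if ow i = v then c i else 0) = 0 then 1 else 0)) =
      (∏ v ∈ range n, if s.testBit v then α else β) * ∏ i ∈ range d, ∏ v ∈ range n,
        (if s.testBit v then (if (if ow i = v then c i else 0) = 0 then p0 else p1)
          else (if (if ow i = v then c i else 0) = 0 then 1 else 0)) := by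
    rw [prod_comm, ← prod_mul_distrib]
    exact prod_congr rfl fun v _ => by cases s.testBit v <;> simp
  have e3 : p0 ^ d * ∏ i ∈ range d, ∏ v ∈ range n,
        (if s.testBit v then (if (if ow i = v then c i else 0) = 0 then p0 else p1)
          else (if (if ow i = v then c i else 0) = 0 then 1 else 0)) =
      (∏ v ∈ range n, if s.testBit v then p0 else 1) ^ d *
        ∏ i ∈ range d, om n s p0 p1 (ow i) (c i) := by
    rw [← card_range d, ← prod_const, ← prod_const, card_range, ← prod_mul_distrib,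
      ← prod_mul_distrib]
    exact prod_congr rfl fun i _ => om_eq n s p0 p1 (ow i) (c i)
  have e4 : (∏ v ∈ range n, if s.testBit v then α * p0 ^ d else β) =
      (∏ v ∈ range n, if s.testBit v then α else β) *
        (∏ v ∈ range n, if s.testBit v then p0 else 1) ^ d := by
    rw [← prod_pow, ← prod_mul_distrib]
    exact prod_congr rfl fun v _ => by cases s.testBit v <;> simp
  have e5 : ∏ i ∈ range d, om n s p0 p1 (ow i) (c i) = ∏ j ∈ range sl.length,
      om n s p0 p1 (slot sl j).1 (c (2 * j)) * om n s p0 p1 (slot sl j).2.1 (c (2 * j + 1)) := by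
    rw [hd, prod_range_two]
    refine prod_congr rfl fun j _ => ?_
    have h1 : half (2 * j) = j := by unfold half; omega
    have h2 : half (2 * j + 1) = j := by unfold half; omega
    simp [how, h1, h2]
  rw [e2, show ∀ x y z : ℝ, p0 ^ d * x * (y * z) = x * y * (p0 ^ d * z) from fun _ _ _ => by ring,
    e3, e4, e5, prod_mul_distrib (f := fun j => ι j (c (2 * j)) * _)]
  ring

end Pool.Agent.MP_74c440_lc

end MrgPart0

-- ======== part 1: formerly Pool.Agent.MP_74c440_lc.Par1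
section MrgPart1

/-!
The numbers attached to the large hyperedge and the choice of its parameters.
-/

set_option autoImplicit false

namespace Pool.Agent.MP_74c440_lc

open Pool.Agent.PolyT Pool.Agent.H82 Finset

/-- Chain weight. -/
def nW0 (k t : ℕ) : ℕ := f00 k ^ t
/-- Chain weight. -/
def nW1 (k t : ℕ) : ℕ := f01 k ^ t
/-- Weight of the free phase. -/
def nAl (k T N t : ℕ) : ℕ :=
  (nW0 k t + nW1 k t) ^ (2 * T + 1) * ((nW0 k t + nW1 k t) ^ (2 * N) -
    ((nW0 k t + nW1 k t) * (nW0 k t - nW1 k t)) ^ N)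
/-- Weight of the frozen phase. -/
def nBe (k T N t : ℕ) : ℕ :=
  2 ^ (2 * T + 1) * ((nW0 k t + nW1 k t) * (nW0 k t - nW1 k t)) ^ N
/-- Weighted sum of the block weights. -/
def nE (k u0 u1 v0 v1 : ℕ) : ℕ :=
  u0 * v0 * f00 k + u0 * v1 * f01 k + u1 * v0 * f10 k + u1 * v1 * f11 k
/-- The weights of the exclusive-or gadget. -/
def nL (k T N t x y : ℕ) : ℕ :=
  nAl k T N t ^ 2 * nE k 1 1 1 1 ^ (2 * T) +
    nAl k T N t * nBe k T N t *
      (nE k 1 1 (nW0 k t) (nW1 k t) * nE k (nW0 k t) (nW1 k t) 1 1) ^ T * (x + y) +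
    nBe k T N t ^ 2 * nE k (nW0 k t) (nW1 k t) (nW0 k t) (nW1 k t) ^ (2 * T) * (x * y)
/-- Weight of a zero. -/
def nP0 (k T N t : ℕ) : ℕ := nL k T N t (nW0 k t) (nW0 k t) + nL k T N t (nW1 k t) (nW1 k t)
/-- Weight of a one. -/
def nP1 (k T N t : ℕ) : ℕ := 2 * nL k T N t (nW0 k t) (nW1 k t)
/-- Signed weight of a zero. -/
def nM (k T N t : ℕ) : ℕ := nL k T N t (nW0 k t) (nW0 k t) - nL k T N t (nW1 k t) (nW1 k t)
/-- Weight of the frozen phase of the large hyperedge. -/
def nB3 (k T N t d r : ℕ) : ℕ :=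
  ((f00 k + f10 k) * nP0 k T N t ^ d + (f00 k - f10 k) * nM k T N t ^ d) ^ r -
    ((f00 k + f10 k) * nP0 k T N t ^ d) ^ r

/-- The large hyperedge. -/
def gHyp (T N t d r : ℕ) : Gad := gR r (gC d (gX T (gH (2 * T + 1) (N * 2) t)))

section poly

variable {α : Type} [N487b59b3 α]

@[fun_prop] theorem p_nW0 (k : ℕ) {t : α → ℕ} (ht : Un t) : PolyT.Poly fun a => nW0 k (t a) := by
  unfold nW0; fun_prop

@[fun_prop] theorem p_nW1 (k : ℕ) {t : α → ℕ} (ht : Un t) : PolyT.Poly fun a => nW1 k (t a) := by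
  unfold nW1; fun_prop

@[fun_prop] theorem p_nAl (k : ℕ) {T N t : α → ℕ} (hT : Un T) (hN : Un N) (ht : Un t) :
    PolyT.Poly fun a => nAl k (T a) (N a) (t a) := by
  unfold nAl; fun_prop

@[fun_prop] theorem p_nBe (k : ℕ) {T N t : α → ℕ} (hT : Un T) (hN : Un N) (ht : Un t) :
    PolyT.Poly fun a => nBe k (T a) (N a) (t a) := by
  unfold nBe; fun_prop

@[fun_prop] theorem p_nE (k : ℕ) {u0 u1 v0 v1 : α → ℕ} (h1 : PolyT.Poly u0) (h2 : PolyT.Poly u1)
    (h3 : PolyT.Poly v0) (h4 : PolyT.Poly v1) :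
    PolyT.Poly fun a => nE k (u0 a) (u1 a) (v0 a) (v1 a) := by
  unfold nE; fun_prop

@[fun_prop] theorem p_nL (k : ℕ) {T N t x y : α → ℕ} (hT : Un T) (hN : Un N) (ht : Un t)
    (hx : PolyT.Poly x) (hy : PolyT.Poly y) :
    PolyT.Poly fun a => nL k (T a) (N a) (t a) (x a) (y a) := by
  unfold nL; fun_prop

@[fun_prop] theorem p_nP0 (k : ℕ) {T N t : α → ℕ} (hT : Un T) (hN : Un N) (ht : Un t) :
    PolyT.Poly fun a => nP0 k (T a) (N a) (t a) := by
  unfold nP0; fun_prop

@[fun_prop] theorem p_nP1 (k : ℕ) {T N t : α → ℕ} (hT : Un T) (hN : Un N) (ht : Un t) :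
    PolyT.Poly fun a => nP1 k (T a) (N a) (t a) := by
  unfold nP1; fun_prop

@[fun_prop] theorem p_nM (k : ℕ) {T N t : α → ℕ} (hT : Un T) (hN : Un N) (ht : Un t) :
    PolyT.Poly fun a => nM k (T a) (N a) (t a) := by
  unfold nM; fun_prop

@[fun_prop] theorem p_nB3 (k : ℕ) {T N t d r : α → ℕ} (hT : Un T) (hN : Un N) (ht : Un t)
    (hd : Un d) (hr : Un r) : PolyT.Poly fun a => nB3 k (T a) (N a) (t a) (d a) (r a) := by
  unfold nB3; fun_prop

@[fun_prop] theorem p_gHyp {T N t d r : α → ℕ} (hT : Un T) (hN : Un N) (ht : Un t)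
    (hd : Un d) (hr : Un r) : PolyT.Poly fun a => gHyp (T a) (N a) (t a) (d a) (r a) :=
  p_gR hr (p_gC hd (p_gX hT (p_gH (by fun_prop) (by fun_prop) ht)))

end poly

theorem f01_le {k : ℕ} (hk : 2 ≤ k) : f01 k ≤ f00 k := by
  unfold f01 f00
  have : k ^ 2 ≤ k ^ 4 := Nat.pow_le_pow_right (by omega) (by omega)
  omega

theorem f10_le (k : ℕ) : f10 k ≤ f00 k := by
  unfold f10 f00
  zify
  nlinarith [mul_nonneg (sq_nonneg (k : ℤ)) (sq_nonneg ((k : ℤ) - 1))]

theorem nW1_le {k : ℕ} (hk : 2 ≤ k) (t : ℕ) : nW1 k t ≤ nW0 k t :=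
  Nat.pow_le_pow_left (f01_le hk) t

theorem cast_nAl {k : ℕ} (hk : 2 ≤ k) (T N t : ℕ) : (nAl k T N t : ℝ) =
    ((nW0 k t : ℝ) + nW1 k t) ^ (2 * T + 1) * (((nW0 k t : ℝ) + nW1 k t) ^ (2 * N) -
      (((nW0 k t : ℝ) + nW1 k t) * ((nW0 k t : ℝ) - nW1 k t)) ^ N) := by
  unfold nAl
  rw [Nat.cast_mul, Nat.cast_sub]
  · push_cast [Nat.cast_sub (nW1_le hk t)]; rfl
  · rw [pow_mul]
    exact Nat.pow_le_pow_left (by rw [sq]; exact Nat.mul_le_mul_left _ (by omega)) N

theorem cast_nBe {k : ℕ} (hk : 2 ≤ k) (T N t : ℕ) : (nBe k T N t : ℝ) =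
    2 ^ (2 * T + 1) * (((nW0 k t : ℝ) + nW1 k t) * ((nW0 k t : ℝ) - nW1 k t)) ^ N := by
  unfold nBe
  push_cast [Nat.cast_sub (nW1_le hk t)]; rfl

theorem cast_nM {k : ℕ} (hk : 2 ≤ k) (T N t : ℕ) : (nM k T N t : ℝ) =
    nL k T N t (nW0 k t) (nW0 k t) - nL k T N t (nW1 k t) (nW1 k t) := by
  unfold nM
  rw [Nat.cast_sub]
  have := nW1_le hk t
  unfold nL
  gcongr

theorem cast_nB3 (k T N t d r : ℕ) : (nB3 k T N t d r : ℝ) =
    (((f00 k : ℝ) + f10 k) * (nP0 k T N t : ℝ) ^ d +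
      ((f00 k : ℝ) - f10 k) * (nM k T N t : ℝ) ^ d) ^ r -
      (((f00 k : ℝ) + f10 k) * (nP0 k T N t : ℝ) ^ d) ^ r := by
  unfold nB3
  rw [Nat.cast_sub (Nat.pow_le_pow_left (Nat.le_add_right _ _) r)]
  push_cast [Nat.cast_sub (f10_le k)]; rfl

theorem Z_gHyp {k : ℕ} (hk : 2 ≤ k) (T ρ t d r : ℕ) (a : ℕ → F) :
    (2 * ((2 ^ (2 * T + 1)) ^ 2) ^ d) ^ r * Z k (gHyp T (ρ * 2 ^ (2 * T)) t d r) a =
      ((f00 k : ℝ) + f10 k) ^ r * ∏ i ∈ range d, (if a i = 0 then
          (nP0 k T (ρ * 2 ^ (2 * T)) t : ℝ) ^ r else (nP1 k T (ρ * 2 ^ (2 * T)) t : ℝ) ^ r) +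
        nB3 k T (ρ * 2 ^ (2 * T)) t d r * ∏ i ∈ range d, (if a i = 0 then 1 else 0) := by
  set N := ρ * 2 ^ (2 * T) with hN
  have w0 : W k t 0 = nW0 k t := by simp [W, nW0]
  have w1 : W k t 1 = nW1 k t := by simp [W, nW1]
  have hH : ∀ a, 2 ^ (2 * T + 1) * Z k (gH (2 * T + 1) (N * 2) t) a =
      nAl k T N t + nBe k T N t * ∏ l ∈ range (2 * T + 1), W k t (a l) := by
    intro a
    rw [cast_nAl hk, cast_nBe hk, ← w0, ← w1, show N * 2 = ρ * 2 ^ (2 * T + 1) by rw [hN]; ring]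
    exact Z_gH k (2 * T) ρ t a
  have hX := Z_gX k T _ _ _ _ _ hH
  have hC := Z_gC k d _ _ (fun x y => (nAl k T N t : ℝ) ^ 2 *
      esum k (fun _ => 1) (fun _ => 1) ^ (2 * T) + nAl k T N t * nBe k T N t *
        (esum k (fun _ => 1) (W k t) * esum k (W k t) (fun _ => 1)) ^ T * (W k t x + W k t y) +
        (nBe k T N t : ℝ) ^ 2 * esum k (W k t) (W k t) ^ (2 * T) * (W k t x * W k t y))
    (by ring) hX a
  rw [gHyp, Z_gR, ← mul_pow, hC, two_phase, cast_nB3, cast_nM hk]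
  simp only [nP0, nP1, nL, nE, esum, w0, w1]
  push_cast
  simp only [one_mul, mul_one]

theorem half_pow {x : ℝ} {c : ℕ} (hc : 0 < c) (m : ℕ) (h0 : 0 ≤ x) (h1 : x ≤ 1 - 1 / c) :
    x ^ (c * m) ≤ 1 / 2 ^ m := by
  have hc' : (0 : ℝ) < c := by exact_mod_cast hc
  have h2 : (2 : ℝ) ≤ (1 + 1 / c) ^ c := by
    have := one_add_mul_le_pow (a := 1 / (c : ℝ)) (by
      have : (0 : ℝ) ≤ 1 / c := by positivity
      linarith) c
    rwa [mul_one_div_cancel hc'.ne', one_add_one_eq_two] at this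
  have h3 : x ^ c * (1 + 1 / c) ^ c ≤ 1 := by
    rw [← mul_pow]
    refine pow_le_one₀ (by positivity) ?_
    have : (0 : ℝ) ≤ 1 / c := by positivity
    nlinarith
  have h4 : x ^ c ≤ 1 / 2 := by
    have : 0 ≤ x ^ c := by positivity
    nlinarith
  rw [pow_mul, one_div, ← inv_pow, ← one_div]
  exact pow_le_pow_left₀ (by positivity) h4 m

theorem tune {X Y D ζ : ℝ} (hY : 0 < Y) (hXY : Y ≤ X) (hD : 2 ≤ D) (h1 : 1 / 2 ≤ ζ) (h2 : ζ ≤ 1)
    {ρ : ℕ} (hρ : D * X * ζ ^ ρ ≤ Y * (1 - ζ ^ ρ))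
    (hmin : ∀ σ < ρ, ¬ D * X * ζ ^ σ ≤ Y * (1 - ζ ^ σ)) :
    Y * (1 - ζ ^ ρ) ≤ 4 * D * X * ζ ^ ρ := by
  have hX : 0 < X := by linarith
  have hDX : 2 * X ≤ D * X := by nlinarith
  rcases ρ with _ | _ | σ
  · simp at hρ; nlinarith
  · simp at hρ; nlinarith
  · have h3 := not_le.1 (hmin (σ + 1) (by omega))
    have h4 : ζ ^ (σ + 1) ≤ ζ := by
      rw [pow_succ]
      have : ζ ^ σ ≤ 1 := pow_le_one₀ (by linarith) h2
      nlinarith
    have h5 : 0 ≤ ζ ^ (σ + 1) := by positivity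
    rw [pow_succ ζ (σ + 1)]
    set z := ζ ^ (σ + 1)
    have h6 : 1 - z * ζ ≤ 2 * (1 - z) := by nlinarith
    have h7 : z ≤ 2 * (z * ζ) := by nlinarith
    calc Y * (1 - z * ζ) ≤ Y * (2 * (1 - z)) := by gcongr
      _ ≤ 2 * (D * X * z) := by linarith
      _ ≤ 2 * (D * X * (2 * (z * ζ))) := by gcongr
      _ = _ := by ring

/-- The least `i ≤ R` with `p i`. -/
def firstP (R : ℕ) (p : ℕ → Bool) : ℕ :=
  min (((List.range (R + 1)).filter fun i => p (min i R)).headD 0) R

theorem firstP_spec {R : ℕ} {p : ℕ → Bool} (h : p R = true) :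
    p (firstP R p) = true ∧ (∀ i < firstP R p, p i = false) ∧ firstP R p ≤ R := by
  have hex : ∃ i, p i = true := ⟨R, h⟩
  have h1 : Nat.find hex ≤ R := Nat.find_min' hex h
  have h2 : firstP R p = Nat.find hex := by
    unfold firstP
    obtain ⟨m, hm⟩ := Nat.exists_eq_add_of_le h1
    rw [show R + 1 = Nat.find hex + (m + 1) by omega, List.range_add, List.filter_append,
      List.filter_eq_nil_iff.2, List.nil_append, List.range_succ_eq_map, List.map_cons,
      List.filter_cons_of_pos]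
    · simpa using h1
    · simpa [min_eq_left h1] using Nat.find_spec hex
    · intro i hi
      have hi' := List.mem_range.1 hi
      rw [min_eq_left (by omega)]
      exact Nat.find_min hex hi'
  rw [h2]
  exact ⟨Nat.find_spec hex, fun i hi => by simpa using Nat.find_min hex hi, h1⟩

theorem u_firstP {α : Type} [N487b59b3 α] {R : α → ℕ} {p : α → ℕ → Bool} (hR : Un R)
    (hp : PolyT.Poly fun x : α × ℕ => p x.1 (min x.2 (R x.1))) :
    Un fun a => firstP (R a) (p a) :=
  u_min (p_headD (p_filter (c := fun a i => p a (min i (R a))) hp (by fun_prop)) (by fun_prop)) hR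

end Pool.Agent.MP_74c440_lc

end MrgPart1

-- ======== part 2: formerly Pool.Agent.MP_74c440_lc.Par2
section MrgPart2

/-!
The parameters of the exclusive-or gadget and the resulting inequalities.
-/

set_option autoImplicit false

namespace Pool.Agent.MP_74c440_lc

open Pool.Agent.PolyT Pool.Agent.H82 Finset

/-- Half the number of blocks between the two small hyperedges. -/
def pT (k D : ℕ) : ℕ := 24 * k ^ 3 * (D.size + 1)
/-- Length of the chains. -/
def pt (k D : ℕ) : ℕ := 2 * (2 * pT k D + 1)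
/-- Range of the search. -/
def pR (k D : ℕ) : ℕ := D * 2 ^ ((2 * pT k D + 1) * (1 + 2 * (k ^ 2 + 1).size))
/-- The tuning condition. -/
def tuneP (k D N : ℕ) : Bool :=
  ltB (D * nBe k (pT k D) N (pt k D) * nW0 k (pt k D) *
      nE k (nW0 k (pt k D)) (nW1 k (pt k D)) (nW0 k (pt k D)) (nW1 k (pt k D)) ^ (2 * pT k D))
    (nAl k (pT k D) N (pt k D) * (nE k 1 1 (nW0 k (pt k D)) (nW1 k (pt k D)) *
      nE k (nW0 k (pt k D)) (nW1 k (pt k D)) 1 1) ^ pT k D + 1)
/-- Half the number of columns. -/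
def pN (k D : ℕ) : ℕ :=
  firstP (pR k D) (fun ρ => tuneP k D (ρ * 2 ^ (2 * pT k D))) * 2 ^ (2 * pT k D)

section poly

variable {α : Type} [N487b59b3 α]

@[fun_prop] theorem u_pT (k : ℕ) {D : α → ℕ} (hD : Un D) : Un fun a => pT k (D a) := by
  unfold pT; fun_prop

@[fun_prop] theorem u_pt (k : ℕ) {D : α → ℕ} (hD : Un D) : Un fun a => pt k (D a) := by
  unfold pt; fun_prop

theorem u_two_pow_T (k c e : ℕ) {D : α → ℕ} (hD : Un D) :
    Un fun a => 2 ^ (c * pT k (D a) + e) := by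
  have h := u_mul (u_two_pow_size (c * (24 * k ^ 3)) hD) (u_const (2 ^ (c * (24 * k ^ 3) + e)))
  convert h using 2 with a
  rw [← pow_add, pT]
  congr 1
  ring

@[fun_prop] theorem u_pR (k : ℕ) {D : α → ℕ} (hD : Un D) : Un fun a => pR k (D a) := by
  have h := u_mul hD (u_two_pow_T k (2 * (1 + 2 * (k ^ 2 + 1).size)) (1 + 2 * (k ^ 2 + 1).size) hD)
  convert h using 2 with a
  rw [pR]
  congr 2
  ring

@[fun_prop] theorem p_tuneP (k : ℕ) {D N : α → ℕ} (hD : Un D) (hN : Un N) :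
    PolyT.Poly fun a => tuneP k (D a) (N a) := by
  unfold tuneP; fun_prop

@[fun_prop] theorem u_pN (k : ℕ) {D : α → ℕ} (hD : Un D) : Un fun a => pN k (D a) := by
  have h : Un fun a => 2 ^ (2 * pT k (D a)) := u_two_pow_T k 2 0 hD
  refine u_mul (u_firstP (u_pR k hD) (p_tuneP k (u_comp hD (by fun_prop)) (u_mul ?_ ?_))) h
  · exact u_min (by fun_prop) (u_comp (g := fun a => pR k (D a)) (u_pR k hD) (by fun_prop))
  · exact u_comp (g := fun a => 2 ^ (2 * pT k (D a))) h (by fun_prop)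

end poly

theorem f_facts {k : ℕ} (hk : 2 ≤ k) :
    (0 : ℝ) < f11 k ∧ (f11 k : ℝ) ≤ f01 k ∧ (f01 k : ℝ) ≤ f10 k ∧ (f10 k : ℝ) ≤ f00 k ∧
      5 * (f01 k : ℝ) ≤ 2 * f00 k ∧ (f00 k : ℝ) ≤ (k ^ 2 + 1) * f01 k ∧
      ((f00 k : ℝ) + f01 k + f10 k + f11 k) ^ 2 ≤
        6 * k ^ 3 * ((f10 k : ℝ) * f01 k - f00 k * f11 k) ∧
      (f00 k : ℝ) ≤ k * f10 k ∧ (f00 k : ℝ) + f10 k ≤ 9 * ((f00 k : ℝ) - f10 k) := by
  have h : (2 : ℝ) ≤ k := by exact_mod_cast hk
  obtain ⟨x, hx⟩ : ∃ x : ℝ, (k : ℝ) = x + 2 := ⟨k - 2, by ring⟩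
  have h0 : 0 ≤ x := by linarith
  simp only [f00, f01, f10, f11]
  push_cast
  rw [hx]
  refine ⟨by positivity, ?_, ?_, ?_, ?_, ?_, ?_, ?_, ?_⟩ <;>
    (rw [← sub_nonneg]; ring_nf; positivity)

theorem size_bound (D : ℕ) : (D : ℝ) < 2 ^ D.size := by exact_mod_cast Nat.lt_size_self D

theorem ineq_final {D w0 w1 η a η' : ℝ} (hD : 2 ≤ D) (hw : 0 < w0) (hw1 : 0 ≤ w1)
    (h1 : D * w1 ≤ w0) (hη : 0 ≤ η) (ha : 0 < a) (hη' : 0 ≤ η') (h2 : D * η ≤ a * w0)
    (h3 : D * η' * w0 ≤ a) (P0 P1 M : ℝ)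
    (e0 : P0 = η + a * (w0 + w0) + η' * (w0 * w0) + (η + a * (w1 + w1) + η' * (w1 * w1)))
    (e1 : P1 = 2 * (η + a * (w0 + w1) + η' * (w0 * w1)))
    (e2 : M = η + a * (w0 + w0) + η' * (w0 * w0) - (η + a * (w1 + w1) + η' * (w1 * w1))) :
    0 < P0 ∧ P1 ≤ P0 ∧ D * (P0 - P1) ≤ P0 ∧ M ≤ P0 ∧ D * (P0 - M) ≤ 4 * P0 := by
  have hle : w1 ≤ w0 := by nlinarith
  have b1 : 2 * (a * w0) ≤ P0 := by
    rw [e0]
    have : 0 ≤ η' * (w0 * w0) := by positivity
    have : 0 ≤ η' * (w1 * w1) := by positivity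
    have : 0 ≤ a * w1 := by positivity
    nlinarith
  have b2 : P0 - P1 = η' * (w0 - w1) ^ 2 := by rw [e0, e1]; ring
  have b3 : P0 - M = 2 * η + 4 * (a * w1) + 2 * (η' * (w1 * w1)) := by rw [e0, e2]; ring
  have b4 : 0 < a * w0 := by positivity
  have b5 : D * (η' * (w0 * w0)) ≤ a * w0 := by
    have := mul_le_mul_of_nonneg_right h3 hw.le
    nlinarith
  have b6 : (w0 - w1) ^ 2 ≤ w0 * w0 := by nlinarith
  have b7 : w1 * w1 ≤ w0 * w0 := by nlinarith
  have hD0 : 0 ≤ D := by linarith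
  refine ⟨by linarith, ?_, ?_, ?_, ?_⟩
  · have : 0 ≤ η' * (w0 - w1) ^ 2 := by positivity
    linarith
  · have : D * (η' * (w0 - w1) ^ 2) ≤ D * (η' * (w0 * w0)) := by gcongr
    rw [b2]; linarith
  · have : 0 ≤ η' * (w1 * w1) := by positivity
    have : 0 ≤ a * w1 := by positivity
    linarith
  · have c1 : D * (η' * (w1 * w1)) ≤ D * (η' * (w0 * w0)) := by gcongr
    have c2 : a * (D * w1) ≤ a * w0 := by gcongr
    rw [b3]; nlinarith

theorem esum_facts {a b c e w0 w1 K : ℝ} (f1 : 0 < e) (f2 : e ≤ b) (f3 : b ≤ c) (f4 : c ≤ a)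
    (hK : 0 < K) (f7 : (a + b + c + e) ^ 2 ≤ K * (c * b - a * e)) (hw' : 0 < w1)
    (h7 : 4 * w1 ≤ w0) (S Efz Ezf Ezz : ℝ) (hS : S = a + b + c + e)
    (hEfz : Efz = w0 * a + w1 * b + w0 * c + w1 * e)
    (hEzf : Ezf = w0 * a + w0 * b + w1 * c + w1 * e)
    (hEzz : Ezz = w0 * w0 * a + w0 * w1 * b + w1 * w0 * c + w1 * w1 * e) :
    0 < S ∧ 0 < Efz ∧ 0 < Ezf ∧ 0 < Ezz ∧ (w0 + w1) * Efz ≤ 2 * Ezz ∧ (w0 + w1) * Ezf ≤ 2 * Ezz ∧
      Ezz ≤ (w0 + w1) * Efz ∧ Ezz ≤ (w0 + w1) * Ezf ∧ S * Ezz / (Efz * Ezf) ≤ 1 - 1 / (4 * K) := by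
  have hb0 : 0 < b := by linarith
  have hc0 : 0 < c := by linarith
  have ha0 : 0 < a := by linarith
  have hw : 0 < w0 := by linarith
  have hB0 : 0 < w0 - w1 := by linarith
  have p1 : 0 < Efz := by rw [hEfz]; positivity
  have p2 : 0 < Ezf := by rw [hEzf]; positivity
  have p3 : 0 < Ezz := by rw [hEzz]; positivity
  have p4 : 0 < S := by rw [hS]; positivity
  refine ⟨p4, p1, p2, p3, ?_, ?_, ?_, ?_, ?_⟩
  · have : 2 * Ezz - (w0 + w1) * Efz = (w0 - w1) * (w0 * (a - c) + w1 * (b - e)) := by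
      rw [hEzz, hEfz]; ring
    have h2 : 0 ≤ (w0 - w1) * (w0 * (a - c) + w1 * (b - e)) := by
      have : 0 ≤ a - c := by linarith
      have : 0 ≤ b - e := by linarith
      positivity
    linarith
  · have : 2 * Ezz - (w0 + w1) * Ezf = (w0 - w1) * (w0 * (a - b) + w1 * (c - e)) := by
      rw [hEzz, hEzf]; ring
    have h2 : 0 ≤ (w0 - w1) * (w0 * (a - b) + w1 * (c - e)) := by
      have : 0 ≤ a - b := by linarith
      have : 0 ≤ c - e := by linarith
      positivity
    linarith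
  · have : (w0 + w1) * Efz - Ezz = w0 * w0 * c + w0 * w1 * e + w0 * w1 * a + w1 * w1 * b := by
      rw [hEzz, hEfz]; ring
    have h2 : 0 ≤ w0 * w0 * c + w0 * w1 * e + w0 * w1 * a + w1 * w1 * b := by positivity
    linarith
  · have : (w0 + w1) * Ezf - Ezz = w0 * w0 * b + w0 * w1 * e + w0 * w1 * a + w1 * w1 * c := by
      rw [hEzz, hEzf]; ring
    have h2 : 0 ≤ w0 * w0 * b + w0 * w1 * e + w0 * w1 * a + w1 * w1 * c := by positivity
    linarith
  · have g1 : Efz * Ezf - S * Ezz = (w0 - w1) ^ 2 * (c * b - a * e) := by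
      rw [hS, hEzz, hEfz, hEzf]; ring
    have hle : w1 ≤ w0 := by linarith
    have g2 : Efz ≤ w0 * S := by
      rw [hEfz, hS, mul_add, mul_add, mul_add]; gcongr
    have g3 : Ezf ≤ w0 * S := by
      rw [hEzf, hS, mul_add, mul_add, mul_add]; gcongr
    have g4 : Efz * Ezf ≤ (w0 * S) * (w0 * S) := by gcongr
    have g5 : w0 ^ 2 ≤ (2 * (w0 - w1)) ^ 2 := by gcongr; linarith
    have g6 : w0 ^ 2 * S ^ 2 ≤ (2 * (w0 - w1)) ^ 2 * (K * (c * b - a * e)) := by
      rw [hS]; gcongr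
    rw [div_le_iff₀ (by positivity), sub_mul, one_mul, le_sub_comm, g1, one_div,
      inv_mul_le_iff₀ (by positivity)]
    calc Efz * Ezf ≤ w0 ^ 2 * S ^ 2 := by rw [← mul_pow, sq]; exact g4
      _ ≤ _ := g6
      _ = _ := by ring

theorem w_facts {k D : ℕ} (hk : 2 ≤ k) :
    (0 : ℝ) < nW1 k (pt k D) ∧
      4 * 2 ^ (2 * pT k D) * (nW1 k (pt k D) : ℝ) ≤ nW0 k (pt k D) ∧
      (D : ℝ) ≤ 2 ^ (2 * pT k D) ∧
      (nW0 k (pt k D) : ℝ) ≤ 2 ^ ((2 * pT k D + 1) * (2 * (k ^ 2 + 1).size)) * nW1 k (pt k D) := by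
  obtain ⟨f1, f2, f3, f4, f5, f6, -, -, -⟩ := f_facts hk
  have hk3 : 0 < 24 * k ^ 3 := by positivity
  have hTD : D.size + 1 ≤ pT k D := Nat.le_mul_of_pos_left _ hk3
  have h9 := size_bound (k ^ 2 + 1)
  simp only [nW0, nW1, pt]
  push_cast at h9 ⊢
  generalize pT k D = T at *
  generalize (f00 k : ℝ) = a at *
  generalize (f01 k : ℝ) = b at *
  generalize (k ^ 2 + 1).size = s at *
  have hb0 : 0 < b := by linarith
  have ha0 : 0 < a := by linarith
  refine ⟨by positivity, ?_,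
    (size_bound D).le.trans (pow_le_pow_right₀ (by norm_num) (by omega)), ?_⟩
  · have h4 : 4 ^ (2 * T + 1) * b ^ (2 * (2 * T + 1)) ≤ a ^ (2 * (2 * T + 1)) := by
      rw [pow_mul b, pow_mul a, ← mul_pow]
      exact pow_le_pow_left₀ (by positivity) (by nlinarith) _
    refine le_trans ?_ h4
    rw [pow_succ' 4]
    gcongr
    norm_num
  · have h10 : a ≤ 2 ^ s * b := f6.trans (by gcongr)
    rw [show (2 * T + 1) * (2 * s) = s * (2 * (2 * T + 1)) by ring, pow_mul 2 s, ← mul_pow]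
    exact pow_le_pow_left₀ ha0.le h10 _

theorem zeta_facts {w0 w1 : ℝ} {h : ℕ} (hh : 0 < h) (hw' : 0 < w1) (h5 : 4 * h * w1 ≤ w0) :
    1 / 2 ≤ ((w0 - w1) / (w0 + w1)) ^ h ∧ ((w0 - w1) / (w0 + w1)) ^ h ≤ 1 ∧
      ((w0 - w1) / (w0 + w1)) ^ h * (1 + w1 / w0) ≤ 1 := by
  have h1 : (1 : ℝ) ≤ h := by exact_mod_cast hh
  have h7 : 4 * w1 ≤ w0 := by nlinarith
  have hw : 0 < w0 := by linarith
  have hA0 : 0 < w0 + w1 := by linarith
  have hB0 : 0 < w0 - w1 := by linarith
  have hBA : (w0 - w1) / (w0 + w1) = 1 - 2 * w1 / (w0 + w1) := by field_simp; ring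
  have hBA0 : 0 < (w0 - w1) / (w0 + w1) := by positivity
  have hBA1 : (w0 - w1) / (w0 + w1) ≤ 1 := by rw [div_le_one hA0]; linarith
  have z2 := pow_le_of_le_one hBA0.le hBA1 hh.ne'
  refine ⟨?_, z2.trans hBA1, ?_⟩
  · have h1 := one_add_mul_le_pow (a := -(2 * w1 / (w0 + w1))) (by linarith) h
    rw [← sub_eq_add_neg, ← hBA] at h1
    have h2 : (h : ℝ) * (2 * w1 / (w0 + w1)) ≤ 1 / 2 := by
      rw [← mul_div_assoc, div_le_iff₀ hA0]; linarith
    linarith
  · have : (w0 - w1) / (w0 + w1) * (1 + w1 / w0) = (w0 - w1) / w0 := by field_simp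
    have h2 : (w0 - w1) / w0 ≤ 1 := by rw [div_le_one hw]; linarith
    calc _ ≤ (w0 - w1) / (w0 + w1) * (1 + w1 / w0) := by gcongr
      _ ≤ 1 := by rw [this]; exact h2

theorem range_ok {D X Y ζ y Q : ℝ} {R : ℕ} (hD : 0 ≤ D) (hY : 0 < Y) (hζ : 0 < ζ) (hy : 0 ≤ y)
    (r2 : X ≤ Q * Y) (g1 : ζ * (1 + y) ≤ 1) (g3 : D * Q ≤ R * y) :
    D * X * ζ ^ R ≤ Y * (1 - ζ ^ R) := by
  have g2 := one_add_mul_le_pow (a := y) (by linarith) R
  have g4 : ζ ^ R * (1 + y) ^ R ≤ 1 := by
    rw [← mul_pow]; exact pow_le_one₀ (by positivity) g1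
  have g6 : ζ ^ R * (1 + D * Q) ≤ 1 := by
    refine le_trans ?_ g4
    gcongr
    linarith
  calc D * X * ζ ^ R ≤ D * (Q * Y) * ζ ^ R := by gcongr
    _ = Y * (ζ ^ R * (D * Q)) := by ring
    _ ≤ _ := by gcongr; linarith

theorem hyp_ineq {k D : ℕ} (hk : 2 ≤ k) (hD : 2 ≤ D) :
    (0 : ℝ) < nP0 k (pT k D) (pN k D) (pt k D) ∧
      (nP1 k (pT k D) (pN k D) (pt k D) : ℝ) ≤ nP0 k (pT k D) (pN k D) (pt k D) ∧
      (D : ℝ) * (nP0 k (pT k D) (pN k D) (pt k D) - nP1 k (pT k D) (pN k D) (pt k D)) ≤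
        nP0 k (pT k D) (pN k D) (pt k D) ∧
      (nM k (pT k D) (pN k D) (pt k D) : ℝ) ≤ nP0 k (pT k D) (pN k D) (pt k D) ∧
      (D : ℝ) * (nP0 k (pT k D) (pN k D) (pt k D) - nM k (pT k D) (pN k D) (pt k D)) ≤
        4 * nP0 k (pT k D) (pN k D) (pt k D) := by
  obtain ⟨f1, f2, f3, f4, -, -, f7, -, -⟩ := f_facts hk
  obtain ⟨hw', h5, hDj, h8⟩ := w_facts (D := D) hk
  have hD' : (2 : ℝ) ≤ D := by exact_mod_cast hD
  have hk3 : 0 < 24 * k ^ 3 := by positivity
  have hk0 : (0 : ℝ) < k := by positivity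
  obtain ⟨T, hT⟩ : ∃ T, T = pT k D := ⟨_, rfl⟩
  obtain ⟨t, ht⟩ : ∃ t, t = pt k D := ⟨_, rfl⟩
  obtain ⟨w0, hw0⟩ : ∃ w0 : ℝ, w0 = nW0 k t := ⟨_, rfl⟩
  obtain ⟨w1, hw1⟩ : ∃ w1 : ℝ, w1 = nW1 k t := ⟨_, rfl⟩
  rw [← ht, ← hw1] at hw'
  rw [← hT, ← ht, ← hw1, ← hw0] at h5 h8
  rw [← hT] at hDj
  rw [← hT, ← ht]
  have h2T : (1 : ℝ) ≤ 2 ^ (2 * T) := one_le_pow₀ (by norm_num)
  have h7 : 4 * w1 ≤ w0 := by
    refine le_trans ?_ h5
    gcongr; linarith
  have h6 : D * w1 ≤ w0 := by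
    refine le_trans ?_ h5
    gcongr; linarith
  have hw : 0 < w0 := by linarith
  obtain ⟨z1, z2, z3⟩ := zeta_facts (h := 2 ^ (2 * T)) (by positivity) hw' (by push_cast; exact h5)
  obtain ⟨S, c1⟩ : ∃ S : ℝ, S = nE k 1 1 1 1 := ⟨_, rfl⟩
  obtain ⟨Efz, c2⟩ : ∃ S : ℝ, S = nE k 1 1 (nW0 k t) (nW1 k t) := ⟨_, rfl⟩
  obtain ⟨Ezf, c3⟩ : ∃ S : ℝ, S = nE k (nW0 k t) (nW1 k t) 1 1 := ⟨_, rfl⟩
  obtain ⟨Ezz, c4⟩ : ∃ S : ℝ, S = nE k (nW0 k t) (nW1 k t) (nW0 k t) (nW1 k t) := ⟨_, rfl⟩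
  obtain ⟨p4, p1, p2, p3, q1, q2, q3, q4, q5⟩ := esum_facts f1 f2 f3 f4 (by positivity) f7 hw' h7
    S Efz Ezf Ezz (by simp [c1, nE]) (by simp [c2, nE, hw0, hw1]) (by simp [c3, nE, hw0, hw1])
    (by simp [c4, nE, hw0, hw1])
  obtain ⟨A, hA⟩ : ∃ A, A = w0 + w1 := ⟨_, rfl⟩
  obtain ⟨B, hB⟩ : ∃ B, B = w0 - w1 := ⟨_, rfl⟩
  rw [← hA] at q1 q2 q3 q4
  rw [← hA, ← hB] at z1 z2 z3
  obtain ⟨ζ, hζ⟩ : ∃ ζ, ζ = (B / A) ^ 2 ^ (2 * T) := ⟨_, rfl⟩
  rw [← hζ] at z1 z2 z3
  have hA0 : 0 < A := by linarith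
  have z0 : 0 < ζ := by linarith
  obtain ⟨E, hE⟩ : ∃ E, E = (Efz * Ezf) ^ T := ⟨_, rfl⟩
  obtain ⟨X, hX⟩ : ∃ X, X = 2 ^ (2 * T + 1) * w0 * Ezz ^ (2 * T) := ⟨_, rfl⟩
  obtain ⟨Y, hY⟩ : ∃ Y, Y = A ^ (2 * T + 1) * E := ⟨_, rfl⟩
  have pE : 0 < E := by rw [hE]; positivity
  have pY : 0 < Y := by rw [hY]; positivity
  have eY : Y = A * ((A * Efz) * (A * Ezf)) ^ T := by rw [hY, hE]; ring
  have r1 : Y ≤ X := by
    rw [eY, hX, show 2 ^ (2 * T + 1) * w0 * Ezz ^ (2 * T) =
      (2 * w0) * ((2 * Ezz) * (2 * Ezz)) ^ T by rw [← sq, ← pow_mul, mul_pow]; ring]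
    gcongr
    linarith
  have r2 : X ≤ 2 ^ (2 * T + 1) * Y := by
    rw [eY, hX, mul_assoc, pow_mul Ezz, sq Ezz]
    gcongr
    linarith
  have r3 : 4 * D ^ 2 * (S * Ezz) ^ (2 * T) ≤ E ^ 2 := by
    have h2 := half_pow hk3 (2 * (D.size + 1)) (by positivity)
      (q5.trans_eq (by push_cast; ring))
    rw [show 24 * k ^ 3 * (2 * (D.size + 1)) = 2 * T by rw [hT, pT]; ring, div_pow,
      div_le_div_iff₀ (by positivity) (by positivity), one_mul] at h2
    have h3 : 4 * (D : ℝ) ^ 2 ≤ 2 ^ (2 * (D.size + 1)) := by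
      rw [mul_comm 2, pow_mul, pow_succ' 2, mul_pow, show (2 : ℝ) ^ 2 = 4 by norm_num]
      gcongr
      exact (size_bound D).le
    rw [hE, ← pow_mul, mul_comm T 2]
    refine le_trans ?_ h2
    rw [mul_comm]
    gcongr
  have key : ∀ ρ : ℕ, (nAl k T (ρ * 2 ^ (2 * T)) t : ℝ) =
      A ^ (2 * (ρ * 2 ^ (2 * T))) * (A ^ (2 * T + 1) * (1 - ζ ^ ρ)) ∧
      (nBe k T (ρ * 2 ^ (2 * T)) t : ℝ) =
        A ^ (2 * (ρ * 2 ^ (2 * T))) * (2 ^ (2 * T + 1) * ζ ^ ρ) := by
    intro ρ
    have : (A * B) ^ (ρ * 2 ^ (2 * T)) = A ^ (2 * (ρ * 2 ^ (2 * T))) * ζ ^ ρ := by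
      rw [hζ, ← pow_mul, pow_mul A 2, mul_comm (2 ^ (2 * T)) ρ, ← mul_pow]
      congr 1
      field_simp
    rw [cast_nAl hk, cast_nBe hk, ← hw0, ← hw1, ← hA, ← hB, this]
    constructor <;> ring
  have hpred : ∀ ρ : ℕ, tuneP k D (ρ * 2 ^ (2 * T)) = true ↔
      D * X * ζ ^ ρ ≤ Y * (1 - ζ ^ ρ) := by
    intro ρ
    rw [tuneP, ltB_iff, Nat.lt_succ_iff, ← Nat.cast_le (α := ℝ)]
    push_cast
    rw [← hT, ← ht, ← c2, ← c3, ← c4, (key ρ).1, (key ρ).2, ← hw0, ← hE,
      ← mul_le_mul_iff_right₀ (pow_pos hA0 (2 * (ρ * 2 ^ (2 * T)))) (b := D * X * ζ ^ ρ), hX, hY]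
    constructor <;> intro h <;> linarith
  have hR : tuneP k D (pR k D * 2 ^ (2 * T)) = true := by
    rw [hpred]
    refine range_ok (by positivity) pY z0 (by positivity) r2 z3 ?_
    rw [pR, ← hT, mul_add, mul_one, pow_add _ (2 * T + 1), ← mul_div_assoc, le_div_iff₀ hw]
    push_cast
    rw [mul_assoc, mul_assoc, mul_assoc]
    gcongr
  obtain ⟨s1, s2, -⟩ := firstP_spec (p := fun ρ => tuneP k D (ρ * 2 ^ (2 * T))) hR
  rw [pN, ← hT]
  generalize firstP (pR k D) (fun ρ => tuneP k D (ρ * 2 ^ (2 * T))) = ρ at *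
  have t1 := (hpred ρ).1 s1
  have t2 := tune pY r1 hD' z1 z2 t1 (fun σ hσ => by
    rw [← hpred, s2 σ hσ]; simp)
  obtain ⟨k1, k2⟩ := key ρ
  generalize ρ * 2 ^ (2 * T) = N at *
  obtain ⟨α, hα⟩ : ∃ α : ℝ, α = nAl k T N t := ⟨_, rfl⟩
  obtain ⟨β, hβ⟩ : ∃ β : ℝ, β = nBe k T N t := ⟨_, rfl⟩
  have pA : 0 < A ^ (2 * N) := by positivity
  have pζ : 0 < ζ ^ ρ := by positivity
  have u1 : D * β * w0 * Ezz ^ (2 * T) ≤ α * E := by
    rw [hα, hβ, k1, k2]
    have := mul_le_mul_of_nonneg_left t1 pA.le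
    rw [hX, hY] at this
    linarith
  have u2 : α * E ≤ 4 * D * β * w0 * Ezz ^ (2 * T) := by
    rw [hα, hβ, k1, k2]
    have := mul_le_mul_of_nonneg_left t2 pA.le
    rw [hX, hY] at this
    linarith
  have pβ : 0 < β := by rw [hβ, k2]; positivity
  have pα : 0 < α := by
    have : 0 < D * β * w0 * Ezz ^ (2 * T) := by positivity
    exact (mul_pos_iff_of_pos_right pE).1 (this.trans_le u1)
  have u3 : D * α * S ^ (2 * T) ≤ β * w0 * E := by
    rw [← mul_le_mul_iff_left₀ pE]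
    calc D * α * S ^ (2 * T) * E = D * S ^ (2 * T) * (α * E) := by ring
      _ ≤ D * S ^ (2 * T) * (4 * D * β * w0 * Ezz ^ (2 * T)) := by gcongr
      _ = β * w0 * (4 * D ^ 2 * (S * Ezz) ^ (2 * T)) := by rw [mul_pow]; ring
      _ ≤ β * w0 * E ^ 2 := by gcongr
      _ = _ := by ring
  refine ineq_final (η := α ^ 2 * S ^ (2 * T)) (a := α * β * E) (η' := β ^ 2 * Ezz ^ (2 * T))
    hD' hw hw'.le h6 (by positivity) (by positivity) (by positivity) ?_ ?_ _ _ _ ?_ ?_ ?_
  · have := mul_le_mul_of_nonneg_left u3 pα.le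
    linarith
  · have := mul_le_mul_of_nonneg_left u1 pβ.le
    linarith
  · simp only [nP0, nL]; push_cast; rw [← c1, ← c2, ← c3, ← c4, ← hα, ← hβ, ← hw0, ← hw1, ← hE]
  · simp only [nP1, nL]; push_cast; rw [← c1, ← c2, ← c3, ← c4, ← hα, ← hβ, ← hw0, ← hw1, ← hE]
  · rw [cast_nM hk]; simp only [nL]; push_cast
    rw [← c1, ← c2, ← c3, ← c4, ← hα, ← hβ, ← hw0, ← hw1, ← hE]

end Pool.Agent.MP_74c440_lc

end MrgPart2

-- ======== part 3: formerly Pool.Agent.MP_74c440_lc.Grp2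
section MrgPart3

/-!
The group of a gadget, its generators, its number of orbits.
-/

set_option autoImplicit false

namespace Pool.Agent.MP_74c440_lc

open Pool.Agent.PolyT Pool.Agent.H82 Finset

/-- The block number `b`. -/
def blk (g : Gad) (b : ℕ) : Blk := g.2.getD b (([], []), ([], []))

/-- The group element with coordinates `c` and central part `z`. -/
def elt (g : Gad) (c : Fin g.1 → F) (z : Fin g.2.length → F) : Fin g.2.length → Hs :=
  fun b => Hs.mk (par (ext c) (blk g b).1.2) (par (ext c) (blk g b).2.2) (z b)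

theorem ext_add {K : ℕ} (c d : Fin K → F) : ext (c + d) = fun i => ext c i + ext d i := by
  funext i
  unfold ext
  split_ifs <;> simp

theorem ext_zero {K : ℕ} : ext (0 : Fin K → F) = fun _ => 0 := by
  funext i
  unfold ext
  split_ifs <;> simp

theorem par_zero (l : List ℕ) : par (fun _ => 0) l = 0 := by simp [par]

theorem par_zero' (l : List ℕ) : par 0 l = 0 := par_zero l

theorem elt_mul (g : Gad) (c d : Fin g.1 → F) (z w : Fin g.2.length → F) :
    elt g c z * elt g d w = elt g (c + d) fun b => (elt g c z b * elt g d w b).z := by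
  funext b
  rw [Pi.mul_apply, ← Hs.eta (elt g c z b * elt g d w b)]
  simp only [elt, Hs.mul_x, Hs.mul_y, Hs.mk_x, Hs.mk_y, ext_add, par_add]

/-- The subgroup of the product. -/
def Gam (g : Gad) : Subgroup (Fin g.2.length → Hs) where
  carrier := {h | ∃ c z, h = elt g c z}
  mul_mem' := by
    rintro _ _ ⟨c, z, rfl⟩ ⟨d, w, rfl⟩
    exact ⟨_, _, elt_mul g c d z w⟩
  one_mem' := ⟨0, 0, by funext b; simp only [elt, ext_zero, par_zero]; rfl⟩
  inv_mem' := by
    rintro _ ⟨c, z, rfl⟩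
    exact ⟨c, fun b => (elt g c z b)⁻¹.z, by funext b; rfl⟩

/-- The generators. -/
def gensP (g : Gad) : List (Equiv.Perm (Fin (g.2.length * 4))) :=
  (List.finRange g.1).map (fun v => rho _ (elt g (Pi.single v 1) 0)) ++
    (List.finRange g.2.length).map (fun b => rho _ (elt g 0 (Pi.single b 1)))

theorem length_gensP (g : Gad) : (gensP g).length = g.1 + g.2.length := by simp [gensP]

theorem gen_gensP (g : Gad) : gen (gensP g) = (Gam g).map (rho _) := by
  apply le_antisymm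
  · rw [gen, Subgroup.closure_le]
    intro π hπ
    simp only [gensP, Set.mem_ofPred_eq, List.mem_append, List.mem_map] at hπ
    rcases hπ with ⟨v, -, rfl⟩ | ⟨b, -, rfl⟩ <;> exact ⟨_, ⟨_, _, rfl⟩, rfl⟩
  · have hz : ∀ z, rho _ (elt g 0 z) ∈ gen (gensP g) := by
      intro z
      induction z using Pi.single_induction with
      | zero =>
        have : elt g 0 0 = 1 := by funext b; simp only [elt, ext_zero, par_zero]; rfl
        rw [this, map_one]; exact one_mem _
      | add z w hz hw =>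
        have : elt g 0 (z + w) = elt g 0 z * elt g 0 w := by
          rw [elt_mul, add_zero]
          congr 1
          funext b
          simp only [elt, ext_zero, par_zero]
          show _ = z b + w b + 0 * 0
          simp
        rw [this, map_mul]; exact mul_mem hz hw
      | single b x =>
        rcases F_cases x with rfl | rfl
        · have : elt g 0 (Pi.single b 0) = 1 := by
            funext b; simp only [elt, ext_zero, par_zero, Pi.single_zero]; rfl
          rw [this, map_one]; exact one_mem _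
        · exact Subgroup.subset_closure (by simp [gensP])
    have hc : ∀ c, ∃ z, rho _ (elt g c z) ∈ gen (gensP g) := by
      intro c
      induction c using Pi.single_induction with
      | zero => exact ⟨0, hz 0⟩
      | add c d hc hd =>
        obtain ⟨z, h1⟩ := hc
        obtain ⟨w, h2⟩ := hd
        exact ⟨_, by rw [← elt_mul, map_mul]; exact mul_mem h1 h2⟩
      | single v x =>
        rcases F_cases x with rfl | rfl
        · rw [Pi.single_zero]; exact ⟨0, hz 0⟩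
        · exact ⟨0, Subgroup.subset_closure (by simp [gensP])⟩
    rintro _ ⟨_, ⟨c, z, rfl⟩, rfl⟩
    obtain ⟨w, hw⟩ := hc c
    have : elt g c z = elt g 0 (z - w) * elt g c w := by
      rw [elt_mul, zero_add]
      congr 1
      funext b
      simp only [elt, ext_zero, par_zero]
      show _ = (z b - w b) + w b + 0 * _
      simp
    rw [this, map_mul]
    exact mul_mem (hz _) hw

/-- Parity of the number of occurrences. -/
def cnt (v : ℕ) (l : List ℕ) : Bool := (l.filter fun i => eqB i v).length.bodd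

theorem cnt_eq {K : ℕ} (v : Fin K) (l : List ℕ) :
    cnt v l = bt (par (ext (Pi.single v (1 : F))) l) := by
  have h : ∀ i, ext (Pi.single v (1 : F)) i = if i = v then 1 else 0 := by
    intro i
    unfold ext
    split_ifs with h1 h2 h2
    · subst h2; simp
    · exact Pi.single_eq_of_ne (fun h => h2 (congrArg Fin.val h)) _
    · exact absurd (h2 ▸ v.2) h1
    · rfl
  induction l with
  | nil => simp [cnt, bt]
  | cons i l ih =>
    rw [par_cons, h]
    unfold cnt at ih ⊢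
    by_cases hi : i = v
    · simp only [hi, List.filter_cons, eqB, decide_true, if_true, List.length_cons, Nat.bodd_succ]
      simp only [eqB] at ih
      rw [ih]
      generalize par _ l = x
      revert x; decide
    · simp only [hi, List.filter_cons, eqB, decide_false, if_false, zero_add]
      simpa [eqB] using ih

/-- The generators as lists of values. -/
def genList (g : Gad) : List (List ℕ) :=
  (List.range g.1).map (fun v => permOf g.2.length (fun b => cnt v (blk g b).1.2)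
      (fun b => cnt v (blk g b).2.2) (fun _ => false)) ++
    (List.range g.2.length).map (fun b0 => permOf g.2.length (fun _ => false) (fun _ => false)
      (fun b => eqB b b0))

theorem map_finRange_eq {β : Type} (n : ℕ) (f : Fin n → β) (f' : ℕ → β) (h : ∀ i, f i = f' i) :
    (List.finRange n).map f = (List.range n).map f' := by
  apply List.ext_getElem (by simp)
  intro i h1 h2
  simp [h]

theorem valList_gensP (g : Gad) :
    ((gensP g).map fun π : Equiv.Perm (Fin (g.2.length * 4)) => valList π) = genList g := by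
  rw [gensP, genList, List.map_append, List.map_map, List.map_map]
  congr 1
  · refine map_finRange_eq _ _ _ fun v => valList_rho _ _ _ _ (fun b => cnt_eq v _)
      (fun b => cnt_eq v _) (fun b => rfl)
  · refine map_finRange_eq _ _ _ fun b0 => valList_rho _ _ _ _ (fun b => ?_) (fun b => ?_)
      (fun b => ?_)
    · simp only [elt, ext_zero, par_zero]; rfl
    · simp only [elt, ext_zero, par_zero]; rfl
    · by_cases h : b = b0
      · subst h; simp [elt, bt, eqB]
      · have : (b : ℕ) ≠ b0 := fun h' => h (Fin.ext h')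
        simp [elt, bt, eqB, h, this]

theorem p_genList {α : Type} [N487b59b3 α] {g : α → Gad} (hg : PolyT.Poly g)
    (hK : Un fun a => (g a).1) : PolyT.Poly fun a => genList (g a) := by
  unfold genList permOf loc cnt blk
  fun_prop

theorem exists_fiber (g : Gad) : ∃ κ : ℝ, 0 < κ ∧
    ∀ f : Equiv.Perm (Fin (g.2.length * 4)) → ℝ,
      κ * ∑ π, ind (π ∈ gen (gensP g)) * f π = ∑ c, ∑ z, f (rho _ (elt g c z)) := by
  classical
  let p : (Fin g.1 → F) → Fin g.2.length → F × F :=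
    fun c b => (par (ext c) (blk g b).1.2, par (ext c) (blk g b).2.2)
  have hp : ∀ c d, p (c + d) = p c + p d := by
    intro c d
    funext b
    simp only [p, ext_add, par_add, Pi.add_apply, Prod.mk_add_mk]
  have hp0 : p 0 = 0 := by funext b; simp only [p, ext_zero, par_zero]; rfl
  have he : ∀ c z d w, elt g c z = elt g d w ↔ p c = p d ∧ z = w := by
    intro c z d w
    constructor
    · intro h
      refine ⟨funext fun b => ?_, funext fun b => congrArg Hs.z (congrFun h b)⟩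
      exact Prod.ext (congrArg Hs.x (congrFun h b)) (congrArg Hs.y (congrFun h b))
    · rintro ⟨h, rfl⟩
      funext b
      have := congrFun h b
      simp only [p, Prod.mk.injEq] at this
      simp only [elt, this.1, this.2]
  refine ⟨(univ.filter fun c => p c = 0).card, ?_, fun f => ?_⟩
  · exact_mod_cast card_pos.2 ⟨0, by simp [hp0]⟩
  rw [← Fintype.sum_prod_type' (fun c z => f (rho _ (elt g c z))),
    ← sum_fiberwise univ (fun x : (Fin g.1 → F) × (Fin g.2.length → F) => rho _ (elt g x.1 x.2)),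
    mul_sum]
  refine sum_congr rfl fun π _ => ?_
  rw [sum_congr rfl (g := fun _ => f π) (fun x hx => by rw [(mem_filter.1 hx).2]), sum_const,
    nsmul_eq_mul, ← mul_assoc]
  congr 1
  by_cases hπ : π ∈ gen (gensP g)
  · rw [ind_pos hπ, mul_one]
    rw [gen_gensP] at hπ
    obtain ⟨_, ⟨c, z, rfl⟩, rfl⟩ := hπ
    congr 1
    refine card_bij (fun d _ => (c + d, z)) (fun d hd => ?_) (fun d _ d' _ h => ?_)
      (fun x hx => ?_)
    · simp only [mem_filter, mem_univ, true_and] at hd ⊢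
      rw [(he (c + d) z c z).2 ⟨by rw [hp, hd, add_zero], rfl⟩]
    · simpa using h
    · simp only [mem_filter, mem_univ, true_and] at hx
      obtain ⟨h1, h2⟩ := (he _ _ _ _).1 (rho_inj _ hx)
      refine ⟨x.1 - c, ?_, by rw [← h2]; simp⟩
      simp only [mem_filter, mem_univ, true_and]
      have := hp c (x.1 - c)
      rw [add_sub_cancel, h1] at this
      exact (add_eq_left.1 this.symm)
  · rw [ind_neg hπ, mul_zero]
    symm
    rw [Nat.cast_eq_zero, card_eq_zero, filter_eq_empty_iff]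
    rintro x - rfl
    exact hπ (by rw [gen_gensP]; exact ⟨_, ⟨_, _, rfl⟩, rfl⟩)

theorem sum_fix (k : ℕ) (g : Gad) (c : Fin g.1 → F) :
    ∑ z, (fixN k (rho _ (elt g c z)) : ℝ) = blkW k 0 (ext c) g.2 := by
  simp only [fixN_rho, Nat.cast_prod, elt]
  rw [← Fintype.piFinset_univ, ← prod_univ_sum (fun _ => univ) (fun (b : Fin g.2.length) z =>
    (fixN k (act (Hs.mk (par (ext c) (blk g b).1.2) (par (ext c) (blk g b).2.2) z)) : ℝ)), blkW,
    ← Fin.prod_univ_fun_getElem]
  refine prod_congr rfl fun b _ => ?_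
  have := Fin.sum_univ_two (fun z : F =>
    (fixN k (act (Hs.mk (par (ext c) (blk g b).1.2) (par (ext c) (blk g b).2.2) z)) : ℝ))
  refine this.trans ((fix_sum k _ _).trans ?_)
  simp [blk, evF, par_zero']

theorem orbit_gad (k : ℕ) (g : Gad) :
    (orbitCount k (gen (gensP g)) : ℝ) * 2 ^ (g.1 + g.2.length) = Z k g 0 := by
  obtain ⟨κ, hκ, h⟩ := exists_fiber g
  have h1 := h (fun _ => 1)
  have h2 := h (fun π => fixN k π)
  simp only [mul_one, sum_const, card_univ, Fintype.card_pi, prod_const, ZMod.card,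
    Fintype.card_fin, nsmul_eq_mul] at h1
  rw [← burnside, mul_left_comm, h1] at h2
  simp only [sum_fix] at h2
  rw [Z, sumK, ← h2, pow_add]
  push_cast
  ring

theorem ups_gad (k : ℕ) (g : Gad) (P : Equiv.Perm (Fin (g.2.length * 4)) → Prop)
    (Q : (ℕ → F) → Prop) (hPQ : ∀ c z, P (rho _ (elt g c z)) ↔ Q (ext c)) :
    (Set.ncard {x ∈ Ups k (gen (gensP g)) | P x.2} : ℝ) / Set.ncard (Ups k (gen (gensP g))) =
      sumK g.1 (fun c => ind (Q c) * blkW k 0 c g.2) / Z k g 0 := by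
  obtain ⟨κ, hκ, h⟩ := exists_fiber g
  have h1 := h (fun π => ind (P π) * fixN k π)
  have h2 := h (fun π => ind True * fixN k π)
  rw [← ncard_ups] at h1
  rw [← ncard_ups k _ (fun _ => True)] at h2
  simp only [hPQ, ← mul_sum, sum_fix] at h1
  simp only [ind_pos trivial, one_mul, sum_fix, and_true, Set.ofPred_mem_eq] at h2
  rw [Z, sumK, sumK, ← h1, ← h2, mul_div_mul_left _ _ hκ.ne']

theorem read_y (g : Gad) (gens : List (Equiv.Perm (Fin (g.2.length * 4))))
    (hg : gen gens = gen (gensP g)) (b : ℕ) (hb : b < g.2.length) :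
    ((gens.map fun π : Equiv.Perm (Fin (g.2.length * 4)) => valList π).any
      fun l => ybit l b) = true ↔ ∃ c : Fin g.1 → F, par (ext c) (blk g b).2.2 = 1 := by
  simp only [List.any_map, List.any_eq_true, Function.comp]
  constructor
  · rintro ⟨π, h1, h2⟩
    have h3 : π ∈ gen gens := Subgroup.subset_closure h1
    rw [hg, gen_gensP] at h3
    obtain ⟨_, ⟨c, z, rfl⟩, rfl⟩ := h3
    rw [ybit_rho _ ⟨b, hb⟩] at h2
    exact ⟨c, by simpa [bt, elt] using h2⟩
  · rintro ⟨c, hc⟩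
    by_contra hn
    push Not at hn
    let S : Subgroup (Fin g.2.length → Hs) :=
      { carrier := {h | (h ⟨b, hb⟩).y = 0}
        mul_mem' := fun {x y} hx hy => by
          simp only [Set.mem_ofPred_eq] at hx hy ⊢
          simp [hx, hy]
        one_mem' := rfl
        inv_mem' := fun {x} hx => hx }
    have h1 : gen gens ≤ S.map (rho _) := by
      rw [gen, Subgroup.closure_le]
      intro π hπ
      have h3 : π ∈ gen gens := Subgroup.subset_closure hπ
      rw [hg, gen_gensP] at h3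
      obtain ⟨h, -, rfl⟩ := h3
      refine ⟨h, ?_, rfl⟩
      have h4 := hn _ hπ
      rw [ybit_rho _ ⟨b, hb⟩] at h4
      rcases F_cases (h ⟨b, hb⟩).y with h5 | h5
      · exact h5
      · simp [bt, h5] at h4
    have h2 : rho _ (elt g c 0) ∈ gen gens := by
      rw [hg, gen_gensP]; exact ⟨_, ⟨_, _, rfl⟩, rfl⟩
    obtain ⟨h, h3, h4⟩ := h1 h2
    rw [rho_inj _ h4] at h3
    have h5 : par (ext c) (blk g b).2.2 = 0 := h3
    rw [hc] at h5
    exact absurd h5 (by decide)

end Pool.Agent.MP_74c440_lc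

end MrgPart3

-- ======== part 4: formerly Pool.Agent.MP_74c440_lc.Top1
section MrgPart4

/-!
The slots of the two-spin system and the weights of its phases.
-/

set_option autoImplicit false

namespace Pool.Agent.MP_74c440_lc

open Pool.Agent.PolyT Pool.Agent.H82 Finset

/-- The slots: data bits, pairs of vertices, vertex weights. -/
def slots (bits : List Bool) (n : ℕ) (adj : ℕ → ℕ → Bool) (t Λ : ℕ) (live : ℕ → ℕ) : List Slot :=
  bits.map (fun b => (n, n, b)) ++
    ((List.range n).flatMap (fun u => (List.range n).flatMap fun v =>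
      List.replicate t (u, v, adj u v)) ++
    (List.range n).flatMap fun v =>
      List.replicate (live v) (v, v, false) ++ List.replicate (Λ - live v) (n, n, false))

theorem length_slots (bits : List Bool) (n : ℕ) (adj : ℕ → ℕ → Bool) (t Λ : ℕ) (live : ℕ → ℕ)
    (h : ∀ v, live v ≤ Λ) :
    (slots bits n adj t Λ live).length = bits.length + (n * (n * t) + n * Λ) := by
  simp [slots, List.length_flatMap, Nat.add_sub_cancel' (h _)]

theorem prod_map_flatMap_range {β : Type} (n : ℕ) (g : ℕ → List β) (f : β → ℝ) :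
    (((List.range n).flatMap g).map f).prod = ∏ i ∈ range n, ((g i).map f).prod := by
  induction n with
  | zero => rfl
  | succ n ih =>
    rw [List.range_succ, List.flatMap_append, List.map_append, List.prod_append, ih,
      prod_range_succ]
    simp

theorem prod_map_range (n : ℕ) (f : ℕ → ℝ) :
    ((List.range n).map f).prod = ∏ i ∈ range n, f i := by
  induction n with
  | zero => rfl
  | succ n ih => rw [List.range_succ, List.map_append, List.prod_append, ih, prod_range_succ]; simp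

theorem prod_slots (bits : List Bool) (n : ℕ) (adj : ℕ → ℕ → Bool) (t Λ : ℕ) (live : ℕ → ℕ)
    (f : Slot → ℝ) :
    ((slots bits n adj t Λ live).map f).prod = (bits.map fun b => f (n, n, b)).prod *
      ((∏ u ∈ range n, ∏ v ∈ range n, f (u, v, adj u v) ^ t) *
        ∏ v ∈ range n, f (v, v, false) ^ live v * f (n, n, false) ^ (Λ - live v)) := by
  simp only [slots, List.map_append, List.prod_append, prod_map_flatMap_range, List.map_map,
    List.map_replicate, List.prod_replicate, Function.comp_def]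

theorem prod_slot (sl : List Slot) (f : Slot → ℝ) :
    ∏ j ∈ range sl.length, f (slot sl j) = (sl.map f).prod := by
  rw [← Fin.prod_univ_fun_getElem, Finset.prod_range]
  exact prod_congr rfl fun j _ => by simp [slot]

/-- The weight of the phase `s`, with an extra factor `ι`. -/
def phW (k n : ℕ) (sl : List Slot) (a β p0 p1 : ℝ) (ι : Slot → F → ℝ) (s : ℕ) : ℝ :=
  (∏ v ∈ range n, if s.testBit v then a else β) *
    (sl.map fun x => slotW k n s p0 p1 (ι x) x).prod

/-- The weight of a bit, as a natural number. -/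
def omN (n s p0 p1 o : ℕ) : ℕ := cond (ltB o n) (cond (s.testBit o) p1 0) p0

/-- The weight of a slot, as a natural number. -/
def slotN (k n s p0 p1 : ℕ) (x : Slot) : ℕ :=
  cond x.2.2 (nE k p0 (omN n s p0 p1 x.1) p0 (omN n s p0 p1 x.2.1) * f00 k)
    ((p0 * f00 k + omN n s p0 p1 x.1 * f10 k) * (p0 * f00 k + omN n s p0 p1 x.2.1 * f01 k))

/-- The weight of a phase, as a natural number. -/
def phN (k n : ℕ) (sl : List Slot) (a β p0 p1 s : ℕ) : ℕ :=
  ((List.range n).map fun v => cond (s.testBit v) a β).prod *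
    (sl.map fun x => slotN k n s p0 p1 x).prod

@[fun_prop] theorem p_phN {α : Type} [N487b59b3 α] (k : ℕ) {n a β p0 p1 s : α → ℕ}
    {sl : α → List Slot} (hn : Un n) (hsl : PolyT.Poly sl) (h1 : PolyT.Poly a)
    (h2 : PolyT.Poly β) (h3 : PolyT.Poly p0) (h4 : PolyT.Poly p1) (h5 : PolyT.Poly s) :
    PolyT.Poly fun x => phN k (n x) (sl x) (a x) (β x) (p0 x) (p1 x) (s x) := by
  have := hn.1
  unfold phN slotN omN
  fun_prop

theorem om_zero (n s : ℕ) (p0 p1 : ℝ) (o : ℕ) : om n s p0 p1 o 0 = p0 := by simp [om]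

theorem cast_omN (n s p0 p1 o : ℕ) : (omN n s p0 p1 o : ℝ) = om n s p0 p1 o 1 := by
  unfold omN om
  by_cases h : o < n <;> cases s.testBit o <;> simp [ltB, h]

theorem cast_slotN (k n s p0 p1 : ℕ) (x : Slot) :
    (slotN k n s p0 p1 x : ℝ) = slotW k n s p0 p1 (fun _ => 1) x := by
  unfold slotN slotW
  cases x.2.2 <;> simp [nE, ew, cast_omN, om_zero] <;> ring

theorem cast_phN (k n : ℕ) (sl : List Slot) (a β p0 p1 s : ℕ) :
    (phN k n sl a β p0 p1 s : ℝ) = phW k n sl a β p0 p1 (fun _ _ => 1) s := by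
  unfold phN phW
  push_cast
  congr 1
  · rw [List.map_map, prod_map_range]
    exact prod_congr rfl fun v _ => by cases h : s.testBit v <;> simp [h]
  · simp only [List.map_map, Function.comp_def, cast_slotN]

/-- The marker of the slots owned twice by `v`. -/
def mark (v : ℕ) (x : Slot) (a : F) : ℝ := if x.1 = v ∧ x.2.1 = v then (if a = 0 then 1 else 0) else 1

section values

variable (k n s : ℕ) (p0 p1 : ℝ)

theorem slotW_false (ι : F → ℝ) (u v : ℕ) : slotW k n s p0 p1 ι (u, v, false) =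
    (ι 0 * (p0 * f00 k) + ι 1 * (om n s p0 p1 u 1 * f10 k)) *
      (p0 * f00 k + om n s p0 p1 v 1 * f01 k) := by
  simp [slotW, ew, om_zero]; ring

theorem slotW_dead (b : Bool) : slotW k n s p0 p1 (fun _ => 1) (n, n, b) =
    slotW k n 0 p0 p1 (fun _ => 1) (n, n, b) := by
  simp [slotW, om]

theorem slotW_pair {u v : ℕ} (hu : u < n) (hv : v < n) (b : Bool) (h0 : p0 * f00 k ≠ 0)
    (hx : p0 * f00 k + p1 * f10 k ≠ 0) (hy : p0 * f00 k + p1 * f01 k ≠ 0) :
    slotW k n s p0 p1 (fun _ => 1) (u, v, b) = slotW k n 0 p0 p1 (fun _ => 1) (u, v, b) *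
      ((if s.testBit u then (p0 * f00 k + p1 * f10 k) / (p0 * f00 k) else 1) *
        (if s.testBit v then (p0 * f00 k + p1 * f01 k) / (p0 * f00 k) else 1) *
        (if b ∧ s.testBit u ∧ s.testBit v then
          1 - p1 ^ 2 * ((f10 k : ℝ) * f01 k - f00 k * f11 k) /
            ((p0 * f00 k + p1 * f10 k) * (p0 * f00 k + p1 * f01 k)) else 1)) := by
  have hp : p0 ≠ 0 := left_ne_zero_of_mul h0
  have hf : (f00 k : ℝ) ≠ 0 := right_ne_zero_of_mul h0
  obtain ⟨X, hX⟩ : ∃ X, X = p0 * f00 k + p1 * f10 k := ⟨_, rfl⟩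
  obtain ⟨Y, hY⟩ : ∃ Y, Y = p0 * f00 k + p1 * f01 k := ⟨_, rfl⟩
  rw [← hX] at hx
  rw [← hY] at hy
  rw [← hX, ← hY]
  cases b <;> cases h1 : s.testBit u <;> cases h2 : s.testBit v <;>
    simp [slotW, ew, om, hu, hv, h1, h2] <;> field_simp <;> subst hX hY <;> ring

end values

theorem phW_eq (k : ℕ) (bits : List Bool) (n : ℕ) (adj : ℕ → ℕ → Bool) (t Λ : ℕ) (live : ℕ → ℕ)
    (a β p0 p1 : ℝ) (hβ : β ≠ 0) (h0 : p0 * f00 k ≠ 0)
    (hx : p0 * f00 k + p1 * f10 k ≠ 0) (hy : p0 * f00 k + p1 * f01 k ≠ 0) (g θ : ℝ)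
    (hg : g = (p0 * f00 k + p1 * f10 k) / (p0 * f00 k) *
      ((p0 * f00 k + p1 * f01 k) / (p0 * f00 k)))
    (hθ : θ = 1 - p1 ^ 2 * ((f10 k : ℝ) * f01 k - f00 k * f11 k) /
            ((p0 * f00 k + p1 * f10 k) * (p0 * f00 k + p1 * f01 k))) (s : ℕ) :
    phW k n (slots bits n adj t Λ live) a β p0 p1 (fun _ _ => 1) s =
      phW k n (slots bits n adj t Λ live) a β p0 p1 (fun _ _ => 1) 0 *
        ((∏ v ∈ range n, if s.testBit v then a / β * g ^ (n * t + live v) else 1) *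
          ∏ u ∈ range n, ∏ v ∈ range n,
            if adj u v ∧ s.testBit u ∧ s.testBit v then θ ^ t else 1) := by
  set gx := (p0 * f00 k + p1 * f10 k) / (p0 * f00 k)
  set gy := (p0 * f00 k + p1 * f01 k) / (p0 * f00 k)
  have e1 : (∏ v ∈ range n, if s.testBit v then a else β) =
      (∏ v ∈ range n, if Nat.testBit 0 v then a else β) *
        ∏ v ∈ range n, if s.testBit v then a / β else 1 := by
    rw [← prod_mul_distrib]
    refine prod_congr rfl fun v _ => ?_
    cases s.testBit v <;> simp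
    field_simp
  have e2 : (∏ u ∈ range n, ∏ v ∈ range n,
      slotW k n s p0 p1 (fun _ => 1) (u, v, adj u v) ^ t) =
      (∏ u ∈ range n, ∏ v ∈ range n, slotW k n 0 p0 p1 (fun _ => 1) (u, v, adj u v) ^ t) *
        ((∏ v ∈ range n, if s.testBit v then g ^ (n * t) else 1) *
          ∏ u ∈ range n, ∏ v ∈ range n,
            if adj u v ∧ s.testBit u ∧ s.testBit v then θ ^ t else 1) := by
    have e3 : (∏ v ∈ range n, if s.testBit v then g ^ (n * t) else 1) =
        (∏ u ∈ range n, ∏ _v ∈ range n, (if s.testBit u then gx else 1) ^ t) *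
          ∏ _u ∈ range n, ∏ v ∈ range n, (if s.testBit v then gy else 1) ^ t := by
      rw [prod_comm (f := fun _ v => (if s.testBit v then gy else 1) ^ t), ← prod_mul_distrib]
      refine prod_congr rfl fun v _ => ?_
      cases s.testBit v <;> simp [hg, mul_pow, ← pow_mul, mul_comm]
    rw [e3]
    simp only [← prod_mul_distrib]
    refine prod_congr rfl fun u hu => prod_congr rfl fun v hv => ?_
    rw [slotW_pair k n s p0 p1 (mem_range.1 hu) (mem_range.1 hv) _ h0 hx hy, ← hθ]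
    simp only [mul_pow, ite_pow, one_pow]
    rfl
  have e4 : (∏ v ∈ range n, slotW k n s p0 p1 (fun _ => 1) (v, v, false) ^ live v *
      slotW k n s p0 p1 (fun _ => 1) (n, n, false) ^ (Λ - live v)) =
      (∏ v ∈ range n, slotW k n 0 p0 p1 (fun _ => 1) (v, v, false) ^ live v *
        slotW k n 0 p0 p1 (fun _ => 1) (n, n, false) ^ (Λ - live v)) *
        ∏ v ∈ range n, if s.testBit v then g ^ live v else 1 := by
    rw [← prod_mul_distrib]
    refine prod_congr rfl fun v hv => ?_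
    rw [slotW_pair k n s p0 p1 (mem_range.1 hv) (mem_range.1 hv) _ h0 hx hy, slotW_dead k n s]
    cases s.testBit v <;> simp [hg, mul_pow]
    ring
  have e5 : (∏ v ∈ range n, if s.testBit v then a / β * g ^ (n * t + live v) else 1) =
      (∏ v ∈ range n, if s.testBit v then a / β else 1) *
        ((∏ v ∈ range n, if s.testBit v then g ^ (n * t) else 1) *
          ∏ v ∈ range n, if s.testBit v then g ^ live v else 1) := by
    simp only [← prod_mul_distrib]
    refine prod_congr rfl fun v _ => ?_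
    cases s.testBit v <;> simp [pow_add]
  unfold phW
  rw [prod_slots, prod_slots, e1, e2, e4, e5]
  simp only [slotW_dead k n s]
  ring

theorem om_nonneg (n s : ℕ) {p0 p1 : ℝ} (h0 : 0 ≤ p0) (h1 : 0 ≤ p1) (o : ℕ) (b : F) :
    0 ≤ om n s p0 p1 o b := by
  unfold om; split_ifs <;> first | assumption | exact le_rfl

theorem ew_nonneg (k : ℕ) (adj : Bool) (a b : F) : 0 ≤ ew k adj a b := by
  unfold ew wt; split_ifs <;> positivity

theorem slotW_mono (k n s : ℕ) {p0 p1 : ℝ} (h0 : 0 ≤ p0) (h1 : 0 ≤ p1) {ι ι' : F → ℝ}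
    (h : ∀ a, ι a ≤ ι' a) (x : Slot) : slotW k n s p0 p1 ι x ≤ slotW k n s p0 p1 ι' x := by
  have a1 := om_nonneg n s h0 h1
  have a2 := ew_nonneg k x.2.2
  unfold slotW
  gcongr <;> first | exact mul_nonneg (a1 _ _) (a1 _ _) | exact a2 _ _ | exact h _

theorem slotW_nonneg (k n s : ℕ) {p0 p1 : ℝ} (h0 : 0 ≤ p0) (h1 : 0 ≤ p1) {ι : F → ℝ}
    (h : ∀ a, 0 ≤ ι a) (x : Slot) : 0 ≤ slotW k n s p0 p1 ι x := by
  have := slotW_mono k n s h0 h1 (ι := fun _ => 0) h x
  simpa [slotW] using this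

theorem mark_nonneg (v : ℕ) (x : Slot) (a : F) : 0 ≤ mark v x a := by
  unfold mark; split_ifs <;> norm_num

theorem mark_le (v : ℕ) (x : Slot) (a : F) : mark v x a ≤ 1 := by
  unfold mark; split_ifs <;> norm_num

theorem phW_nonneg (k n : ℕ) (sl : List Slot) {a β p0 p1 : ℝ} (ha : 0 ≤ a) (hβ : 0 ≤ β)
    (h0 : 0 ≤ p0) (h1 : 0 ≤ p1) {ι : Slot → F → ℝ} (h : ∀ x b, 0 ≤ ι x b) (s : ℕ) :
    0 ≤ phW k n sl a β p0 p1 ι s := by
  unfold phW
  rw [← prod_slot]
  refine mul_nonneg (prod_nonneg fun v _ => by split_ifs <;> assumption)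
    (prod_nonneg fun j _ => slotW_nonneg k n s h0 h1 (h _) _)

theorem phW_mark_le (k n : ℕ) (sl : List Slot) {a β p0 p1 : ℝ} (ha : 0 ≤ a) (hβ : 0 ≤ β)
    (h0 : 0 ≤ p0) (h1 : 0 ≤ p1) (v s : ℕ) :
    phW k n sl a β p0 p1 (mark v) s ≤ phW k n sl a β p0 p1 (fun _ _ => 1) s := by
  unfold phW
  rw [← prod_slot, ← prod_slot]
  refine mul_le_mul_of_nonneg_left (prod_le_prod
    (fun j _ => slotW_nonneg k n s h0 h1 (mark_nonneg v _) _)
    (fun j _ => slotW_mono k n s h0 h1 (mark_le v _) _))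
    (prod_nonneg fun v _ => by split_ifs <;> assumption)

theorem phW_mark_eq (k n : ℕ) (sl : List Slot) (a β p0 p1 : ℝ) {v s : ℕ} (hv : v < n)
    (hs : s.testBit v = false) :
    phW k n sl a β p0 p1 (mark v) s = phW k n sl a β p0 p1 (fun _ _ => 1) s := by
  unfold phW
  congr 2
  refine List.map_congr_left fun x _ => ?_
  by_cases h : x.1 = v ∧ x.2.1 = v
  · simp [slotW, mark, h, om, hv, hs]
  · simp [slotW, mark, h]

theorem phW_mark_small (k : ℕ) (bits : List Bool) (n : ℕ) (adj : ℕ → ℕ → Bool) (t Λ : ℕ)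
    (live : ℕ → ℕ) {a β p0 p1 ρ : ℝ} (ha : 0 ≤ a) (hβ : 0 ≤ β) (h0 : 0 ≤ p0) (h1 : 0 ≤ p1)
    (r0 : 0 ≤ ρ) (r1 : ρ ≤ 1)
    (hρ : p0 * f00 k ≤ ρ * (p0 * f00 k + p1 * f10 k)) {v s : ℕ} (hv : v < n)
    (hadj : adj v v = false) (hs : s.testBit v = true) :
    phW k n (slots bits n adj t Λ live) a β p0 p1 (mark v) s ≤
      ρ ^ t * phW k n (slots bits n adj t Λ live) a β p0 p1 (fun _ _ => 1) s := by
  have n1 := fun x => slotW_nonneg k n s h0 h1 (mark_nonneg v x) x
  have n2 := fun x => slotW_mono k n s h0 h1 (mark_le v x) x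
  have n3 := fun x => (n1 x).trans (n2 x)
  let c : Slot → ℝ := fun x => if x = (v, v, false) then ρ else 1
  have c0 : ∀ x, 0 ≤ c x := fun x => by simp only [c]; split_ifs <;> linarith
  have c1 : ∀ x, c x ≤ 1 := fun x => by simp only [c]; split_ifs <;> linarith
  have e1 : ∀ x, slotW k n s p0 p1 (mark v x) x ≤ c x * slotW k n s p0 p1 (fun _ => 1) x := by
    intro x
    by_cases h : x = (v, v, false)
    · subst h
      simp only [c, if_true, slotW_false, ← mul_assoc]
      have := om_nonneg n s h0 h1 v 1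
      refine mul_le_mul_of_nonneg_right ?_ (by positivity)
      simpa [mark, om, hv, hs] using hρ
    · simpa [c, h] using n2 x
  have e2 : ((slots bits n adj t Λ live).map c).prod ≤ ρ ^ t := by
    rw [prod_slots]
    have b1 : (bits.map fun b => c (n, n, b)).prod = 1 := by simp [c, hv.ne']
    have b2 : (∏ u ∈ range n, ∏ w ∈ range n, c (u, w, adj u w) ^ t) = ρ ^ t := by
      rw [prod_eq_single v, prod_eq_single v]
      · simp [c, hadj]
      · intro w _ hw; simp [c, hw]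
      · intro h; exact absurd (mem_range.2 hv) h
      · intro u _ hu; simp [c, hu]
      · intro h; exact absurd (mem_range.2 hv) h
    rw [b1, b2, one_mul]
    refine mul_le_of_le_one_right (by positivity) (prod_le_one (fun w _ => ?_) (fun w _ => ?_))
    · exact mul_nonneg (pow_nonneg (c0 _) _) (pow_nonneg (c0 _) _)
    · exact mul_le_one₀ (pow_le_one₀ (c0 _) (c1 _)) (pow_nonneg (c0 _) _)
        (pow_le_one₀ (c0 _) (c1 _))
  unfold phW
  rw [mul_left_comm]
  refine mul_le_mul_of_nonneg_left ?_ (prod_nonneg fun v _ => by split_ifs <;> assumption)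
  rw [← prod_slot] at e2
  rw [← prod_slot, ← prod_slot]
  refine (prod_le_prod (fun j _ => n1 _) (fun j _ => e1 _)).trans ?_
  rw [prod_mul_distrib]
  exact mul_le_mul_of_nonneg_right e2 (prod_nonneg fun j _ => n3 _)

theorem ind_mark (sl : List Slot) (v : ℕ) (c : ℕ → F) :
    ind (∀ j < sl.length, (slot sl j).1 = v ∧ (slot sl j).2.1 = v → c (2 * j) = 0) =
      ∏ j ∈ range sl.length, mark v (slot sl j) (c (2 * j)) := by
  by_cases h : ∀ j < sl.length, (slot sl j).1 = v ∧ (slot sl j).2.1 = v → c (2 * j) = 0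
  · rw [ind_pos h, prod_eq_one]
    intro j hj
    unfold mark
    split_ifs with h1 h2
    · rfl
    · exact absurd (h j (mem_range.1 hj) h1) h2
    · rfl
  · rw [ind_neg h]
    push Not at h
    obtain ⟨j, hj, h1, h2⟩ := h
    exact (prod_eq_zero (mem_range.2 hj) (by simp [mark, h1, h2])).symm

end Pool.Agent.MP_74c440_lc

end MrgPart4

-- ======== part 5: formerly Pool.Agent.MP_74c440_lc.Top2
section MrgPart5

/-!
The parameters of the two-spin system and their inequalities.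
-/

set_option autoImplicit false

namespace Pool.Agent.MP_74c440_lc

open Pool.Agent.PolyT Pool.Agent.H82 Finset

/-- Exponent of the dominance. -/
def qE (n : ℕ) : ℕ := 3 * n + 4
/-- Slots per unit of weight. -/
def qS (k n : ℕ) : ℕ := 2 * k * qE n
/-- Exponent of the activity. -/
def qH (k n W : ℕ) : ℕ := qE n + 2 * qS k n * (n * W)
/-- Slots per pair of vertices. -/
def qT (k n W : ℕ) : ℕ := 24 * k ^ 3 * (qE n + (2 + qH k n W + 2 * qS k n * W) * n)
/-- Repetitions of the parity check. -/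
def qR (k n W : ℕ) : ℕ := 18 * (2 * (n * qT k n W) + 1)
/-- Range of the tuning. -/
def qM (k n W : ℕ) : ℕ := 2 * k * (qR k n W + qH k n W)
/-- Slots per vertex. -/
def qLam (k n W : ℕ) : ℕ := qM k n W + qS k n * W
/-- Size of the large hyperedge. -/
def qd (k l n W : ℕ) : ℕ := (l + (n * (n * qT k n W) + n * qLam k n W)) * 2
/-- Accuracy of the exclusive-or gadget. -/
def qD (k l n W : ℕ) : ℕ := 8 * qd k l n W + 2 * qR k n W + 2
/-- Weight of a zero. -/
def q0 (k l n W : ℕ) : ℕ :=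
  nP0 k (pT k (qD k l n W)) (pN k (qD k l n W)) (pt k (qD k l n W)) ^ qR k n W
/-- Weight of a one. -/
def q1 (k l n W : ℕ) : ℕ :=
  nP1 k (pT k (qD k l n W)) (pN k (qD k l n W)) (pt k (qD k l n W)) ^ qR k n W
/-- Weight of an occupied vertex. -/
def qA (k l n W : ℕ) : ℕ := (f00 k + f10 k) ^ qR k n W * q0 k l n W ^ qd k l n W
/-- Weight of an empty vertex. -/
def qB (k l n W : ℕ) : ℕ :=
  nB3 k (pT k (qD k l n W)) (pN k (qD k l n W)) (pt k (qD k l n W)) (qd k l n W) (qR k n W)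
/-- Numerator of the gain of a slot. -/
def qN (k l n W : ℕ) : ℕ :=
  (q0 k l n W * f00 k + q1 k l n W * f10 k) * (q0 k l n W * f00 k + q1 k l n W * f01 k)
/-- Denominator of the gain of a slot. -/
def qG (k l n W : ℕ) : ℕ := q0 k l n W * f00 k * (q0 k l n W * f00 k)
/-- The tuned number of slots. -/
def qL (k l n W : ℕ) : ℕ :=
  firstP (qM k n W) fun L => ltB (2 ^ qH k n W * qB k l n W * qG k l n W ^ (n * qT k n W + L))
    (qA k l n W * qN k l n W ^ (n * qT k n W + L) + 1)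
/-- The large hyperedge. -/
def qHyp (k l n W : ℕ) : Gad :=
  gHyp (pT k (qD k l n W)) (pN k (qD k l n W)) (pt k (qD k l n W)) (qd k l n W) (qR k n W)
/-- The normalising factor. -/
def qC (k l n W : ℕ) : ℕ :=
  ((2 * ((2 ^ (2 * pT k (qD k l n W) + 1)) ^ 2) ^ qd k l n W) ^ qR k n W) ^ n *
    q0 k l n W ^ qd k l n W

section poly

variable {α : Type} [N487b59b3 α] (k : ℕ) {l n W : α → ℕ}

@[fun_prop] theorem u_qE (hn : Un n) : Un fun a => qE (n a) := by unfold qE; fun_prop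
@[fun_prop] theorem u_qS (hn : Un n) : Un fun a => qS k (n a) := by unfold qS; fun_prop
@[fun_prop] theorem u_qH (hn : Un n) (hW : Un W) : Un fun a => qH k (n a) (W a) := by
  unfold qH; fun_prop
@[fun_prop] theorem u_qT (hn : Un n) (hW : Un W) : Un fun a => qT k (n a) (W a) := by
  unfold qT; fun_prop
@[fun_prop] theorem u_qR (hn : Un n) (hW : Un W) : Un fun a => qR k (n a) (W a) := by
  unfold qR; fun_prop
@[fun_prop] theorem u_qM (hn : Un n) (hW : Un W) : Un fun a => qM k (n a) (W a) := by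
  unfold qM; fun_prop
@[fun_prop] theorem u_qLam (hn : Un n) (hW : Un W) : Un fun a => qLam k (n a) (W a) := by
  unfold qLam; fun_prop
@[fun_prop] theorem u_qd (hl : Un l) (hn : Un n) (hW : Un W) :
    Un fun a => qd k (l a) (n a) (W a) := by
  unfold qd; fun_prop
@[fun_prop] theorem u_qD (hl : Un l) (hn : Un n) (hW : Un W) :
    Un fun a => qD k (l a) (n a) (W a) := by
  unfold qD; fun_prop
@[fun_prop] theorem p_q0 (hl : Un l) (hn : Un n) (hW : Un W) :
    PolyT.Poly fun a => q0 k (l a) (n a) (W a) := by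
  unfold q0; fun_prop
@[fun_prop] theorem p_q1 (hl : Un l) (hn : Un n) (hW : Un W) :
    PolyT.Poly fun a => q1 k (l a) (n a) (W a) := by
  unfold q1; fun_prop
@[fun_prop] theorem p_qA (hl : Un l) (hn : Un n) (hW : Un W) :
    PolyT.Poly fun a => qA k (l a) (n a) (W a) := by
  unfold qA; fun_prop
@[fun_prop] theorem p_qB (hl : Un l) (hn : Un n) (hW : Un W) :
    PolyT.Poly fun a => qB k (l a) (n a) (W a) := by
  unfold qB; fun_prop
@[fun_prop] theorem p_qN (hl : Un l) (hn : Un n) (hW : Un W) :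
    PolyT.Poly fun a => qN k (l a) (n a) (W a) := by
  unfold qN; fun_prop
@[fun_prop] theorem p_qG (hl : Un l) (hn : Un n) (hW : Un W) :
    PolyT.Poly fun a => qG k (l a) (n a) (W a) := by
  unfold qG; fun_prop
@[fun_prop] theorem p_qHyp (hl : Un l) (hn : Un n) (hW : Un W) :
    PolyT.Poly fun a => qHyp k (l a) (n a) (W a) := by
  unfold qHyp; fun_prop
@[fun_prop] theorem p_qC (hl : Un l) (hn : Un n) (hW : Un W) :
    PolyT.Poly fun a => qC k (l a) (n a) (W a) := by
  unfold qC; fun_prop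

@[fun_prop] theorem u_qL (hl : Un l) (hn : Un n) (hW : Un W) :
    Un fun a => qL k (l a) (n a) (W a) := by
  have hl' : Un fun x : α × ℕ => l x.1 := u_comp hl (by fun_prop)
  have hn' : Un fun x : α × ℕ => n x.1 := u_comp hn (by fun_prop)
  have hW' : Un fun x : α × ℕ => W x.1 := u_comp hW (by fun_prop)
  refine u_firstP (u_qM k hn hW) ?_
  have h : Un fun x : α × ℕ =>
      n x.1 * qT k (n x.1) (W x.1) + min x.2 (qM k (n x.1) (W x.1)) := by fun_prop
  exact p_ltB (p_mul (p_mul (p_pow (by fun_prop) (u_qH k hn' hW')) (p_qB k hl' hn' hW'))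
    (p_pow (p_qG k hl' hn' hW') h))
    (p_add (p_mul (p_qA k hl' hn' hW') (p_pow (p_qN k hl' hn' hW') h)) (by fun_prop))

end poly

theorem pow_half {P Q c D : ℝ} {r : ℕ} (hP : 0 < P) (hQ : 0 ≤ Q) (hD : 0 < D)
    (h : D * (P - Q) ≤ c * P) (hr : 2 * c * r ≤ D) : P ^ r ≤ 2 * Q ^ r := by
  have h1 := one_add_mul_le_pow (a := Q / P - 1) (by
    have : 0 ≤ Q / P := by positivity
    linarith) r
  rw [add_sub_cancel, div_pow, le_div_iff₀ (by positivity)] at h1
  have h2 : D * (1 - Q / P) ≤ c := by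
    rw [show D * (1 - Q / P) = D * (P - Q) / P by field_simp, div_le_iff₀ hP]; exact h
  have h3 : (r : ℝ) * (1 - Q / P) ≤ 1 / 2 := by
    rw [← mul_le_mul_iff_right₀ hD]
    have : (0 : ℝ) ≤ r := by positivity
    nlinarith
  have h4 : 0 < P ^ r := by positivity
  nlinarith

theorem two_pow_le {x : ℝ} {c : ℕ} (hc : 0 < c) (m : ℕ) (h1 : 1 + 1 / c ≤ x) :
    2 ^ m ≤ x ^ (c * m) := by
  have hc' : (0 : ℝ) < c := by exact_mod_cast hc
  have h0 : (0 : ℝ) ≤ 1 / c := by positivity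
  have h2 := one_add_mul_le_pow (a := 1 / (c : ℝ)) (by linarith) c
  rw [mul_one_div_cancel hc'.ne', one_add_one_eq_two] at h2
  rw [pow_mul]
  exact pow_le_pow_left₀ (by norm_num) (h2.trans (pow_le_pow_left₀ (by positivity) h1 c)) m

theorem q_basic {k : ℕ} (hk : 2 ≤ k) (l n W : ℕ) :
    (0 : ℝ) < q0 k l n W ∧ (q1 k l n W : ℝ) ≤ q0 k l n W ∧ (q0 k l n W : ℝ) ≤ 2 * q1 k l n W ∧
      (0 : ℝ) < qA k l n W ∧ 4 ^ (n * qT k n W) * (qA k l n W : ℝ) ≤ qB k l n W ∧
      (qB k l n W : ℝ) ≤ 2 ^ qR k n W * qA k l n W := by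
  obtain ⟨f1, f2, f3, f4, -, -, -, -, f9⟩ := f_facts hk
  obtain ⟨h1, h2, h3, h4, h5⟩ := hyp_ineq (D := qD k l n W) hk (by unfold qD; omega)
  have eD : (qD k l n W : ℝ) = 8 * qd k l n W + 2 * qR k n W + 2 := by simp [qD]
  simp only [q0, q1, qA, qB, cast_nB3]
  push_cast
  have hM : (0 : ℝ) ≤ nM k (pT k (qD k l n W)) (pN k (qD k l n W)) (pt k (qD k l n W)) := by
    positivity
  have hP : (0 : ℝ) ≤ nP1 k (pT k (qD k l n W)) (pN k (qD k l n W)) (pt k (qD k l n W)) := by
    positivity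
  generalize (nP0 k (pT k (qD k l n W)) (pN k (qD k l n W)) (pt k (qD k l n W)) : ℝ) = P0 at *
  generalize (nP1 k (pT k (qD k l n W)) (pN k (qD k l n W)) (pt k (qD k l n W)) : ℝ) = P1 at *
  generalize (nM k (pT k (qD k l n W)) (pN k (qD k l n W)) (pt k (qD k l n W)) : ℝ) = M at *
  have d0 : (0 : ℝ) ≤ qd k l n W := by positivity
  have r0 : (0 : ℝ) ≤ qR k n W := by positivity
  have a1 := pow_half (r := qR k n W) (c := 1) (D := qD k l n W) h1 hP (by linarith)
    (by linarith [h3]) (by linarith)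
  have a2 := pow_half (r := qd k l n W) h1 hM (by linarith) h5 (by linarith)
  have a3 := pow_le_pow_left₀ hM h4 (qd k l n W)
  have eR : qR k n W = 18 * (2 * (n * qT k n W) + 1) := rfl
  generalize qd k l n W = d at *
  generalize qR k n W = r at *
  generalize n * qT k n W = m at *
  generalize (f00 k : ℝ) = a at *
  generalize (f10 k : ℝ) = c at *
  have hc : 0 < c := by linarith
  have ha : 0 < a := by linarith
  have e : (a + c) ^ r * (P0 ^ r) ^ d = ((a + c) * P0 ^ d) ^ r := by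
    rw [mul_pow, ← pow_mul, ← pow_mul, mul_comm r]
  rw [e]
  have hX : 0 < (a + c) * P0 ^ d := by positivity
  have hY1 : (a + c) * P0 ^ d ≤ 18 * ((a - c) * M ^ d) := by
    calc _ ≤ (9 * (a - c)) * (2 * M ^ d) := by gcongr
      _ = _ := by ring
  have hY2 : (a - c) * M ^ d ≤ (a + c) * P0 ^ d := by gcongr; linarith
  generalize (a + c) * P0 ^ d = X at *
  generalize (a - c) * M ^ d = Y at *
  have hXr : 0 < X ^ r := by positivity
  refine ⟨by positivity, pow_le_pow_left₀ hP h2 _, a1, hXr, ?_, ?_⟩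
  · have b1 := two_pow_le (x := (X + Y) / X) (c := 18) (by norm_num) (2 * m + 1) (by
      rw [le_div_iff₀ hX]; push_cast; linarith)
    rw [← eR, div_pow, le_div_iff₀ hXr, pow_succ, pow_mul] at b1
    norm_num at b1
    have b2 : (1 : ℝ) ≤ 4 ^ m := one_le_pow₀ (by norm_num)
    nlinarith
  · have : (X + Y) ^ r ≤ (2 * X) ^ r := pow_le_pow_left₀ (by linarith) (by linarith) r
    rw [mul_pow] at this
    linarith

theorem gain_facts {a b c e p0 p1 x : ℝ} (f1 : 0 < e) (f2 : e ≤ b) (f3 : b ≤ c) (f4 : c ≤ a)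
    (hx : 2 ≤ x) (f7 : (a + b + c + e) ^ 2 ≤ 6 * x ^ 3 * (c * b - a * e)) (f8 : a ≤ x * c)
    (h0 : 0 < p0) (h1 : p1 ≤ p0) (h2 : p0 ≤ 2 * p1) :
    1 + 1 / (2 * x) ≤ (p0 * a + p1 * c) / (p0 * a) * ((p0 * a + p1 * b) / (p0 * a)) ∧
      (p0 * a + p1 * c) / (p0 * a) * ((p0 * a + p1 * b) / (p0 * a)) ≤ 4 ∧
      0 ≤ 1 - p1 ^ 2 * (c * b - a * e) / ((p0 * a + p1 * c) * (p0 * a + p1 * b)) ∧
      1 - p1 ^ 2 * (c * b - a * e) / ((p0 * a + p1 * c) * (p0 * a + p1 * b)) ≤
        1 - 1 / (24 * x ^ 3) ∧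
      p0 * a ≤ (1 - 1 / (24 * x ^ 3)) * (p0 * a + p1 * c) := by
  have hb : 0 < b := by linarith
  have hc : 0 < c := by linarith
  have ha : 0 < a := by linarith
  have hp : 0 < p1 := by linarith
  have hx0 : 0 < x := by linarith
  have g0 : 0 < p0 * a := by positivity
  have g1 : p0 * a ≤ 2 * x * (p1 * c) := by
    calc p0 * a ≤ (2 * p1) * (x * c) := by gcongr
      _ = _ := by ring
  have g2 : 1 + 1 / (2 * x) ≤ (p0 * a + p1 * c) / (p0 * a) := by
    rw [add_div, div_self g0.ne', add_le_add_iff_left, div_le_div_iff₀ (by positivity) g0]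
    linarith
  have g3 : 1 ≤ (p0 * a + p1 * b) / (p0 * a) := by
    rw [le_div_iff₀ g0]
    have : 0 < p1 * b := by positivity
    linarith
  have g4 : p1 * c ≤ p0 * a := by gcongr
  have g5 : p1 * b ≤ p0 * a := by gcongr; linarith
  have g6 : (p0 * a + p1 * c) / (p0 * a) ≤ 2 := by rw [div_le_iff₀ g0]; linarith
  have g7 : (p0 * a + p1 * b) / (p0 * a) ≤ 2 := by rw [div_le_iff₀ g0]; linarith
  have g8 : 0 < 1 / (2 * x) := by positivity
  refine ⟨by nlinarith, by nlinarith, ?_, ?_, ?_⟩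
  · rw [sub_nonneg, div_le_one (by positivity)]
    have : (p0 * a + p1 * c) * (p0 * a + p1 * b) - p1 ^ 2 * (c * b - a * e) =
        p0 * a * (p0 * a) + p0 * a * (p1 * b) + p0 * a * (p1 * c) + p1 ^ 2 * (a * e) := by ring
    have h : 0 ≤ p0 * a * (p0 * a) + p0 * a * (p1 * b) + p0 * a * (p1 * c) + p1 ^ 2 * (a * e) := by
      positivity
    linarith
  · rw [sub_le_sub_iff_left, div_le_div_iff₀ (by positivity) (by positivity), one_mul]
    have s1 : p0 * a + p1 * c ≤ 2 * p1 * (a + b + c + e) := by nlinarith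
    have s2 : p0 * a + p1 * b ≤ 2 * p1 * (a + b + c + e) := by nlinarith
    calc _ ≤ (2 * p1 * (a + b + c + e)) * (2 * p1 * (a + b + c + e)) := by gcongr
      _ = 4 * p1 ^ 2 * (a + b + c + e) ^ 2 := by ring
      _ ≤ 4 * p1 ^ 2 * (6 * x ^ 3 * (c * b - a * e)) := by gcongr
      _ = _ := by ring
  · have s1 : 4 * x ≤ 24 * x ^ 3 := by nlinarith [mul_le_mul hx hx (by norm_num) hx0.le]
    have s2 : (p0 * a + p1 * c) / (24 * x ^ 3) ≤ p1 * c := by
      rw [div_le_iff₀ (by positivity)]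
      have : 0 < p1 * c := by positivity
      nlinarith
    rw [sub_mul, one_mul, one_div, inv_mul_eq_div]
    linarith

/-- The gain of a slot. -/
noncomputable def rG (k l n W : ℕ) : ℝ := (qN k l n W : ℝ) / qG k l n W

/-- The activity. -/
noncomputable def rMu (k l n W : ℕ) : ℝ :=
  (qA k l n W : ℝ) / qB k l n W * rG k l n W ^ (n * qT k n W + qL k l n W)

theorem rG_eq (k l n W : ℕ) : rG k l n W =
    ((q0 k l n W : ℝ) * f00 k + q1 k l n W * f10 k) / (q0 k l n W * f00 k) *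
      (((q0 k l n W : ℝ) * f00 k + q1 k l n W * f01 k) / (q0 k l n W * f00 k)) := by
  simp only [rG, qN, qG]
  push_cast
  rw [div_mul_div_comm]

theorem q_gain {k : ℕ} (hk : 2 ≤ k) (l n W : ℕ) :
    1 + 1 / ((2 * k : ℕ) : ℝ) ≤ rG k l n W ∧ rG k l n W ≤ 4 := by
  obtain ⟨f1, f2, f3, f4, -, -, f7, f8, -⟩ := f_facts hk
  obtain ⟨h0, h1, h2, -⟩ := q_basic hk l n W
  obtain ⟨g1, g2, -⟩ := gain_facts f1 f2 f3 f4 (by exact_mod_cast hk) f7 f8 h0 h1 h2
  rw [rG_eq]
  push_cast
  exact ⟨g1, g2⟩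

theorem q_mu {k : ℕ} (hk : 2 ≤ k) (l n W : ℕ) :
    2 ^ qH k n W ≤ rMu k l n W ∧ rMu k l n W ≤ 2 ^ (2 + qH k n W) ∧ qL k l n W ≤ qM k n W := by
  obtain ⟨f1, f2, f3, f4, -⟩ := f_facts hk
  obtain ⟨h0, -, -, hA, h4, h5⟩ := q_basic hk l n W
  obtain ⟨g1, g2⟩ := q_gain hk l n W
  have hB : (0 : ℝ) < qB k l n W := lt_of_lt_of_le (by positivity) h4
  have hG : (0 : ℝ) < qG k l n W := by
    have : (0 : ℝ) < f00 k := by linarith
    simp only [qG]; push_cast; positivity
  have g0 : 1 ≤ rG k l n W := le_trans (le_add_of_nonneg_right (by positivity)) g1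
  have hp : ∀ L, ltB (2 ^ qH k n W * qB k l n W * qG k l n W ^ (n * qT k n W + L))
      (qA k l n W * qN k l n W ^ (n * qT k n W + L) + 1) = true ↔
      2 ^ qH k n W ≤ (qA k l n W : ℝ) / qB k l n W * rG k l n W ^ (n * qT k n W + L) := by
    intro L
    rw [ltB_iff, Nat.lt_succ_iff, ← Nat.cast_le (α := ℝ), rG, div_pow, div_mul_div_comm,
      le_div_iff₀ (by positivity), ← mul_assoc]
    push_cast
    rfl
  have hM := (hp (qM k n W)).2 (by
    have b1 := two_pow_le (by omega) (qR k n W + qH k n W) g1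
    have b2 : 1 ≤ rG k l n W ^ (n * qT k n W) := one_le_pow₀ g0
    rw [div_mul_eq_mul_div, le_div_iff₀ hB, pow_add, qM]
    calc _ ≤ 2 ^ qH k n W * (2 ^ qR k n W * (qA k l n W : ℝ)) := by gcongr
      _ = qA k l n W * (1 * 2 ^ (qR k n W + qH k n W)) := by ring
      _ ≤ _ := by gcongr)
  obtain ⟨s1, s2, s3⟩ := firstP_spec (p := fun L => ltB
    (2 ^ qH k n W * qB k l n W * qG k l n W ^ (n * qT k n W + L))
    (qA k l n W * qN k l n W ^ (n * qT k n W + L) + 1)) hM
  refine ⟨(hp _).1 s1, ?_, s3⟩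
  change ∀ i < qL k l n W, _ at s2
  rw [rMu]
  rcases h : qL k l n W with _ | L
  · have b1 : rG k l n W ^ (n * qT k n W) ≤ 4 ^ (n * qT k n W) :=
      pow_le_pow_left₀ (by linarith) g2 _
    refine le_trans ?_ (one_le_pow₀ (by norm_num))
    rw [add_zero, div_mul_eq_mul_div, div_le_one hB, mul_comm]
    exact le_trans (by gcongr) h4
  · have b1 := s2 L (by omega)
    rw [← Bool.not_eq_true, hp, not_le] at b1
    rw [← add_assoc, pow_succ, ← mul_assoc, pow_add 2, mul_comm (2 ^ 2)]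
    gcongr
    linarith

end Pool.Agent.MP_74c440_lc

end MrgPart5

-- marker of a merged file
example : 731051 + 567991 = 731051 + 567991 := rfl

end MrgPart0

-- ======== part 1: formerly Pool.Agent.MP_74c440_lc.Top3
section MrgPart1

/-!
The dominant phase.
-/

set_option autoImplicit false

namespace Pool.Agent.MP_74c440_lc

open Pool.Agent.PolyT Pool.Agent.H82 Finset

/-- The weight of the set with characteristic number `s`. -/
def wB (n : ℕ) (w : ℕ → ℕ) (s : ℕ) : ℕ := ∑ v ∈ range n, if s.testBit v then w v else 0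

/-- Independent sets. -/
def Indep (n : ℕ) (adj : ℕ → ℕ → Bool) (s : ℕ) : Prop :=
  ∀ u < n, ∀ v < n, adj u v = true → s.testBit u = true → s.testBit v = true → False

/-- The set `s0` is the unique optimum. -/
def Good (n : ℕ) (adj : ℕ → ℕ → Bool) (w : ℕ → ℕ) (K ω s0 : ℕ) : Prop :=
  s0 < 2 ^ n ∧ Indep n adj s0 ∧ wB n (fun _ => 1) s0 = K ∧ wB n w s0 = ω ∧
    ∀ s < 2 ^ n, s ≠ s0 → Indep n adj s →
      wB n (fun _ => 1) s < K ∨ (wB n (fun _ => 1) s = K ∧ wB n w s < ω)

theorem wB_le {n W : ℕ} {w : ℕ → ℕ} (h : ∀ v, w v ≤ W) (s : ℕ) : wB n w s ≤ n * W := by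
  have := sum_le_card_nsmul (range n) (fun v => if s.testBit v then w v else 0) W
    (fun v _ => by split_ifs; exacts [h v, Nat.zero_le _])
  simpa [wB] using this

theorem prod_wB (n : ℕ) (w : ℕ → ℕ) (s : ℕ) (μ B : ℝ) :
    (∏ v ∈ range n, if s.testBit v then μ * B ^ w v else 1) =
      μ ^ wB n (fun _ => 1) s * B ^ wB n w s := by
  unfold wB
  rw [← prod_pow_eq_pow_sum, ← prod_pow_eq_pow_sum, ← prod_mul_distrib]
  exact prod_congr rfl fun v _ => by split_ifs <;> simp

theorem dominance {n K ω W s0 : ℕ} {adj : ℕ → ℕ → Bool} {w : ℕ → ℕ} {μ B τ E : ℝ}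
    (hw : ∀ v, w v ≤ W) (hE : 1 ≤ E) (hB : E ≤ B) (hμ : E * B ^ (n * W) ≤ μ) (t0 : 0 ≤ τ)
    (t1 : τ ≤ 1) (hτ : E * (τ * (μ ^ n * B ^ (n * W))) ≤ 1) (hg : Good n adj w K ω s0) :
    (∏ v ∈ range n, if s0.testBit v then μ * B ^ w v else 1) *
      (∏ u ∈ range n, ∏ v ∈ range n,
        if adj u v ∧ s0.testBit u ∧ s0.testBit v then τ else 1) = μ ^ K * B ^ ω ∧
    ∀ s < 2 ^ n, s ≠ s0 → E * ((∏ v ∈ range n, if s.testBit v then μ * B ^ w v else 1) *
      (∏ u ∈ range n, ∏ v ∈ range n,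
        if adj u v ∧ s.testBit u ∧ s.testBit v then τ else 1)) ≤ μ ^ K * B ^ ω := by
  obtain ⟨-, g1, g2, g3, g4⟩ := hg
  have e1 : ∀ s, Indep n adj s → (∏ u ∈ range n, ∏ v ∈ range n,
      if adj u v ∧ s.testBit u ∧ s.testBit v then τ else 1) = 1 := fun s hs =>
    prod_eq_one fun u hu => prod_eq_one fun v hv =>
      if_neg fun h => hs u (mem_range.1 hu) v (mem_range.1 hv) h.1 h.2.1 h.2.2
  have B1 : 1 ≤ B := hE.trans hB
  have B2 : 1 ≤ B ^ (n * W) := one_le_pow₀ B1
  have μ1 : 1 ≤ μ := le_trans (by nlinarith) hμ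
  refine ⟨by rw [e1 s0 g1, prod_wB, g2, g3, mul_one], fun s hs hne => ?_⟩
  rw [prod_wB]
  have a1 : B ^ wB n w s ≤ B ^ (n * W) := pow_le_pow_right₀ B1 (wB_le hw s)
  have a0 : 1 ≤ B ^ ω := one_le_pow₀ B1
  by_cases hi : Indep n adj s
  · rw [e1 s hi, mul_one]
    rcases g4 s hs hne hi with h | ⟨h1, h2⟩
    · calc _ = μ ^ wB n (fun _ => 1) s * (E * B ^ wB n w s) := by ring
        _ ≤ μ ^ wB n (fun _ => 1) s * μ := by gcongr; exact le_trans (by gcongr) hμ
        _ ≤ μ ^ K * 1 := by rw [← pow_succ, mul_one]; exact pow_le_pow_right₀ μ1 h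
        _ ≤ _ := by gcongr
    · rw [h1]
      calc _ = μ ^ K * (B ^ wB n w s * E) := by ring
        _ ≤ μ ^ K * (B ^ wB n w s * B) := by gcongr
        _ ≤ _ := by rw [← pow_succ]; gcongr; exact h2
  · unfold Indep at hi
    push Not at hi
    obtain ⟨u, hu, v, hv, h1, h2, h3, -⟩ := hi
    have c0 : ∀ u v, 0 ≤ if adj u v ∧ s.testBit u ∧ s.testBit v then τ else 1 := fun u v => by
      split_ifs; exacts [t0, zero_le_one]
    have c1 : ∀ u v, (if adj u v ∧ s.testBit u ∧ s.testBit v then τ else 1) ≤ 1 := fun u v => by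
      split_ifs; exacts [t1, le_rfl]
    have a2 : (∏ u ∈ range n, ∏ v ∈ range n,
        if adj u v ∧ s.testBit u ∧ s.testBit v then τ else 1) ≤ τ := by
      rw [← mul_prod_erase _ _ (mem_range.2 hu), ← mul_prod_erase _ _ (mem_range.2 hv),
        if_pos ⟨h1, h2, h3⟩, mul_assoc]
      exact mul_le_of_le_one_right t0 (mul_le_one₀ (prod_le_one (fun _ _ => c0 _ _) fun _ _ => c1 _ _)
        (prod_nonneg fun _ _ => prod_nonneg fun _ _ => c0 _ _)
        (prod_le_one (fun _ _ => prod_nonneg fun _ _ => c0 _ _) fun _ _ =>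
          prod_le_one (fun _ _ => c0 _ _) fun _ _ => c1 _ _))
    have a3 : μ ^ wB n (fun _ => 1) s ≤ μ ^ n :=
      pow_le_pow_right₀ μ1 (by simpa using wB_le (n := n) (w := fun _ => 1) (fun _ => le_rfl) s)
    have a4 : 1 ≤ μ ^ K := one_le_pow₀ μ1
    calc _ ≤ E * (μ ^ n * B ^ (n * W) * τ) := by
          have := prod_nonneg (s := range n) fun u _ => prod_nonneg (s := range n) fun v _ => c0 u v
          gcongr
      _ ≤ 1 * 1 := by linarith
      _ ≤ _ := by gcongr

/-- The slots of the system. -/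
def aSl (k : ℕ) (bits : List Bool) (n W : ℕ) (adj : ℕ → ℕ → Bool) (w : ℕ → ℕ) : List Slot :=
  slots bits n adj (qT k n W) (qLam k n W) fun v => qL k bits.length n W + qS k n * w v

/-- The gadget of the system. -/
def aG (k : ℕ) (bits : List Bool) (n W : ℕ) (adj : ℕ → ℕ → Bool) (w : ℕ → ℕ) : Gad :=
  gT n (aSl k bits n W adj w) (qHyp k bits.length n W)

/-- The weight of a phase of the system. -/
def aW (k : ℕ) (bits : List Bool) (n W : ℕ) (adj : ℕ → ℕ → Bool) (w : ℕ → ℕ)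
    (ι : Slot → F → ℝ) (s : ℕ) : ℝ :=
  phW k n (aSl k bits n W adj w) (qA k bits.length n W) (qB k bits.length n W)
    (q0 k bits.length n W) (q1 k bits.length n W) ι s

section system

variable {k : ℕ} (hk : 2 ≤ k) (bits : List Bool) {n W : ℕ} (adj : ℕ → ℕ → Bool) {w : ℕ → ℕ}
  (hw : ∀ v, w v ≤ W)
include hk hw

theorem length_aSl : (aSl k bits n W adj w).length * 2 = qd k bits.length n W := by
  rw [aSl, length_slots, qd]
  intro v
  exact Nat.add_le_add (q_mu hk _ n W).2.2 (Nat.mul_le_mul_left _ (hw v))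

theorem sum_aG (ι : Slot → F → ℝ) :
    (qC k bits.length n W : ℝ) * sumK (aG k bits n W adj w).1
      (fun c => (∏ j ∈ range (aSl k bits n W adj w).length,
        ι (slot (aSl k bits n W adj w) j) (c (2 * j))) * blkW k 0 c (aG k bits n W adj w).2) =
      ∑ s ∈ range (2 ^ n), aW k bits n W adj w ι s := by
  have h := sum_gT k n (aSl k bits n W adj w) (qHyp k bits.length n W) _ _ _ _ _ (fun a => by
    rw [length_aSl hk bits adj hw]
    exact Z_gHyp hk _ _ _ _ _ a) (fun j => ι (slot (aSl k bits n W adj w) j))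
  rw [length_aSl hk bits adj hw] at h
  simp only [aW, phW, ← prod_slot, qC, qA, qB, q0, q1]
  push_cast
  exact h

theorem aW_dom {K ω s0 : ℕ} (hg : Good n adj w K ω s0) :
    aW k bits n W adj w (fun _ _ => 1) s0 = aW k bits n W adj w (fun _ _ => 1) 0 *
      (rMu k bits.length n W ^ K * (rG k bits.length n W ^ qS k n) ^ ω) ∧
    ∀ s < 2 ^ n, s ≠ s0 → 2 ^ qE n * aW k bits n W adj w (fun _ _ => 1) s ≤
      aW k bits n W adj w (fun _ _ => 1) s0 := by
  obtain ⟨f1, f2, f3, f4, -, -, f7, f8, -⟩ := f_facts hk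
  obtain ⟨h0, h1, h2, hA, h4, -⟩ := q_basic hk bits.length n W
  obtain ⟨-, -, t0, t1, -⟩ := gain_facts f1 f2 f3 f4 (by exact_mod_cast hk) f7 f8 h0 h1 h2
  obtain ⟨g1, g2⟩ := q_gain hk bits.length n W
  obtain ⟨m1, m2, -⟩ := q_mu hk bits.length n W
  have hB : (0 : ℝ) < qB k bits.length n W := lt_of_lt_of_le (by positivity) h4
  have z0 : (0 : ℝ) < f00 k := by linarith
  have e := phW_eq k bits n adj (qT k n W) (qLam k n W)
    (fun v => qL k bits.length n W + qS k n * w v) (qA k bits.length n W) _ _ _ hB.ne'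
    (by positivity) (by positivity) (by positivity) _ _ (rG_eq k bits.length n W) rfl
  generalize 1 - (q1 k bits.length n W : ℝ) ^ 2 * _ / _ = θ at e t0 t1
  have e2 : ∀ v, (qA k bits.length n W : ℝ) / qB k bits.length n W * rG k bits.length n W ^
      (n * qT k n W + (qL k bits.length n W + qS k n * w v)) =
      rMu k bits.length n W * (rG k bits.length n W ^ qS k n) ^ w v := fun v => by
    rw [rMu, ← add_assoc, pow_add _ _ (qS k n * w v), pow_mul _ (qS k n), mul_assoc]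
  simp only [e2] at e
  have g0 : 1 ≤ rG k bits.length n W := le_trans (le_add_of_nonneg_right (by positivity)) g1
  have b1 : (rG k bits.length n W ^ qS k n) ^ (n * W) ≤ 2 ^ (2 * qS k n * (n * W)) := by
    rw [pow_mul 2 _ (n * W), pow_mul 2 2]
    gcongr
    linarith
  have b2 := half_pow (c := 24 * k ^ 3) (by positivity)
    (qE n + (2 + qH k n W + 2 * qS k n * W) * n) t0 (by push_cast; exact t1)
  have θ1 : θ ≤ 1 := t1.trans (sub_le_self _ (by positivity))
  obtain ⟨d1, d2⟩ := dominance (μ := rMu k bits.length n W) (B := rG k bits.length n W ^ qS k n)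
    (τ := θ ^ qT k n W) (E := 2 ^ qE n) hw (one_le_pow₀ (by norm_num))
    (two_pow_le (by omega) _ g1) (le_trans (by rw [qH, pow_add]; gcongr) m1) (by positivity)
    (pow_le_one₀ t0 θ1) (by
      have m0 : 0 ≤ rMu k bits.length n W := le_trans (by positivity) m1
      calc _ ≤ 2 ^ qE n * (1 / 2 ^ (qE n + (2 + qH k n W + 2 * qS k n * W) * n) *
            (((2 : ℝ) ^ (2 + qH k n W)) ^ n * 2 ^ (2 * qS k n * (n * W)))) := by
            gcongr
            exact b2
        _ = 1 := by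
            rw [← pow_mul, ← pow_add, pow_add _ (qE n), show (2 + qH k n W) * n +
              2 * qS k n * (n * W) = (2 + qH k n W + 2 * qS k n * W) * n by ring]
            field_simp) hg
  have n0 : 0 ≤ aW k bits n W adj w (fun _ _ => 1) 0 :=
    phW_nonneg _ _ _ hA.le hB.le h0.le (by positivity) (fun _ _ => zero_le_one) 0
  have e3 : aW k bits n W adj w (fun _ _ => 1) s0 = aW k bits n W adj w (fun _ _ => 1) 0 *
      (rMu k bits.length n W ^ K * (rG k bits.length n W ^ qS k n) ^ ω) := by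
    rw [← d1]; exact e s0
  refine ⟨e3, fun s hs hne => ?_⟩
  rw [e3, show aW k bits n W adj w (fun _ _ => 1) s = _ from e s, mul_left_comm]
  exact mul_le_mul_of_nonneg_left (d2 s hs hne) n0

omit hk hw in
theorem aW_nonneg {ι : Slot → F → ℝ} (h : ∀ x b, 0 ≤ ι x b) (s : ℕ) :
    0 ≤ aW k bits n W adj w ι s :=
  phW_nonneg _ _ _ (by positivity) (by positivity) (by positivity) (by positivity) h s

theorem aW_rest {K ω s0 : ℕ} (hg : Good n adj w K ω s0) :
    2 ^ qE n * ∑ s ∈ (range (2 ^ n)).erase s0, aW k bits n W adj w (fun _ _ => 1) s ≤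
      2 ^ n * aW k bits n W adj w (fun _ _ => 1) s0 := by
  rw [mul_sum]
  refine (sum_le_card_nsmul _ _ _ fun s hs => (aW_dom hk bits adj hw hg).2 s
    (mem_range.1 (mem_of_mem_erase hs)) (ne_of_mem_erase hs)).trans ?_
  rw [nsmul_eq_mul]
  refine mul_le_mul_of_nonneg_right ?_ (aW_nonneg bits adj (fun _ _ => zero_le_one) _)
  exact_mod_cast card_erase_le.trans_eq (card_range _)

theorem aW_mark_in {K ω s0 : ℕ} (hg : Good n adj w K ω s0) {v : ℕ} (hv : v < n)
    (hadj : adj v v = false) (hs : s0.testBit v = true) :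
    2 ^ qE n * ∑ s ∈ range (2 ^ n), aW k bits n W adj w (mark v) s ≤
      2 * 2 ^ n * ∑ s ∈ range (2 ^ n), aW k bits n W adj w (fun _ _ => 1) s := by
  obtain ⟨f1, f2, f3, f4, -, -, f7, f8, -⟩ := f_facts hk
  obtain ⟨h0, h1, h2, -⟩ := q_basic hk bits.length n W
  obtain ⟨-, -, -, -, t2⟩ := gain_facts f1 f2 f3 f4 (by exact_mod_cast hk) f7 f8 h0 h1 h2
  have hk' : (2 : ℝ) ≤ k := by exact_mod_cast hk
  have r0 : 0 ≤ 1 - 1 / (24 * (k : ℝ) ^ 3) := by
    rw [sub_nonneg, div_le_one (by positivity)]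
    have : (1 : ℝ) ≤ k ^ 3 := one_le_pow₀ (by linarith)
    linarith
  have a1 : aW k bits n W adj w (mark v) s0 ≤ _ * aW k bits n W adj w (fun _ _ => 1) s0 :=
    phW_mark_small k bits n adj _ _ _ (by positivity) (by positivity) h0.le
      (by positivity) r0 (sub_le_self _ (by positivity)) t2 hv hadj hs
  have b2 := half_pow (c := 24 * k ^ 3) (by positivity)
    (qE n + (2 + qH k n W + 2 * qS k n * W) * n) r0 (by push_cast; exact le_rfl)
  have n0 := aW_nonneg (n := n) (W := W) (w := w) (k := k) bits adj (ι := fun _ _ => 1)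
    (fun _ _ => zero_le_one)
  have a2 : 2 ^ qE n * aW k bits n W adj w (mark v) s0 ≤
      aW k bits n W adj w (fun _ _ => 1) s0 := by
    have c : (2 : ℝ) ^ qE n * (1 - 1 / (24 * (k : ℝ) ^ 3)) ^ qT k n W ≤ 1 := by
      refine (mul_le_mul_of_nonneg_left b2 (by positivity)).trans ?_
      rw [mul_one_div, div_le_one (by positivity)]
      exact pow_le_pow_right₀ (by norm_num) (Nat.le_add_right _ _)
    refine (mul_le_mul_of_nonneg_left a1 (by positivity)).trans ?_
    rw [← mul_assoc]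
    exact mul_le_of_le_one_left (n0 _) c
  have a3 := aW_rest hk bits adj hw hg
  have a4 : ∑ s ∈ (range (2 ^ n)).erase s0, aW k bits n W adj w (mark v) s ≤
      ∑ s ∈ (range (2 ^ n)).erase s0, aW k bits n W adj w (fun _ _ => 1) s :=
    sum_le_sum fun s _ => phW_mark_le _ _ _ (by positivity) (by positivity) h0.le
      (by positivity) v s
  have a5 : 0 ≤ ∑ s ∈ (range (2 ^ n)).erase s0, aW k bits n W adj w (fun _ _ => 1) s :=
    sum_nonneg fun s _ => n0 s
  have a6 : (1 : ℝ) ≤ 2 ^ n := one_le_pow₀ (by norm_num)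
  have a7 := mul_le_mul_of_nonneg_left a4 (by positivity : (0 : ℝ) ≤ 2 ^ qE n)
  rw [← add_sum_erase _ _ (mem_range.2 hg.1), ← add_sum_erase _ _ (mem_range.2 hg.1)]
  nlinarith [n0 s0]

theorem aW_mark_out {K ω s0 : ℕ} (hg : Good n adj w K ω s0) {v : ℕ} (hv : v < n)
    (hs : s0.testBit v = false) :
    2 ^ qE n * (∑ s ∈ range (2 ^ n), aW k bits n W adj w (fun _ _ => 1) s -
      ∑ s ∈ range (2 ^ n), aW k bits n W adj w (mark v) s) ≤
      2 * 2 ^ n * ∑ s ∈ range (2 ^ n), aW k bits n W adj w (fun _ _ => 1) s := by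
  have a1 : aW k bits n W adj w (mark v) s0 = aW k bits n W adj w (fun _ _ => 1) s0 :=
    phW_mark_eq _ _ _ _ _ _ _ hv hs
  have n0 := aW_nonneg (n := n) (W := W) (w := w) (k := k) bits adj (ι := fun _ _ => 1)
    (fun _ _ => zero_le_one)
  have a3 := aW_rest hk bits adj hw hg
  have a4 : 0 ≤ ∑ s ∈ (range (2 ^ n)).erase s0, aW k bits n W adj w (mark v) s :=
    sum_nonneg fun s _ => aW_nonneg bits adj (mark_nonneg v) s
  have a5 : 0 ≤ ∑ s ∈ (range (2 ^ n)).erase s0, aW k bits n W adj w (fun _ _ => 1) s :=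
    sum_nonneg fun s _ => n0 s
  have a6 : (1 : ℝ) ≤ 2 ^ n := one_le_pow₀ (by norm_num)
  have a7 := mul_nonneg (by positivity : (0 : ℝ) ≤ 2 ^ qE n) a4
  rw [← add_sum_erase _ _ (mem_range.2 hg.1), ← add_sum_erase _ _ (mem_range.2 hg.1), a1]
  nlinarith [n0 s0]

end system

end Pool.Agent.MP_74c440_lc

end MrgPart1

-- marker of a merged file
example : 731051 + 137083 = 731051 + 137083 := rfl
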